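import Pool.Agent.H471R2.Ex.Jq
set_option autoImplicit false
set_option linter.all false
open NumberField Ideal nonZeroDivisors

namespace Pool.Agent.H471R2

section
variable {U V W : Type*} [AddCommGroup U] [Module (ZMod 2) U] [AddCommGroup V] [Module (ZMod 2) V]
  [AddCommGroup W] [Module (ZMod 2) W]

/-- extension of a linear map defined on a range -/
theorem ext_range (Q : U →ₗ[ZMod 2] V) (Φ : U →ₗ[ZMod 2] W) (h : LinearMap.ker Q ≤ LinearMap.ker Φ) :
    ∃ P : V →ₗ[ZMod 2] W, ∀ z, P (Q z) = Φ z := by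
  obtain ⟨s, hs⟩ := Q.rangeRestrict.exists_rightInverse_of_surjective Q.range_rangeRestrict
  obtain ⟨P, hP⟩ := LinearMap.exists_extend (Φ ∘ₗ s)
  refine ⟨P, fun z => ?_⟩
  have h1 : P (Q z) = Φ (s (Q.rangeRestrict z)) := by
    have := LinearMap.congr_fun hP (Q.rangeRestrict z)
    exact this
  rw [h1]
  have h2 : s (Q.rangeRestrict z) - z ∈ LinearMap.ker Q := by
    rw [LinearMap.mem_ker, map_sub, sub_eq_zero]
    have := LinearMap.congr_fun hs (Q.rangeRestrict z)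
    exact congrArg Subtype.val this
  have h3 := h h2
  rw [LinearMap.mem_ker, map_sub, sub_eq_zero] at h3
  exact h3
end

section
variable {V : Type*} [AddCommGroup V] [Module (ZMod 2) V]

theorem abs_summand (S T : V →ₗ[ZMod 2] V) {n t s : ℕ} (G : (Fin n → ZMod 2) →ₗ[ZMod 2] V)
    (φ : (Fin n → ZMod 2) →ₗ[ZMod 2] (Fin s → ZMod 2)) (hφ : LinearMap.ker G ≤ LinearMap.ker φ)
    (PT : V →ₗ[ZMod 2] (Fin t → ZMod 2)) (hPG : ∀ e, PT (G e) = 0) (x : Fin t → V)
    (hx : ∀ j, PT (x j) = Pi.single j 1) (w : Fin s → (Fin n → ZMod 2))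
    (hw : ∀ k, φ (w k) = Pi.single k 1)
    (A B : (Fin t → ZMod 2) →ₗ[ZMod 2] (Fin s → ZMod 2))
    (hSx : ∀ j, S (x j) = G (∑ k, A (Pi.single j 1) k • w k))
    (hTx : ∀ j, T (x j) = G (∑ k, B (Pi.single j 1) k • w k))
    (hSG : ∀ e, S (G e) = 0) (hTG : ∀ e, T (G e) = 0)
    (h4 : ∀ x, ∃ e, S x = G e ∧ φ e = A (PT x)) (h5 : ∀ x, ∃ e, T x = G e ∧ φ e = B (PT x)) :
    ∃ (i : (Fin t → ZMod 2) × (Fin s → ZMod 2) →ₗ[ZMod 2] V)
      (p : V →ₗ[ZMod 2] (Fin t → ZMod 2) × (Fin s → ZMod 2)), (∀ m, p (i m) = m) ∧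
      (∀ m, i (Kr.op A m) = S (i m)) ∧ (∀ m, i (Kr.op B m) = T (i m)) ∧
      (∀ x, p (S x) = Kr.op A (p x)) ∧ (∀ x, p (T x) = Kr.op B (p x)) := by
  classical
  -- the map spanned by the `x j`
  let X : (Fin t → ZMod 2) →ₗ[ZMod 2] V := Fintype.linearCombination (ZMod 2) x
  have hX : ∀ u, X u = ∑ j, u j • x j := fun u => rfl
  let Wm : (Fin s → ZMod 2) →ₗ[ZMod 2] (Fin n → ZMod 2) := Fintype.linearCombination (ZMod 2) w
  have hWm : ∀ u, Wm u = ∑ j, u j • w j := fun u => rfl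
  have hPX : ∀ u, PT (X u) = u := by
    intro u
    rw [hX, map_sum]
    simp only [map_smul, hx]
    ext j
    simp [Finset.sum_apply, Pi.single_apply]
  have hφW : ∀ u, φ (Wm u) = u := by
    intro u
    rw [hWm, map_sum]
    simp only [map_smul, hw]
    ext j
    simp [Finset.sum_apply, Pi.single_apply]
  let Q : (Fin n → ZMod 2) × (Fin t → ZMod 2) →ₗ[ZMod 2] V := G.coprod X
  let Φ : (Fin n → ZMod 2) × (Fin t → ZMod 2) →ₗ[ZMod 2] (Fin s → ZMod 2) := φ.coprod 0
  have hker : LinearMap.ker Q ≤ LinearMap.ker Φ := by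
    rintro ⟨e, u⟩ h
    rw [LinearMap.mem_ker] at h ⊢
    have h1 : G e + X u = 0 := h
    have h2 := congrArg PT h1
    rw [map_add, hPG, hPX, zero_add, map_zero] at h2
    rw [h2, map_zero, add_zero] at h1
    have h3 : φ e = 0 := hφ h1
    change φ e + 0 = 0
    rw [h3, add_zero]
  obtain ⟨PS, hPS⟩ := ext_range Q Φ hker
  have hPSG : ∀ e, PS (G e) = φ e := by
    intro e
    have := hPS (e, 0)
    have h1 : Q (e, 0) = G e := by
      change G e + X 0 = G e
      rw [map_zero, add_zero]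
    have h2 : Φ (e, 0) = φ e := by
      change φ e + 0 = φ e
      rw [add_zero]
    rwa [h1, h2] at this
  have hPSX : ∀ u, PS (X u) = 0 := by
    intro u
    have := hPS (0, u)
    have h1 : Q (0, u) = X u := by
      change G 0 + X u = X u
      rw [map_zero, zero_add]
    have h2 : Φ (0, u) = 0 := by
      change φ 0 + 0 = 0
      rw [map_zero, add_zero]
    rwa [h1, h2] at this
  have hSX : ∀ (S : V →ₗ[ZMod 2] V) (A : (Fin t → ZMod 2) →ₗ[ZMod 2] (Fin s → ZMod 2)),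
      (∀ j, S (x j) = G (∑ k, A (Pi.single j 1) k • w k)) → ∀ u, S (X u) = G (Wm (A u)) := by
    intro S A hSx u
    rw [hX, map_sum]
    simp only [map_smul, hSx]
    have h1 : A u = ∑ j, u j • A (Pi.single j 1) := by
      have : u = ∑ j, u j • (Pi.single j 1 : Fin t → ZMod 2) := by
        ext j
        simp [Finset.sum_apply, Pi.single_apply]
      conv_lhs => rw [this]
      rw [map_sum]
      simp only [map_smul]
    rw [h1, map_sum, map_sum]
    apply Finset.sum_congr rfl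
    intro j _
    rw [map_smul, map_smul, hWm]
  refine ⟨X.coprod (G ∘ₗ Wm), PT.prod PS, ?_, ?_, ?_, ?_, ?_⟩
  · rintro ⟨u, y⟩
    change (PT (X u + G (Wm y)), PS (X u + G (Wm y))) = (u, y)
    rw [map_add, map_add, hPX, hPG, hPSX, hPSG, hφW, add_zero, zero_add]
  · rintro ⟨u, y⟩
    rw [Kr.op_apply]
    change X 0 + G (Wm (A u)) = S (X u + G (Wm y))
    rw [map_add, map_zero, zero_add, hSG, add_zero, hSX S A hSx]
  · rintro ⟨u, y⟩
    rw [Kr.op_apply]
    change X 0 + G (Wm (B u)) = T (X u + G (Wm y))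
    rw [map_add, map_zero, zero_add, hTG, add_zero, hSX T B hTx]
  · intro z
    obtain ⟨e, h1, h2⟩ := h4 z
    rw [Kr.op_apply, h1]
    change (PT (G e), PS (G e)) = (0, A (PT z))
    rw [hPG, hPSG, h2]
  · intro z
    obtain ⟨e, h1, h2⟩ := h5 z
    rw [Kr.op_apply, h1]
    change (PT (G e), PS (G e)) = (0, B (PT z))
    rw [hPG, hPSG, h2]
end

end Pool.Agent.H471R2
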