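import Pool.Agent.H471R2.Bridge
set_option autoImplicit false
set_option linter.all false

open Polynomial NumberField

namespace Pool.Agent.H471R2


theorem galois_of {K : Type} [Field K] [NumberField K] [IsGalois ℚ K] (D1 D2 : ℤ)
    (h1 : ¬ IsSquare ((D1 : ℤ) : ℚ)) (h2 : ¬ IsSquare ((D2 : ℤ) : ℚ))
    (h12 : ¬ IsSquare (((D1 * D2 : ℤ)) : ℚ)) (s1 s2 : K) (hs1 : s1 * s1 = ((D1 : ℤ) : K))
    (hs2 : s2 * s2 = ((D2 : ℤ) : K))
    (hadj : ∀ x : K, x ∈ Algebra.adjoin ℚ ({s1, s2} : Set K)) :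
    ∃ (e : V22 ≃* (K ≃ₐ[ℚ] K)), e gs s1 = s1 ∧ e gs s2 = -s2 ∧ e gt s1 = -s1 ∧ e gt s2 = s2 := by
  classical
  have hq : ∀ (s : K) (D : ℤ), s * s = ((D : ℤ) : K) → ∀ g : K ≃ₐ[ℚ] K, g s = s ∨ g s = -s := by
    intro s D hs g
    have h3 : g s * g s = s * s := by rw [← map_mul, hs, map_intCast]
    exact mul_self_eq_mul_self_iff.1 h3
  have hne : ∀ (s : K) (D : ℤ), s * s = ((D : ℤ) : K) → D ≠ 0 → s ≠ -s := by
    intro s D hs hD h3
    have h4 : (2 : K) * s = 0 := by linear_combination h3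
    rcases mul_eq_zero.1 h4 with h5 | h5
    · exact two_ne_zero h5
    · rw [h5, mul_zero] at hs
      exact hD (by exact_mod_cast hs.symm)
  have hD1 : D1 ≠ 0 := by
    rintro rfl; exact h1 ⟨0, by simp⟩
  have hD2 : D2 ≠ 0 := by
    rintro rfl; exact h2 ⟨0, by simp⟩
  have n1 := hne s1 D1 hs1 hD1
  have n2 := hne s2 D2 hs2 hD2
  let sg1 : (s : K) → (K ≃ₐ[ℚ] K) → Multiplicative (ZMod 2) := fun s g => if g s = s then 1 else Multiplicative.ofAdd 1
  have hsg : ∀ (s : K), s ≠ -s → (∀ g : K ≃ₐ[ℚ] K, g s = s ∨ g s = -s) → ∀ g h, sg1 s (g * h) = sg1 s g * sg1 s h := by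
    intro s hs hg g h
    simp only [sg1]
    change (if g (h s) = s then (1 : Multiplicative (ZMod 2)) else _) = _
    rcases hg g with h3 | h3 <;> rcases hg h with h4 | h4
    · rw [h4, h3, if_pos rfl]; rfl
    · rw [h4, map_neg, h3, if_neg hs.symm, if_pos rfl]; rfl
    · rw [h4, h3, if_neg hs.symm, if_pos rfl]; rfl
    · rw [h4, map_neg, h3, neg_neg, if_pos rfl, if_neg hs.symm]; rfl
  let c : (K ≃ₐ[ℚ] K) →* V22 :=
    { toFun := fun g => (sg1 s2 g, sg1 s1 g)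
      map_one' := by simp [sg1]
      map_mul' := fun g h => Prod.ext (hsg s2 n2 (hq s2 D2 hs2) g h) (hsg s1 n1 (hq s1 D1 hs1) g h) }
  have hc1 : ∀ g, (c g).1 = 1 ↔ g s2 = s2 := by
    intro g
    change sg1 s2 g = 1 ↔ _
    simp only [sg1]
    split_ifs with h
    · simp [h]
    · simp [h]
  have hc2 : ∀ g, (c g).2 = 1 ↔ g s1 = s1 := by
    intro g
    change sg1 s1 g = 1 ↔ _
    simp only [sg1]
    split_ifs with h
    · simp [h]
    · simp [h]
  -- injectivity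
  have hinj : Function.Injective c := by
    rw [injective_iff_map_eq_one]
    intro g hg
    have e1 : g s2 = s2 := (hc1 g).1 (by rw [hg]; rfl)
    have e2 : g s1 = s1 := (hc2 g).1 (by rw [hg]; rfl)
    have key : ∀ x ∈ Algebra.adjoin ℚ ({s1, s2} : Set K), g x = x := by
      intro x hx
      induction hx using Algebra.adjoin_induction with
      | mem x hx =>
        rcases hx with rfl | rfl
        · exact e2
        · exact e1
      | algebraMap r => exact g.commutes r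
      | add x y _ _ hx hy => rw [map_add, hx, hy]
      | mul x y _ _ hx hy => rw [map_mul, hx, hy]
    ext x
    exact key x (hadj x)
  -- a fixed element is rational
  have hfix : ∀ x : K, (∀ g : K ≃ₐ[ℚ] K, g x = x) → ∃ q : ℚ, x = (q : K) := by
    intro x hx
    have h3 : x ∈ (⊥ : IntermediateField ℚ K) := by
      rw [← IsGalois.fixedField_top (F := ℚ) (E := K)]
      intro g
      exact hx g.1
    rw [IntermediateField.mem_bot] at h3
    obtain ⟨q, hq⟩ := h3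
    exact ⟨q, by rw [← hq]; rfl⟩
  have hnofix : ∀ (x : K) (D : ℤ), x * x = ((D : ℤ) : K) → ¬ IsSquare ((D : ℤ) : ℚ) →
      ∃ g : K ≃ₐ[ℚ] K, g x ≠ x := by
    intro x D hx hD
    by_contra hcon
    push Not at hcon
    obtain ⟨q, hq⟩ := hfix x hcon
    apply hD
    refine ⟨q, ?_⟩
    rw [hq] at hx
    exact_mod_cast hx.symm
  obtain ⟨g1, hg1⟩ := hnofix s1 D1 hs1 h1
  obtain ⟨g2, hg2⟩ := hnofix s2 D2 hs2 h2
  obtain ⟨g3, hg3⟩ := hnofix (s1 * s2) (D1 * D2) (by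
    push_cast
    calc _ = (s1 * s1) * (s2 * s2) := by ring
      _ = _ := by rw [hs1, hs2]) h12
  have k1 : (c g1).2 ≠ 1 := fun h => hg1 ((hc2 g1).1 h)
  have k2 : (c g2).1 ≠ 1 := fun h => hg2 ((hc1 g2).1 h)
  have k3 : (c g3).1 ≠ (c g3).2 := by
    intro h
    apply hg3
    rw [map_mul]
    by_cases h4 : (c g3).1 = 1
    · rw [(hc1 g3).1 h4, (hc2 g3).1 (h ▸ h4)]
    · have h5 : (c g3).2 ≠ 1 := by rw [← h]; exact h4
      have e1 : g3 s2 = -s2 := (hq s2 D2 hs2 g3).resolve_left (fun h6 => h4 ((hc1 g3).2 h6))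
      have e2 : g3 s1 = -s1 := (hq s1 D1 hs1 g3).resolve_left (fun h6 => h5 ((hc2 g3).2 h6))
      rw [e1, e2]; ring
  have hsurj : Function.Surjective c := by
    have key : ∀ x y z v : V22, x.2 ≠ 1 → y.1 ≠ 1 → z.1 ≠ z.2 →
        ∃ a b d : Bool, (if a then x else 1) * (if b then y else 1) * (if d then z else 1) = v := by
      decide
    intro v
    obtain ⟨a, b, d, h⟩ := key _ _ _ v k1 k2 k3
    refine ⟨(if a then g1 else 1) * (if b then g2 else 1) * (if d then g3 else 1), ?_⟩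
    rw [map_mul, map_mul, ← h]
    cases a <;> cases b <;> cases d <;> simp
  let E := MulEquiv.ofBijective c ⟨hinj, hsurj⟩
  have hE : ∀ v, c (E.symm v) = v := fun v => E.apply_symm_apply v
  refine ⟨E.symm, ?_, ?_, ?_, ?_⟩
  · exact (hc2 _).1 (by rw [hE]; rfl)
  · exact (hq s2 D2 hs2 _).resolve_left (fun h => absurd ((hc1 _).2 h) (by rw [hE]; decide))
  · exact (hq s1 D1 hs1 _).resolve_left (fun h => absurd ((hc2 _).2 h) (by rw [hE]; decide))
  · exact (hc1 _).1 (by rw [hE]; rfl)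

theorem split_data {K : Type} [Field K] [Algebra ℚ K] (f : ℚ[X]) [hf : f.IsSplittingField ℚ K] (hf0 : f ≠ 0)
    (D1 D2 : ℤ) (hfe : f = (X ^ 2 - C ((D1 : ℤ) : ℚ)) * (X ^ 2 - C ((D2 : ℤ) : ℚ))) :
    ∃ s1 s2 : K, s1 * s1 = ((D1 : ℤ) : K) ∧ s2 * s2 = ((D2 : ℤ) : K) ∧
      ∀ x : K, x ∈ Algebra.adjoin ℚ ({s1, s2} : Set K) := by
  classical
  have hsp : (f.map (algebraMap ℚ K)).Splits := IsSplittingField.splits K f
  have hroot : ∀ (D : ℤ), (X ^ 2 - C ((D : ℤ) : ℚ)) ∣ f → ∃ s : K, s * s = ((D : ℤ) : K) := by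
    intro D hD
    have hsD : ((X ^ 2 - C ((D : ℤ) : ℚ)).map (algebraMap ℚ K)).Splits :=
      hsp.of_dvd (by
        rw [Ne, Polynomial.map_eq_zero]; exact hf0) (Polynomial.map_dvd _ hD)
    have hdeg : ((X ^ 2 - C ((D : ℤ) : ℚ)).map (algebraMap ℚ K)).degree ≠ 0 := by
      rw [Polynomial.degree_map, degree_X_pow_sub_C (by norm_num)]
      norm_num
    obtain ⟨s, hs⟩ := hsD.exists_eval_eq_zero hdeg
    refine ⟨s, ?_⟩
    rw [Polynomial.eval_map_algebraMap] at hs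
    simp only [map_sub, map_pow, aeval_X, aeval_C] at hs
    have h3 : (algebraMap ℚ K) ((D : ℤ) : ℚ) = ((D : ℤ) : K) := by simp
    rw [h3] at hs
    rw [← sq]
    exact sub_eq_zero.1 hs
  obtain ⟨s1, hs1⟩ := hroot D1 ⟨_, hfe⟩
  obtain ⟨s2, hs2⟩ := hroot D2 ⟨_, by rw [hfe]; exact mul_comm _ _⟩
  refine ⟨s1, s2, hs1, hs2, ?_⟩
  intro x
  have h1 : Algebra.adjoin ℚ (f.rootSet K) = ⊤ := IsSplittingField.adjoin_rootSet K f
  have h2 : Algebra.adjoin ℚ (f.rootSet K) ≤ Algebra.adjoin ℚ ({s1, s2} : Set K) := by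
    apply Algebra.adjoin_le
    intro x hx
    rw [mem_rootSet_of_ne hf0] at hx
    have hx' : (aeval x) ((X ^ 2 - C ((D1 : ℤ) : ℚ)) * (X ^ 2 - C ((D2 : ℤ) : ℚ))) = 0 := by
      rw [← hfe]; exact hx
    rw [map_mul, mul_eq_zero] at hx'
    simp only [map_sub, map_pow, aeval_X, aeval_C] at hx'
    have a1 : (algebraMap ℚ K) ((D1 : ℤ) : ℚ) = s1 * s1 := by rw [hs1]; simp
    have a2 : (algebraMap ℚ K) ((D2 : ℤ) : ℚ) = s2 * s2 := by rw [hs2]; simp
    rw [a1, a2] at hx'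
    have m1 : s1 ∈ Algebra.adjoin ℚ ({s1, s2} : Set K) := Algebra.subset_adjoin (by simp)
    have m2 : s2 ∈ Algebra.adjoin ℚ ({s1, s2} : Set K) := Algebra.subset_adjoin (by simp)
    rcases hx' with h | h
    · have h3 : x * x = s1 * s1 := by linear_combination h
      rcases mul_self_eq_mul_self_iff.1 h3 with h4 | h4
      · rw [h4]; exact m1
      · rw [h4]; exact neg_mem m1
    · have h3 : x * x = s2 * s2 := by linear_combination h
      rcases mul_self_eq_mul_self_iff.1 h3 with h4 | h4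
      · rw [h4]; exact m2
      · rw [h4]; exact neg_mem m2
  rw [h1] at h2
  exact h2 trivial

theorem exists_field (D1 D2 : ℤ) (h1 : ¬ IsSquare ((D1 : ℤ) : ℚ)) (h2 : ¬ IsSquare ((D2 : ℤ) : ℚ))
    (h12 : ¬ IsSquare (((D1 * D2 : ℤ)) : ℚ)) :
    ∃ (K : Type) (_ : Field K) (_ : NumberField K) (_ : IsGalois ℚ K) (e : V22 ≃* (K ≃ₐ[ℚ] K))
      (s1 s2 : K), s1 * s1 = ((D1 : ℤ) : K) ∧ s2 * s2 = ((D2 : ℤ) : K) ∧ e gs s1 = s1 ∧
        e gs s2 = -s2 ∧ e gt s1 = -s1 ∧ e gt s2 = s2 := by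
  have hm1 : (X ^ 2 - C ((D1 : ℤ) : ℚ)).Monic := monic_X_pow_sub_C _ two_ne_zero
  have hm2 : (X ^ 2 - C ((D2 : ℤ) : ℚ)).Monic := monic_X_pow_sub_C _ two_ne_zero
  obtain ⟨f, hf⟩ : ∃ f : ℚ[X], f = (X ^ 2 - C ((D1 : ℤ) : ℚ)) * (X ^ 2 - C ((D2 : ℤ) : ℚ)) := ⟨_, rfl⟩
  have hf0 : f ≠ 0 := by rw [hf]; exact (hm1.mul hm2).ne_zero
  haveI i1 : NumberField f.SplittingField := { to_charZero := inferInstance, to_finiteDimensional := inferInstance }
  haveI i0 : @IsSplittingField ℚ f.SplittingField _ _ (DivisionRing.toRatAlgebra) f := by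
    have h0 := IsSplittingField.splittingField f
    convert h0 using 1
    exact Subsingleton.elim _ _
  haveI i2 : Normal ℚ f.SplittingField := Normal.of_isSplittingField f
  haveI i3 : IsGalois ℚ f.SplittingField := { to_isSeparable := inferInstance, to_normal := i2 }
  obtain ⟨s1, s2, hs1, hs2, hadj⟩ := split_data (K := f.SplittingField) f hf0 D1 D2 hf
  obtain ⟨e, e1, e2, e3, e4⟩ := galois_of D1 D2 h1 h2 h12 s1 s2 hs1 hs2 hadj
  exact ⟨f.SplittingField, inferInstance, i1, i3, e, s1, s2, hs1, hs2, e1, e2, e3, e4⟩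

end Pool.Agent.H471R2
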