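import Pool.Agent.H471R2.Ex.Side
import Pool.Agent.H471R2.Ex.Field
set_option autoImplicit false
set_option linter.all false
open NumberField Ideal nonZeroDivisors

namespace Pool.Agent.H471R2

/-- a biquadratic field with its three square roots -/
structure Bi (K : Type) [Field K] [NumberField K] where
  g : Fin 3 → (K ≃ₐ[ℚ] K)
  g' : Fin 3 → (K ≃ₐ[ℚ] K)
  D : Fin 3 → ℤ
  s : Fin 3 → 𝓞 K
  hv : ∀ i, V4 (g i) (g' i)
  rt : ∀ i, Rt (g i) (g' i) (D i) (s i)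
  v0 : V4 (g 0) (g 1)
  g2 : g 2 = g 0 * g 1
  neg : ∀ i, ∃ j, ra (g i) (s j) = - s j
  c : ℤ
  hc : D 0 * D 1 * D 2 = c ^ 2

theorem not_sq_of_sf {D : ℤ} (h : Squarefree D) (h1 : 1 < D) : ¬ IsSquare ((D : ℤ) : ℚ) := by
  rw [Rat.isSquare_intCast_iff]
  rintro ⟨c, hc⟩
  have h2 := h c ⟨1, by rw [hc]; ring⟩
  rcases Int.isUnit_iff.1 h2 with h3 | h3
  · rw [h3] at hc; omega
  · rw [h3] at hc; omega

theorem exists_bi (d0 d1 d2 : ℕ) (h0 : Squarefree ((d1 * d2 : ℕ) : ℤ)) (h1 : Squarefree ((d0 * d2 : ℕ) : ℤ))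
    (h2 : Squarefree ((d0 * d1 : ℕ) : ℤ)) (k0 : 1 < d1 * d2) (k1 : 1 < d0 * d2) (k2 : 1 < d0 * d1) :
    ∃ (K : Type) (_ : Field K) (_ : NumberField K) (_ : IsGalois ℚ K) (e : V22 ≃* (K ≃ₐ[ℚ] K))
      (B : Bi K), B.g 0 = e gs ∧ B.g 1 = e gt ∧ B.D 0 = ((d1 * d2 : ℕ) : ℤ) ∧
        B.D 1 = ((d0 * d2 : ℕ) : ℤ) ∧ B.D 2 = ((d0 * d1 : ℕ) : ℤ) ∧ Nonempty (K →+* ℝ) := by
  have hd2 : (d2 : ℤ) ≠ 0 := by
    rintro h
    have : d2 = 0 := by exact_mod_cast h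
    rw [this] at k0; simp at k0
  have n0 := not_sq_of_sf h0 (by exact_mod_cast k0)
  have n1 := not_sq_of_sf h1 (by exact_mod_cast k1)
  have n2 := not_sq_of_sf h2 (by exact_mod_cast k2)
  have n01 : ¬ IsSquare ((((d1 * d2 : ℕ) : ℤ) * ((d0 * d2 : ℕ) : ℤ) : ℤ) : ℚ) := by
    rintro ⟨c, hc⟩
    apply n2
    refine ⟨c / d2, ?_⟩
    have hd2' : (d2 : ℚ) ≠ 0 := by exact_mod_cast hd2
    push_cast at hc ⊢
    field_simp
    linear_combination hc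
  obtain ⟨K, i1, i2, i3, e, s1, s2, q1, q2, e1, e2, e3, e4⟩ := exists_field _ _ n0 n1 n01
  have v0 := V4_of e
  set σ := e gs with hσ
  set τ := e gt with hτ
  have int1 : IsIntegral ℤ s1 := isIntegral_of_sq q1
  have int2 : IsIntegral ℤ s2 := isIntegral_of_sq q2
  have hd2K : (d2 : K) ≠ 0 := by exact_mod_cast hd2
  have q3 : (s1 * s2 / d2) * (s1 * s2 / d2) = (((d0 * d1 : ℕ) : ℤ) : K) := by
    push_cast at q1 q2 ⊢
    field_simp
    linear_combination s2 ^ 2 * q1 + (d1 * d2 : K) * q2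
  have int3 : IsIntegral ℤ (s1 * s2 / (d2 : K)) := isIntegral_of_sq q3
  let t1 : 𝓞 K := ⟨s1, int1⟩
  let t2 : 𝓞 K := ⟨s2, int2⟩
  let t3 : 𝓞 K := ⟨s1 * s2 / (d2 : K), int3⟩
  have c1 : (t1 : K) = s1 := rfl
  have c2 : (t2 : K) = s2 := rfl
  have c3 : (t3 : K) = s1 * s2 / (d2 : K) := rfl
  have f1 : Rt σ τ ((d1 * d2 : ℕ) : ℤ) t1 := by
    refine ⟨?_, ?_, ?_, h0⟩
    · apply RingOfIntegers.coe_injective
      rw [map_mul, map_intCast]; exact q1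
    · apply RingOfIntegers.coe_injective
      exact e1
    · apply RingOfIntegers.coe_injective
      exact e3
  have f2 : Rt τ σ ((d0 * d2 : ℕ) : ℤ) t2 := by
    refine ⟨?_, ?_, ?_, h1⟩
    · apply RingOfIntegers.coe_injective
      rw [map_mul, map_intCast]; exact q2
    · apply RingOfIntegers.coe_injective
      exact e4
    · apply RingOfIntegers.coe_injective
      exact e2
  have f3 : Rt (σ * τ) σ ((d0 * d1 : ℕ) : ℤ) t3 := by
    refine ⟨?_, ?_, ?_, h2⟩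
    · apply RingOfIntegers.coe_injective
      rw [map_mul, map_intCast]; exact q3
    · apply RingOfIntegers.coe_injective
      change σ (τ (s1 * s2 / (d2 : K))) = s1 * s2 / (d2 : K)
      rw [map_div₀, map_mul, e3, e4, map_natCast, map_div₀, map_mul, map_neg, e1, e2, map_natCast]
      ring
    · apply RingOfIntegers.coe_injective
      change σ (s1 * s2 / (d2 : K)) = - (s1 * s2 / (d2 : K))
      rw [map_div₀, map_mul, e1, e2, map_natCast]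
      ring
  have hreal : Nonempty (K →+* ℝ) := exists_real_emb (exists_real v0 f1 f2 f3 (by exact_mod_cast (by omega : 0 < d1 * d2))
    (by exact_mod_cast (by omega : 0 < d0 * d2)))
  refine ⟨K, i1, i2, i3, e, ⟨![σ, τ, σ * τ], ![τ, σ, σ], ![((d1 * d2 : ℕ) : ℤ), ((d0 * d2 : ℕ) : ℤ),
    ((d0 * d1 : ℕ) : ℤ)], ![t1, t2, t3], ?_, ?_, v0, rfl, ?_, (d0 * d1 * d2 : ℕ), ?_⟩, rfl, rfl, rfl, rfl, rfl, hreal⟩
  · intro i
    fin_cases i
    · exact v0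
    · exact v0.symm
    · exact v0.right.symm
  · intro i
    fin_cases i
    · exact f1
    · exact f2
    · exact f3
  · intro i
    fin_cases i
    · exact ⟨1, f2.ft⟩
    · exact ⟨0, f1.ft⟩
    · exact ⟨0, rho_neg v0 f1⟩
  · change ((d1 * d2 : ℕ) : ℤ) * ((d0 * d2 : ℕ) : ℤ) * ((d0 * d1 : ℕ) : ℤ) = ((d0 * d1 * d2 : ℕ) : ℤ) ^ 2
    push_cast; ring

variable {K : Type} [Field K] [NumberField K] [IsGalois ℚ K]

theorem Bi.norm (B : Bi K) (x : ClassGroup (𝓞 K)) :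
    x * ca (B.g 0) x * ca (B.g 1) x * ca (B.g 2) x = 1 := by
  rw [B.g2]; exact norm_cl B.v0 x

/-- the linear conditions on the components of a 2-torsion class -/
theorem Bi.upperV (B : Bi K) {n : ℕ} (R : Ram K n)
    (hram : ∀ q : ℕ, q.Prime → (∀ i, q ≠ R.p i) → ∀ i, ¬ (q : ℤ) ∣ B.D i ∧ (q = 2 → B.D i % 4 = 1))
    {p3 : ℕ} {i3 : Fin 3} (hp3 : p3.Prime) (hp32 : p3 ≠ 2) (hp3D : (p3 : ℤ) ∣ B.D i3)
    (hp31 : lg p3 (-1) = 1) {v : Fin 5 → (Fin n → ZMod 2)}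
    (hex : ∀ e : Fin n → ZMod 2, R.G e = 1 → ∃ c : Fin 5 → ZMod 2, e = ∑ l, c l • v l)
    {x : ClassGroup (𝓞 K)} (hx : x ^ 2 = 1) :
    ∃ (E : Fin 3 → Fin n → ZMod 2) (ε : Fin 3 → ZMod 2) (ν : Fin 5 → ZMod 2),
      (∀ i, x * ca (B.g i) x = R.G (E i)) ∧
      (∀ i q, R.p q ≠ 2 → ¬ (R.p q : ℤ) ∣ B.D i → E i q = 0) ∧
      (∀ i q, R.p q = 2 → B.D i % 4 = 1 → E i q = 0) ∧
      (∀ q, E 0 q + E 1 q + E 2 q = ∑ l, ν l * v l q) ∧
      (∀ (p : ℕ) (i j k : Fin 3), p.Prime → p ≠ 2 →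
        (i = 0 ∧ j = 1 ∧ k = 2 ∨ i = 1 ∧ j = 0 ∧ k = 2 ∨ i = 2 ∧ j = 0 ∧ k = 1) →
        ¬ (p : ℤ) ∣ B.D i → (p : ℤ) ∣ B.D j → (p : ℤ) ∣ B.D k →
        ∑ i, (ε i * chi p (B.D i) (-1) + ∑ q, E i q * chi p (B.D i) (R.p q : ℤ)) = 0) := by
  obtain ⟨I, hI, rfl⟩ := cl_surj x
  have h1 : cl (I * I) (mul_ne_zero hI hI) = 1 := by rw [cl_mul _ _ hI hI, ← sq, hx]
  obtain ⟨α, hα, h2⟩ := (cl_eq_one_iff _ _).1 h1
  have hsq : I ^ 2 = span {α} := by rw [sq, h2]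
  have hN := norm_pos_of (B.hv i3) (B.rt i3) hI hsq hp3 hp32 hp3D hp31
  have hside := fun i => side (B.hv i) (B.rt i) R hI hα hsq hN (fun q hq hh => hram q hq hh i)
  choose r hr m t b hm hrm h4m hev hcl using hside
  have hexp : ∀ i, ∃ ε : ZMod 2, ∀ (p : ℕ) (D : ℤ), p.Prime → chi p D (r i) = ε * chi p D (-1) +
      ∑ q, ((padicValRat (R.p q) (r i : ℚ) : ℤ) : ZMod 2) * chi p D (R.p q : ℤ) := by
    intro i
    apply R.chi_expand (hr i)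
    intro q hq hh
    obtain ⟨h3, h4⟩ := hram q hq hh i
    apply hev i q hq
    by_cases h5 : q = 2
    · right; exact ⟨h5, h4 h5⟩
    · left; exact ⟨h5, h3⟩
  choose ε hε using hexp
  set E : Fin 3 → Fin n → ZMod 2 := fun i => R.par (Units.mk0 (r i : ℚ) (by exact_mod_cast hr i)) with hE
  have hG : ∀ i, cl I hI * ca (B.g i) (cl I hI) = R.G (E i) := by
    intro i
    rw [hE]
    simp only
    rw [← hcl i, cl_mul _ _ hI (ia_ne_bot _ hI), ca_cl]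
  have hsum : R.G (E 0 + E 1 + E 2) = 1 := by
    rw [R.G_add, R.G_add, ← hG, ← hG, ← hG]
    have h3 := B.norm (cl I hI)
    calc _ = (cl I hI) ^ 2 * (cl I hI * ca (B.g 0) (cl I hI) * ca (B.g 1) (cl I hI) * ca (B.g 2) (cl I hI)) := by
          rw [sq]
          simp only [mul_assoc, mul_left_comm]
      _ = 1 := by rw [hx, h3, mul_one]
  obtain ⟨ν, hν⟩ := hex _ hsum
  refine ⟨E, ε, ν, hG, ?_, ?_, ?_, ?_⟩
  · intro i q h3 h4
    have := hev i (R.p q) (R.hp q) (Or.inl ⟨h3, h4⟩)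
    rw [Ram.even_iff_par] at this
    exact this
  · intro i q h3 h4
    have := hev i (R.p q) (R.hp q) (Or.inr ⟨h3, h4⟩)
    rw [Ram.even_iff_par] at this
    exact this
  · intro q
    have := congrFun hν q
    simpa [Finset.sum_apply] using this
  · intro p i j k hp hp2 hijk n1 n2 n3
    have hchi : ∀ i, chi p (B.D i) (r i) = chi p (B.D i) (absNorm I : ℤ) := by
      intro i
      rw [hrm i, chi_mul hp _ (absNorm_ne hI) (hm i), chi_norm hp hp2 (B.rt i).sf (hm i) (h4m i), add_zero]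
    have hA : chi p (B.D 0) (absNorm I : ℤ) + chi p (B.D 1) (absNorm I : ℤ) + chi p (B.D 2) (absNorm I : ℤ) = 0 := by
      rcases hijk with ⟨rfl, rfl, rfl⟩ | ⟨rfl, rfl, rfl⟩ | ⟨rfl, rfl, rfl⟩
      · exact chi_A hp n1 n2 n3 (B.rt _).sf (B.rt _).sf B.hc _
      · have := chi_A hp n1 n2 n3 (B.rt _).sf (B.rt _).sf (c := B.c) (by rw [← B.hc]; ring) (absNorm I : ℤ)
        rw [← this]; ring
      · have := chi_A hp n1 n2 n3 (B.rt _).sf (B.rt _).sf (c := B.c) (by rw [← B.hc]; ring) (absNorm I : ℤ)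
        rw [← this]; ring
    have h5 : ∀ i, ε i * chi p (B.D i) (-1) + ∑ q, E i q * chi p (B.D i) (R.p q : ℤ) =
        chi p (B.D i) (absNorm I : ℤ) := by
      intro i
      rw [← hchi i, hε i p (B.D i) hp]
      rfl
    rw [Fin.sum_univ_three, h5, h5, h5]
    exact hA

end Pool.Agent.H471R2
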