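import Mathlib
set_option autoImplicit false
set_option linter.all false

namespace Pool.Agent.H471R2.Ck

/-- conjunction over `i < k` -/
noncomputable def al (f : ℕ → Bool) (k : ℕ) : Bool :=
  Nat.rec (motive := fun _ => Bool) true (fun k ih => cond (f k) ih false) k

theorem al_zero (f : ℕ → Bool) : al f 0 = true := rfl
theorem al_succ (f : ℕ → Bool) (k : ℕ) : al f (k + 1) = cond (f k) (al f k) false := rfl

theorem al_true {f : ℕ → Bool} {k : ℕ} (h : al f k = true) : ∀ i, i < k → f i = true := by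
  induction k with
  | zero => intro i hi; exact absurd hi (Nat.not_lt_zero i)
  | succ k ih =>
    rw [al_succ] at h
    cases hf : f k with
    | false => rw [hf] at h; exact absurd (show false = true from h) (by decide)
    | true =>
      rw [hf] at h
      intro i hi
      rcases Nat.lt_succ_iff_lt_or_eq.1 hi with h1 | h1
      · exact ih h i h1
      · rw [h1]; exact hf

/-- xor of `f j` over `j < k` with `c j` -/
noncomputable def xs (c : ℕ → Bool) (f : ℕ → ℕ) (k : ℕ) : ℕ :=
  Nat.rec (motive := fun _ => ℕ) 0 (fun k ih => cond (c k) (Nat.xor ih (f k)) ih) k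

theorem xs_zero (c : ℕ → Bool) (f : ℕ → ℕ) : xs c f 0 = 0 := rfl
theorem xs_succ (c : ℕ → Bool) (f : ℕ → ℕ) (k : ℕ) :
    xs c f (k + 1) = cond (c k) (Nat.xor (xs c f k) (f k)) (xs c f k) := rfl

/-- parity -/
noncomputable def px (f : ℕ → Bool) (k : ℕ) : Bool :=
  Nat.rec (motive := fun _ => Bool) false (fun k ih => Bool.xor ih (f k)) k

theorem px_zero (f : ℕ → Bool) : px f 0 = false := rfl
theorem px_succ (f : ℕ → Bool) (k : ℕ) : px f (k + 1) = Bool.xor (px f k) (f k) := rfl

/-- bit -/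
def tb (m i : ℕ) : Bool := Nat.beq (Nat.land (Nat.shiftRight m i) 1) 1

theorem tb_eq (m i : ℕ) : tb m i = m.testBit i := by
  have h : Nat.land (Nat.shiftRight m i) 1 = (m >>> i) % 2 := Nat.and_one_is_mod _
  unfold tb
  rw [h, Nat.testBit_eq_decide_div_mod_eq, Nat.shiftRight_eq_div_pow, Bool.eq_iff_iff, Nat.beq_eq,
    decide_eq_true_iff]

/-- product of primes over a mask -/
noncomputable def pm (p : ℕ → ℕ) (m : ℕ) (k : ℕ) : ℕ :=
  Nat.rec (motive := fun _ => ℕ) 1 (fun k ih => cond (tb m k) (Nat.mul ih (p k)) ih) k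

theorem pm_zero (p : ℕ → ℕ) (m : ℕ) : pm p m 0 = 1 := rfl
theorem pm_succ (p : ℕ → ℕ) (m : ℕ) (k : ℕ) :
    pm p m (k + 1) = cond (tb m k) (Nat.mul (pm p m k) (p k)) (pm p m k) := rfl

/-- trial division -/
noncomputable def pr (l B : ℕ) : Bool :=
  (Nat.ble 2 l && Nat.blt l (Nat.mul B B)) && al (fun k => Nat.blt k 2 || (Nat.ble l k || Nat.blt 0 (Nat.mod l k))) B

theorem pr_prime {l B : ℕ} (h : pr l B = true) : l.Prime := by
  unfold pr at h
  rw [Bool.and_eq_true, Bool.and_eq_true] at h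
  obtain ⟨⟨h1, h2⟩, h3⟩ := h
  have h1' : 2 ≤ l := Nat.le_of_ble_eq_true h1
  have h2' : l < B * B := Nat.lt_of_succ_le (Nat.le_of_ble_eq_true h2)
  by_contra hnp
  have hm := Nat.minFac_sq_le_self (by omega : 0 < l) hnp
  have hmp := Nat.minFac_prime (by omega : l ≠ 1)
  have hlt : l.minFac < B := by
    by_contra h4
    push Not at h4
    have : B * B ≤ l.minFac ^ 2 := by rw [sq]; exact Nat.mul_le_mul h4 h4
    omega
  have h5 := al_true h3 _ hlt
  rw [Bool.or_eq_true, Bool.or_eq_true] at h5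
  rcases h5 with h6 | h6 | h6
  · have := Nat.le_of_ble_eq_true h6
    have := hmp.two_le
    omega
  · have h7 : l ≤ l.minFac := Nat.le_of_ble_eq_true h6
    have h8 := hmp.two_le
    nlinarith
  · have h7 : 0 < l % l.minFac := Nat.lt_of_succ_le (Nat.le_of_ble_eq_true h6)
    have h8 := Nat.mod_eq_zero_of_dvd (Nat.minFac_dvd l)
    omega

/-- value in `F₂` -/
def bz (b : Bool) : ZMod 2 := cond b 1 0

theorem bz_xor (a b : Bool) : bz (Bool.xor a b) = bz a + bz b := by
  cases a <;> cases b <;> rfl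

theorem bz_and (a b : Bool) : bz (a && b) = bz a * bz b := by
  cases a <;> cases b <;> rfl

theorem bz_inj {a b : Bool} (h : bz a = bz b) : a = b := by
  revert h; cases a <;> cases b <;> decide

/-- bit value -/
def mb (m i : ℕ) : ZMod 2 := bz (tb m i)

theorem mb_xor (a b i : ℕ) : mb (Nat.xor a b) i = mb a i + mb b i := by
  unfold mb
  rw [tb_eq, tb_eq, tb_eq]
  have : (Nat.xor a b).testBit i = Bool.xor (a.testBit i) (b.testBit i) := Nat.testBit_xor a b i
  rw [this, bz_xor]

theorem mb_and (a b i : ℕ) : mb (Nat.land a b) i = mb a i * mb b i := by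
  unfold mb
  rw [tb_eq, tb_eq, tb_eq]
  have : (Nat.land a b).testBit i = (a.testBit i && b.testBit i) := Nat.testBit_and a b i
  rw [this, bz_and]

theorem mb_zero (i : ℕ) : mb 0 i = 0 := by
  unfold mb; rw [tb_eq, Nat.zero_testBit]; rfl

theorem mb_pow (m i : ℕ) : mb (Nat.pow 2 m) i = if m = i then 1 else 0 := by
  unfold mb
  rw [tb_eq]
  have : (Nat.pow 2 m).testBit i = decide (m = i) := Nat.testBit_two_pow
  rw [this]
  by_cases h : m = i <;> simp [h, bz]

theorem mb_xs (c : ℕ → Bool) (f : ℕ → ℕ) (k i : ℕ) :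
    mb (xs c f k) i = ∑ j ∈ Finset.range k, bz (c j) * mb (f j) i := by
  induction k with
  | zero => rw [xs_zero, mb_zero]; simp
  | succ k ih =>
    rw [xs_succ, Finset.sum_range_succ, ← ih]
    cases c k with
    | false => simp [bz]
    | true => rw [cond_true, mb_xor]; simp [bz]

/-- the vector of a mask -/
def vec (n m : ℕ) : Fin n → ZMod 2 := fun q => mb m q

theorem vec_xor (n a b : ℕ) : vec n (Nat.xor a b) = vec n a + vec n b := by
  funext q; exact mb_xor a b q

theorem vec_xs (n : ℕ) (c : ℕ → Bool) (f : ℕ → ℕ) (k : ℕ) :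
    vec n (xs c f k) = ∑ j : Fin k, bz (c j) • vec n (f j) := by
  funext q
  rw [Finset.sum_apply]
  simp only [Pi.smul_apply, smul_eq_mul, vec]
  rw [mb_xs, Finset.sum_range]

/-- dot product of masks -/
noncomputable def dot (n a b : ℕ) : Bool := px (fun i => tb (Nat.land a b) i) n

theorem bz_dot (n a b : ℕ) : bz (dot n a b) = ∑ q : Fin n, vec n a q * vec n b q := by
  unfold dot
  have h : ∀ k, bz (px (fun i => tb (Nat.land a b) i) k) = ∑ q ∈ Finset.range k, mb a q * mb b q := by
    intro k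
    induction k with
    | zero => rw [px_zero]; simp [bz]
    | succ k ih =>
      rw [px_succ, bz_xor, ih, Finset.sum_range_succ]
      congr 1
      exact mb_and a b k
  rw [h, Finset.sum_range]
  rfl

/-- value of a linear form -/
def ev (X : ℕ → ZMod 2) (k m : ℕ) : ZMod 2 := ∑ t ∈ Finset.range k, mb m t * X t

theorem ev_xor (X : ℕ → ZMod 2) (k a b : ℕ) : ev X k (Nat.xor a b) = ev X k a + ev X k b := by
  unfold ev
  rw [← Finset.sum_add_distrib]
  apply Finset.sum_congr rfl
  intro t _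
  rw [mb_xor, add_mul]

theorem ev_xs (X : ℕ → ZMod 2) (K : ℕ) (c : ℕ → Bool) (f : ℕ → ℕ) (k : ℕ) :
    ev X K (xs c f k) = ∑ j ∈ Finset.range k, bz (c j) * ev X K (f j) := by
  unfold ev
  simp only [mb_xs, Finset.sum_mul, Finset.mul_sum]
  rw [Finset.sum_comm]
  apply Finset.sum_congr rfl
  intro j _
  apply Finset.sum_congr rfl
  intro t _
  rw [mul_assoc]

theorem ev_pow (X : ℕ → ZMod 2) {k m : ℕ} (h : m < k) : ev X k (Nat.pow 2 m) = X m := by
  unfold ev
  rw [Finset.sum_eq_single m]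
  · rw [mb_pow, if_pos rfl, one_mul]
  · intro t _ ht
    rw [mb_pow, if_neg (Ne.symm ht), zero_mul]
  · intro h1
    exact absurd (Finset.mem_range.2 h) h1

theorem ev_and (X : ℕ → ZMod 2) {k m a : ℕ} (ha : ∀ t < k, tb a t = false → X t = 0)
    (h : Nat.land m a = 0) : ev X k m = 0 := by
  unfold ev
  apply Finset.sum_eq_zero
  intro t ht
  have h1 := mb_and m a t
  rw [h, mb_zero] at h1
  cases h2 : tb a t with
  | false => rw [ha t (Finset.mem_range.1 ht) h2, mul_zero]
  | true =>
    have h3 : mb a t = 1 := by unfold mb; rw [h2]; rfl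
    rw [h3, mul_one] at h1
    rw [← h1, zero_mul]

end Pool.Agent.H471R2.Ck
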