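import Pool.Agent.H471R2.Ex.Abs
set_option autoImplicit false
set_option linter.all false
open NumberField Ideal nonZeroDivisors

namespace Pool.Agent.H471R2

variable {K : Type} [Field K] [NumberField K] [IsGalois ℚ K]

/-- the 2-torsion -/
def T2 (K : Type) [Field K] [NumberField K] : Subgroup (ClassGroup (𝓞 K)) where
  carrier := {x | x ^ 2 = 1}
  one_mem' := one_pow 2
  mul_mem' := by
    intro a b ha hb
    change (a * b) ^ 2 = 1
    rw [mul_pow]
    change a ^ 2 = 1 at ha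
    change b ^ 2 = 1 at hb
    rw [ha, hb, mul_one]
  inv_mem' := by
    intro a ha
    change (a⁻¹) ^ 2 = 1
    change a ^ 2 = 1 at ha
    rw [inv_pow, ha, inv_one]

abbrev VT (K : Type) [Field K] [NumberField K] := Additive (T2 K)

theorem VT_two (x : VT K) : (2 : ℕ) • x = 0 := by
  change Additive.ofMul ((Additive.toMul x) ^ 2) = 0
  have : (Additive.toMul x) ^ 2 = 1 := Subtype.ext (Additive.toMul x).2
  rw [this]; rfl

noncomputable instance instVT : Module (ZMod 2) (VT K) := AddCommGroup.zmodModule VT_two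

/-- build an element -/
noncomputable def mkV (x : ClassGroup (𝓞 K)) (h : x ^ 2 = 1) : VT K := Additive.ofMul ⟨x, h⟩

/-- underlying class -/
noncomputable def unV (x : VT K) : ClassGroup (𝓞 K) := (Additive.toMul x).1

theorem unV_mkV (x : ClassGroup (𝓞 K)) (h : x ^ 2 = 1) : unV (mkV x h) = x := rfl
theorem unV_sq (x : VT K) : unV x ^ 2 = 1 := (Additive.toMul x).2
theorem unV_add (x y : VT K) : unV (x + y) = unV x * unV y := rfl
theorem unV_zero : unV (0 : VT K) = 1 := rfl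
theorem mkV_unV (x : VT K) (h : unV x ^ 2 = 1) : mkV (unV x) h = x := rfl
theorem unV_inj {x y : VT K} (h : unV x = unV y) : x = y := Subtype.ext h

/-- the operator `x ↦ x · σ x` -/
noncomputable def opV (g : K ≃ₐ[ℚ] K) : VT K →ₗ[ZMod 2] VT K :=
  AddMonoidHom.toZModLinearMap 2 (AddMonoidHom.mk' (fun x => mkV (unV x * ca g (unV x)) (by
    rw [mul_pow, ← map_pow, unV_sq, map_one, mul_one])) (by
      intro a b
      apply unV_inj
      rw [unV_mkV, unV_add, unV_add, unV_mkV, unV_mkV, map_mul]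
      exact mul_mul_mul_comm _ _ _ _))

theorem opV_apply (g : K ≃ₐ[ℚ] K) (x : VT K) : unV (opV g x) = unV x * ca g (unV x) := rfl

/-- the ambiguous classes -/
noncomputable def Ram.GV {n : ℕ} (R : Ram K n) : (Fin n → ZMod 2) →ₗ[ZMod 2] VT K :=
  AddMonoidHom.toZModLinearMap 2 (AddMonoidHom.mk' (fun e => mkV (R.G e) (R.G_sq e)) (by
    intro a b
    apply unV_inj
    rw [unV_mkV, unV_add, unV_mkV, unV_mkV, R.G_add]))

theorem Ram.GV_apply {n : ℕ} (R : Ram K n) (e : Fin n → ZMod 2) : unV (R.GV e) = R.G e := rfl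

theorem Ram.ph_int {n : ℕ} (R : Ram K n) (e : Fin n → ZMod 2) : ∃ N : ℤ, N ≠ 0 ∧ (R.ph e : ℚ) = (N : ℚ) := by
  refine ⟨∏ i, (R.p i : ℤ) ^ (e i).val, ?_, ?_⟩
  · apply Finset.prod_ne_zero_iff.2
    intro i _
    exact pow_ne_zero _ (by exact_mod_cast (R.hp i).ne_zero)
  · unfold Ram.ph
    push_cast
    rfl

theorem Ram.ca_G {n : ℕ} (R : Ram K n) (g : K ≃ₐ[ℚ] K) (e : Fin n → ZMod 2) : ca g (R.G e) = R.G e := by
  obtain ⟨a, ha, I, hI, h⟩ := FI_exists_int (R.jh e)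
  obtain ⟨N, hN0, hN⟩ := R.ph_int e
  have hNK : ((N : ℤ) : 𝓞 K) ≠ 0 := by exact_mod_cast hN0
  have ha2 : (span {a} : Ideal (𝓞 K)) ^ 2 ≠ ⊥ := pow_ne_zero 2 (span_ne_bot ha)
  have hI2 : I ^ 2 ≠ ⊥ := pow_ne_zero 2 hI
  have h1 : toFI (span {a} ^ 2 * span {((N : ℤ) : 𝓞 K)}) (mul_ne_zero ha2 (span_ne_bot hNK)) = toFI (I ^ 2) hI2 := by
    rw [toFI_mul _ _ ha2 (span_ne_bot hNK), toFI_sq _ (span_ne_bot ha) ha2, toFI_sq _ hI hI2, ← h, mul_pow, R.jh_sq,
      toFI_span_int hN0]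
    congr 2
    apply Units.ext
    rw [Units.val_mk0, hN]
  have h2 := toFI_inj h1
  have h3 : (span {ra g a} : Ideal (𝓞 K)) ^ 2 * span {((N : ℤ) : 𝓞 K)} = (ia g I) ^ 2 := by
    rw [← ia_pow, ← h2, ia_mul, ia_pow, ia_span, ia_int]
  have hga : ra g a ≠ 0 := by
    rw [Ne, map_eq_zero_iff (ra g) (ra g).injective]; exact ha
  have h4 : I * span {ra g a} = ia g I * span {a} := by
    apply ideal_sq_inj
    rw [mul_pow, mul_pow, ← h2, ← h3]; ring
  have h5 : R.G e = cl I hI := by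
    have := congrArg (ClassGroup.mk K) h
    rw [map_mul, mk_toFI, mk_toFI, cl_span ha, one_mul] at this
    exact this
  rw [h5, ca_cl]
  have h6 := cl_congr2 h4 (mul_ne_zero hI (span_ne_bot hga)) (mul_ne_zero (ia_ne_bot g hI) (span_ne_bot ha))
  rw [cl_mul _ _ hI (span_ne_bot hga), cl_mul _ _ (ia_ne_bot g hI) (span_ne_bot ha), cl_span hga,
    cl_span ha, mul_one, mul_one] at h6
  exact h6.symm

theorem summand_of (e : V22 ≃* (K ≃ₐ[ℚ] K)) {n t s : ℕ} (R : Ram K n) {v : Fin 5 → (Fin n → ZMod 2)}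
    (hex : ∀ e : Fin n → ZMod 2, R.G e = 1 → ∃ c : Fin 5 → ZMod 2, e = ∑ l, c l • v l)
    (x : Fin t → ClassGroup (𝓞 K)) (hx2 : ∀ j, x j ^ 2 = 1) (r0 r1 : Fin t → (Fin n → ZMod 2))
    (hr0 : ∀ j, x j * ca (e gs) (x j) = R.G (r0 j)) (hr1 : ∀ j, x j * ca (e gt) (x j) = R.G (r1 j))
    (w : Fin s → (Fin n → ZMod 2)) (φ : (Fin n → ZMod 2) →ₗ[ZMod 2] (Fin s → ZMod 2))
    (ψ0 ψ1 : (Fin n → ZMod 2) →ₗ[ZMod 2] (Fin t → ZMod 2))
    (hφv : ∀ l, φ (v l) = 0) (hψ0v : ∀ l, ψ0 (v l) = 0) (hψ1v : ∀ l, ψ1 (v l) = 0)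
    (hψr : ∀ j, ψ0 (r0 j) + ψ1 (r1 j) = Pi.single j 1) (hφw : ∀ k, φ (w k) = Pi.single k 1)
    (A B : (Fin t → ZMod 2) →ₗ[ZMod 2] (Fin s → ZMod 2))
    (hA : ∀ j, R.G (r0 j) = R.G (∑ k, A (Pi.single j 1) k • w k))
    (hB : ∀ j, R.G (r1 j) = R.G (∑ k, B (Pi.single j 1) k • w k))
    (hU : ∀ x : ClassGroup (𝓞 K), x ^ 2 = 1 → ∃ E0 E1, x * ca (e gs) x = R.G E0 ∧
      x * ca (e gt) x = R.G E1 ∧ φ E0 = A (ψ0 E0 + ψ1 E1) ∧ φ E1 = B (ψ0 E0 + ψ1 E1)) :
    IsSummand K e (kron A B) := by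
  classical
  have hkill : ∀ {W : Type} [AddCommGroup W] [Module (ZMod 2) W] (f : (Fin n → ZMod 2) →ₗ[ZMod 2] W),
      (∀ l, f (v l) = 0) → ∀ E, R.G E = 1 → f E = 0 := by
    intro W _ _ f hf E hE
    obtain ⟨c, hc⟩ := hex E hE
    rw [hc, map_sum]
    apply Finset.sum_eq_zero
    intro l _
    rw [map_smul, hf, smul_zero]
  have hkill2 : ∀ {W : Type} [AddCommGroup W] [Module (ZMod 2) W] (f : (Fin n → ZMod 2) →ₗ[ZMod 2] W),
      (∀ l, f (v l) = 0) → ∀ E E', R.G E = R.G E' → f E = f E' := by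
    intro W _ _ f hf E E' hE
    have h1 : R.G (E + E') = 1 := by
      rw [R.G_add, hE, ← sq, R.G_sq]
    have h2 := hkill f hf _ h1
    rw [map_add] at h2
    have h3 : f E' + f E' = 0 := by rw [← two_smul (ZMod 2)]; simp [show (2 : ZMod 2) = 0 from rfl]
    calc f E = f E + (f E' + f E') := by rw [h3, add_zero]
      _ = (f E + f E') + f E' := by abel
      _ = f E' := by rw [h2, zero_add]
  choose E0 E1 hE0 hE1 hφ0 hφ1 using hU
  have hE0' : ∀ x y hx hy hxy, R.G (E0 (x * y) hxy) = R.G (E0 x hx + E0 y hy) := by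
    intro x y hx hy hxy
    rw [R.G_add, ← hE0, ← hE0, ← hE0, map_mul]
    exact mul_mul_mul_comm _ _ _ _
  have hE1' : ∀ x y hx hy hxy, R.G (E1 (x * y) hxy) = R.G (E1 x hx + E1 y hy) := by
    intro x y hx hy hxy
    rw [R.G_add, ← hE1, ← hE1, ← hE1, map_mul]
    exact mul_mul_mul_comm _ _ _ _
  let PT : VT K →ₗ[ZMod 2] (Fin t → ZMod 2) := AddMonoidHom.toZModLinearMap 2 (AddMonoidHom.mk'
    (fun x => ψ0 (E0 (unV x) (unV_sq x)) + ψ1 (E1 (unV x) (unV_sq x))) (by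
      intro a b
      have h1 := hkill2 ψ0 hψ0v _ _ (hE0' (unV a) (unV b) (unV_sq a) (unV_sq b) (unV_sq (a + b)))
      have h2 := hkill2 ψ1 hψ1v _ _ (hE1' (unV a) (unV b) (unV_sq a) (unV_sq b) (unV_sq (a + b)))
      change ψ0 (E0 (unV a * unV b) _) + ψ1 (E1 (unV a * unV b) _) = _
      rw [h1, h2, map_add, map_add]
      abel))
  have hPT : ∀ x, PT x = ψ0 (E0 (unV x) (unV_sq x)) + ψ1 (E1 (unV x) (unV_sq x)) := fun x => rfl
  have hPTx : ∀ (x : VT K) F0 F1, unV x * ca (e gs) (unV x) = R.G F0 → unV x * ca (e gt) (unV x) = R.G F1 →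
      PT x = ψ0 F0 + ψ1 F1 := by
    intro x F0 F1 h0 h1
    rw [hPT, hkill2 ψ0 hψ0v _ F0 ((hE0 _ _).symm.trans h0), hkill2 ψ1 hψ1v _ F1 ((hE1 _ _).symm.trans h1)]
  have hfix : ∀ (g : K ≃ₐ[ℚ] K) (E : Fin n → ZMod 2), R.G E * ca g (R.G E) = R.G 0 := by
    intro g E
    rw [R.ca_G, ← sq, R.G_sq, R.G_zero]
  have hopG : ∀ (g : K ≃ₐ[ℚ] K) (E : Fin n → ZMod 2), opV g (R.GV E) = 0 := by
    intro g E
    apply unV_inj
    rw [opV_apply, R.GV_apply, hfix, R.G_zero, unV_zero]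
  obtain ⟨i, p, hpi, i0, i1, p0, p1⟩ := abs_summand (opV (e gs)) (opV (e gt)) R.GV φ (by
      intro E hE
      rw [LinearMap.mem_ker] at hE ⊢
      apply hkill φ hφv
      have := congrArg unV hE
      exact this) PT (by
      intro E
      rw [hPTx (R.GV E) 0 0 (hfix _ _) (hfix _ _), map_zero, map_zero, add_zero])
    (fun j => mkV (x j) (hx2 j)) (by
      intro j
      rw [hPTx (mkV (x j) (hx2 j)) (r0 j) (r1 j) (hr0 j) (hr1 j)]
      exact hψr j) w hφw A B (by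
      intro j
      apply unV_inj
      rw [opV_apply, R.GV_apply, ← hA]
      exact hr0 j) (by
      intro j
      apply unV_inj
      rw [opV_apply, R.GV_apply, ← hB]
      exact hr1 j) (hopG _) (hopG _) (by
      intro z
      refine ⟨E0 (unV z) (unV_sq z), ?_, hφ0 _ _⟩
      apply unV_inj
      rw [opV_apply, R.GV_apply]
      exact hE0 _ _) (by
      intro z
      refine ⟨E1 (unV z) (unV_sq z), ?_, hφ1 _ _⟩
      apply unV_inj
      rw [opV_apply, R.GV_apply]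
      exact hE1 _ _)
  -- action
  have hac : ∀ (g : K ≃ₐ[ℚ] K) (z : VT K), unV (z + opV g z) = ca g (unV z) := by
    intro g z
    rw [unV_add, opV_apply, ← mul_assoc, ← sq, unV_sq, one_mul]
  have hks : ∀ m, kron A B gs m = m + Kr.op A m := by
    rintro ⟨u, y⟩
    rw [kron_apply, Kr.op_apply]
    refine Prod.ext ?_ ?_
    · simp
    · simp [gs]
  have hkt : ∀ m, kron A B gt m = m + Kr.op B m := by
    rintro ⟨u, y⟩
    rw [kron_apply, Kr.op_apply]
    refine Prod.ext ?_ ?_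
    · simp
    · simp [gt]
  have is : ∀ m, unV (i (kron A B gs m)) = ca (e gs) (unV (i m)) := by
    intro m
    rw [hks, map_add, i0, hac]
  have it : ∀ m, unV (i (kron A B gt m)) = ca (e gt) (unV (i m)) := by
    intro m
    rw [hkt, map_add, i1, hac]
  have ps : ∀ z : VT K, p (z + opV (e gs) z) = kron A B gs (p z) := by
    intro z
    rw [map_add, p0, hks]
  have pt : ∀ z : VT K, p (z + opV (e gt) z) = kron A B gt (p z) := by
    intro z
    rw [map_add, p1, hkt]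
  have hca2 : ∀ (g : K ≃ₐ[ℚ] K) (y : ClassGroup (𝓞 K)), y ^ 2 = 1 → (ca g y) ^ 2 = 1 := by
    intro g y hy
    rw [← map_pow, hy, map_one]
  have hcaone : ∀ y : ClassGroup (𝓞 K), galCl (1 : K ≃ₐ[ℚ] K) y = y := by
    intro y
    obtain ⟨I, hI, rfl⟩ := cl_surj y
    rw [galCl_eq, ca_cl]
    exact cl_congr2 (ia_one I) _ _
  have hcamul : ∀ (g h : K ≃ₐ[ℚ] K) (y : ClassGroup (𝓞 K)), galCl (g * h) y = galCl g (galCl h y) := by
    intro g h y
    obtain ⟨I, hI, rfl⟩ := cl_surj y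
    rw [galCl_eq, galCl_eq, galCl_eq, ca_cl, ca_cl, ca_cl]
    exact cl_congr2 (ia_ia g h I).symm _ _
  refine ⟨fun m => unV (i m), fun y => if h : y ^ 2 = 1 then p (mkV y h) else 0, ?_, ?_, ?_, ?_, ?_, ?_⟩
  · intro a b
    change unV (i (a + b)) = _
    rw [map_add, unV_add]
  · intro m
    exact unV_sq _
  · intro g m
    change unV (i (kron A B g m)) = galCl (e g) (unV (i m))
    rcases V22_all g with rfl | rfl | rfl | rfl
    · rw [map_one, map_one, hcaone]; rfl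
    · exact is m
    · exact it m
    · rw [map_mul (kron A B), map_mul e, hcamul, Module.End.mul_apply, is, it]
      rfl
  · intro a b ha hb
    simp only
    have hab : (a * b) ^ 2 = 1 := by rw [mul_pow, ha, hb, mul_one]
    rw [dif_pos ha, dif_pos hb, dif_pos hab, ← map_add]
    rfl
  · intro g y hy
    simp only
    have hs : ∀ (y : ClassGroup (𝓞 K)) (hy : y ^ 2 = 1) (h' : (ca (e gs) y) ^ 2 = 1),
        p (mkV (ca (e gs) y) h') = kron A B gs (p (mkV y hy)) := by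
      intro y hy h'
      rw [← ps]
      congr 1
      apply unV_inj
      rw [hac, unV_mkV, unV_mkV]
    have ht : ∀ (y : ClassGroup (𝓞 K)) (hy : y ^ 2 = 1) (h' : (ca (e gt) y) ^ 2 = 1),
        p (mkV (ca (e gt) y) h') = kron A B gt (p (mkV y hy)) := by
      intro y hy h'
      rw [← pt]
      congr 1
      apply unV_inj
      rw [hac, unV_mkV, unV_mkV]
    have hgy : (galCl (e g) y) ^ 2 = 1 := hca2 _ _ hy
    rw [dif_pos hy, dif_pos hgy]
    rcases V22_all g with rfl | rfl | rfl | rfl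
    · have : mkV (galCl (e 1) y) hgy = mkV y hy := by
        apply unV_inj
        rw [unV_mkV, unV_mkV, map_one, hcaone]
      rw [this, map_one]; rfl
    · exact hs y hy hgy
    · exact ht y hy hgy
    · have h1 : mkV (galCl (e (gs * gt)) y) hgy = mkV (ca (e gs) (ca (e gt) y)) (hca2 _ _ (hca2 _ _ hy)) := by
        apply unV_inj
        rw [unV_mkV, unV_mkV, map_mul e, hcamul]; rfl
      rw [h1, hs _ (hca2 _ _ hy), ht _ hy, map_mul, Module.End.mul_apply]
  · intro m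
    simp only
    rw [dif_pos (unV_sq _)]
    exact hpi m

end Pool.Agent.H471R2
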