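import Pool.Agent.H471R2.Ex.Eul
import Pool.Agent.H471R2.Ex.Summ
set_option autoImplicit false
set_option linter.all false

namespace Pool.Agent.H471R2.Ck

/-- a certificate -/
structure Dat where
  d0 : ℕ
  d1 : ℕ
  d2 : ℕ
  n : ℕ
  B : ℕ
  B2 : ℕ
  t : ℕ
  s : ℕ
  T : ℕ
  i3 : ℕ
  q3 : ℕ
  alw : ℕ
  D : ℕ → ℕ
  ps : ℕ → ℕ
  M : ℕ → ℕ
  ri : ℕ → ℕ
  ug : ℕ → ℕ
  uh : ℕ → ℕ
  um : ℕ → ℕ
  dv : ℕ → ℕ
  ls : ℕ → ℕ
  lg : ℕ → ℕ
  lh : ℕ → ℕ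
  lm : ℕ → ℕ
  cx : ℕ → ℕ
  w : ℕ → ℕ
  ph : ℕ → ℕ
  p0 : ℕ → ℕ
  p1 : ℕ → ℕ
  cs : ℕ → ℕ
  us : ℕ → ℕ

namespace Dat
variable (d : Dat)

/-- the five relations -/
noncomputable def v (l : ℕ) : ℕ := cond (Nat.beq l 0) (d.M 0) (cond (Nat.beq l 1) (d.M 1) (d.um (Nat.sub l 2)))

/-- field data -/
noncomputable def c1 : Bool :=
  al (fun q => pr (d.ps q) d.B) d.n && (al (fun q => Nat.blt (d.ps q) (d.ps (Nat.succ q))) (Nat.pred d.n) &&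
  (Nat.beq (d.D 0) (Nat.mul d.d1 d.d2) && (Nat.beq (d.D 1) (Nat.mul d.d0 d.d2) &&
  (Nat.beq (d.D 2) (Nat.mul d.d0 d.d1) && (al (fun i => Nat.beq (d.D i) (pm d.ps (d.M i) d.n)) 3 &&
  (al (fun i => Nat.blt 1 (d.D i)) 3 && (al (fun q => Nat.blt (d.ri q) 3 &&
    (Nat.beq (Nat.mod (d.D (d.ri q)) (d.ps q)) 0 ||
      (Nat.beq (d.ps q) 2 && Nat.beq (Nat.mod (d.D (d.ri q)) 4) 3))) d.n &&
  ((Nat.beq (d.ps 0) 2 || al (fun i => Nat.beq (Nat.mod (d.D i) 4) 1) 3) && (Nat.blt 0 d.n &&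
  (Nat.blt d.q3 d.n && (Nat.blt d.i3 3 && (Nat.blt 2 (d.ps d.q3) &&
  (Nat.beq (Nat.mod (d.D d.i3) (d.ps d.q3)) 0 && eu (d.ps d.q3) (Nat.sub (d.ps d.q3) 1))))))))))))))

/-- the equations of a relation or class -/
noncomputable def rl (D g h r l : ℕ) : Bool :=
  Nat.blt 0 r && (Nat.beq (Nat.add (Nat.mul g g) (Nat.mul D (Nat.mul h h)))
    (Nat.mul (Nat.mul 2 r) (Nat.div (Nat.add (Nat.mul g g) (Nat.mul D (Nat.mul h h))) (Nat.mul 2 r))) &&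
  (Nat.beq (Nat.mul g h) (Nat.mul r (Nat.div (Nat.mul g h) r)) &&
  Nat.beq (Nat.pow (Nat.div (Nat.add (Nat.mul g g) (Nat.mul D (Nat.mul h h))) (Nat.mul 2 r)) 2)
    (Nat.add (Nat.mul D (Nat.pow (Nat.div (Nat.mul g h) r) 2)) (Nat.mul 4 (Nat.mul l l)))))

/-- relations -/
noncomputable def c2 : Bool :=
  al (fun i => rl (d.D i) (d.ug i) (d.uh i) (pm d.ps (d.um i) d.n) 1) 3 &&
  al (fun l => al (fun l' => !(Bool.xor (dot d.n (d.dv l) (d.v l')) (Nat.beq l l'))) 5) 5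

/-- membership in the span of the relations -/
noncomputable def inN (m : ℕ) : Bool := Nat.beq (xs (fun l => dot d.n (d.dv l) m) d.v 5) m

/-- classes -/
noncomputable def c3 : Bool :=
  al (fun j => pr (d.ls j) d.B2 && (Nat.blt 2 (d.ls j) &&
    (al (fun i => rl (d.D i) (d.lg (Nat.add (Nat.mul 3 j) i)) (d.lh (Nat.add (Nat.mul 3 j) i))
      (pm d.ps (d.lm (Nat.add (Nat.mul 3 j) i)) d.n) (d.ls j) &&
      Nat.blt 0 (Nat.mod (Nat.div (Nat.add (Nat.mul (d.lg (Nat.add (Nat.mul 3 j) i)) (d.lg (Nat.add (Nat.mul 3 j) i)))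
        (Nat.mul (d.D i) (Nat.mul (d.lh (Nat.add (Nat.mul 3 j) i)) (d.lh (Nat.add (Nat.mul 3 j) i)))))
        (Nat.mul 2 (pm d.ps (d.lm (Nat.add (Nat.mul 3 j) i)) d.n))) (d.ls j))) 3 &&
    d.inN (Nat.xor (Nat.xor (d.lm (Nat.add (Nat.mul 3 j) 0)) (d.lm (Nat.add (Nat.mul 3 j) 1))) (d.lm (Nat.add (Nat.mul 3 j) 2)))))) d.T

/-- components of the chosen classes -/
noncomputable def rr (i j : ℕ) : ℕ := xs (fun y => tb (d.cx j) y) (fun y => d.lm (Nat.add (Nat.mul 3 y) i)) d.T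

variable (A A' : ℕ → ℕ → Bool)

/-- duality -/
noncomputable def c4 : Bool :=
  al (fun l => al (fun k => !(dot d.n (d.ph k) (d.v l))) d.s &&
    (al (fun j => !(dot d.n (d.p0 j) (d.v l))) d.t && al (fun j => !(dot d.n (d.p1 j) (d.v l))) d.t)) 5 &&
  (al (fun j => al (fun j' => !(Bool.xor (Bool.xor (dot d.n (d.p0 j) (d.rr 0 j')) (dot d.n (d.p1 j) (d.rr 1 j')))
    (Nat.beq j j'))) d.t) d.t &&
  (al (fun k => al (fun k' => !(Bool.xor (dot d.n (d.ph k) (d.w k')) (Nat.beq k k'))) d.s) d.s &&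
  al (fun j => d.inN (Nat.xor (d.rr 0 j) (xs (fun k => A k j) d.w d.s)) &&
    d.inN (Nat.xor (d.rr 1 j) (xs (fun k => A' k j) d.w d.s))) d.t))

/-- forbidden coordinates -/
noncomputable def forb (i q : ℕ) : Bool :=
  cond (Nat.beq (d.ps q) 2) (Nat.beq (Nat.mod (d.D i) 4) 1) (Nat.blt 0 (Nat.mod (d.D i) (d.ps q)))

/-- sum constraints -/
noncomputable def cA (q : ℕ) : ℕ :=
  Nat.xor (Nat.xor (Nat.xor (Nat.pow 2 q) (Nat.pow 2 (Nat.add d.n q))) (Nat.pow 2 (Nat.add (Nat.mul 2 d.n) q)))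
    (xs (fun l => tb (d.v l) q) (fun l => Nat.pow 2 (Nat.add (Nat.add (Nat.mul 3 d.n) 3) l)) 5)

/-- symbol constraints -/
noncomputable def cS (q : ℕ) : ℕ :=
  xs (fun _ => true) (fun i => Nat.xor
    (xs (fun q' => sy (d.D i) (d.ps q) (d.ps q')) (fun q' => Nat.pow 2 (Nat.add (Nat.mul i d.n) q')) d.n)
    (xs (fun _ => sm (d.D i) (d.ps q)) (fun _ => Nat.pow 2 (Nat.add (Nat.mul 3 d.n) i)) 1)) 3

/-- the form to be shown zero -/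
noncomputable def F (i k : ℕ) (A : ℕ → ℕ → Bool) : ℕ :=
  Nat.xor (xs (fun q => tb (d.ph k) q) (fun q => Nat.pow 2 (Nat.add (Nat.mul i d.n) q)) d.n)
    (xs (fun j => A k j) (fun j => Nat.xor
      (xs (fun q => tb (d.p0 j) q) (fun q => Nat.pow 2 q) d.n)
      (xs (fun q => tb (d.p1 j) q) (fun q => Nat.pow 2 (Nat.add d.n q)) d.n)) d.t)

/-- combination of constraints -/
noncomputable def cb (u : ℕ) : ℕ :=
  xs (fun r => tb u r) (fun r => cond (Nat.blt r d.n) (d.cA r) (d.cs (Nat.sub r d.n))) (Nat.mul 2 d.n)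

/-- linear forms -/
noncomputable def c5 : Bool :=
  al (fun q => Nat.beq (d.cs q) 0 || (Nat.blt 2 (d.ps q) && Nat.beq (d.cs q) (d.cS q))) d.n &&
  (al (fun t => tb d.alw t || (Nat.blt t (Nat.mul 3 d.n) && d.forb (Nat.div t d.n) (Nat.mod t d.n)))
    (Nat.add (Nat.mul 3 d.n) 8) &&
  al (fun k => Nat.beq (Nat.land (Nat.xor (d.F 0 k A) (d.cb (d.us k))) d.alw) 0 &&
    Nat.beq (Nat.land (Nat.xor (d.F 1 k A') (d.cb (d.us (Nat.add d.s k)))) d.alw) 0) d.s)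

/-- the linear map of a matrix -/
noncomputable def ml (s t : ℕ) (A : ℕ → ℕ → Bool) : (Fin t → ZMod 2) →ₗ[ZMod 2] (Fin s → ZMod 2) :=
  Matrix.mulVecLin (Matrix.of fun k j => bz (A k j))

theorem ml_apply (s t : ℕ) (A : ℕ → ℕ → Bool) (u : Fin t → ZMod 2) (k : Fin s) :
    ml s t A u k = ∑ j : Fin t, bz (A k j) * u j := rfl

end Dat

end Pool.Agent.H471R2.Ck
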