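import Pool.Agent.H471R2.Ex.Split
set_option autoImplicit false
set_option linter.all false

namespace Pool.Agent.H471R2

open Classical in
/-- logarithm of the Legendre symbol -/
noncomputable def lg (p : ℕ) (a : ℤ) : ZMod 2 := if IsSquare ((a : ℤ) : ZMod p) then 0 else 1

theorem lg_mul {p : ℕ} (hp : p.Prime) {a b : ℤ} (ha : ¬ (p : ℤ) ∣ a) (hb : ¬ (p : ℤ) ∣ b) :
    lg p (a * b) = lg p a + lg p b := by
  classical
  haveI : Fact p.Prime := ⟨hp⟩
  have ha' : ((a : ℤ) : ZMod p) ≠ 0 := by rwa [Ne, ZMod.intCast_zmod_eq_zero_iff_dvd]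
  have hb' : ((b : ℤ) : ZMod p) ≠ 0 := by rwa [Ne, ZMod.intCast_zmod_eq_zero_iff_dvd]
  have hab' : (((a * b : ℤ)) : ZMod p) ≠ 0 := by push_cast; exact mul_ne_zero ha' hb'
  have key : ∀ c : ℤ, ((c : ℤ) : ZMod p) ≠ 0 → (lg p c = 0 ∧ legendreSym p c = 1) ∨ (lg p c = 1 ∧ legendreSym p c = -1) := by
    intro c hc
    unfold lg
    by_cases h : IsSquare ((c : ℤ) : ZMod p)
    · left; rw [if_pos h]; exact ⟨rfl, (legendreSym.eq_one_iff p hc).2 h⟩
    · right; rw [if_neg h]; exact ⟨rfl, (legendreSym.eq_neg_one_iff p).2 h⟩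
  have hm := legendreSym.mul p a b
  rcases key a ha' with ⟨h1, h2⟩ | ⟨h1, h2⟩ <;> rcases key b hb' with ⟨h3, h4⟩ | ⟨h3, h4⟩ <;>
    rcases key (a * b) hab' with ⟨h5, h6⟩ | ⟨h5, h6⟩ <;> rw [h1, h3, h5] <;>
    rw [h2, h4, h6] at hm
  · rfl
  · norm_num at hm
  · norm_num at hm
  · rfl
  · norm_num at hm
  · rfl
  · rfl
  · norm_num at hm

theorem lg_sq {p : ℕ} {a : ℤ} (h : IsSquare ((a : ℤ) : ZMod p)) : lg p a = 0 := if_pos h

theorem lg_congr {p : ℕ} {a b : ℤ} (h : ((a : ℤ) : ZMod p) = ((b : ℤ) : ZMod p)) : lg p a = lg p b := by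
  unfold lg; rw [h]

/-- the tame symbol `(n, D)_p`, written additively, for `D` squarefree. -/
noncomputable def chi (p : ℕ) (D n : ℤ) : ZMod 2 :=
  if (p : ℤ) ∣ D then lg p (n / (p : ℤ) ^ (padicValInt p n)) + (padicValInt p n : ZMod 2) * lg p (-(D / p))
  else (padicValInt p n : ZMod 2) * lg p D

theorem pv_mul {p : ℕ} (hp : p.Prime) {a b : ℤ} (ha : a ≠ 0) (hb : b ≠ 0) :
    padicValInt p (a * b) = padicValInt p a + padicValInt p b := by
  haveI : Fact p.Prime := ⟨hp⟩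
  exact padicValInt.mul ha hb

theorem unit_part {p : ℕ} (hp : p.Prime) {a : ℤ} (ha : a ≠ 0) :
    a = (p : ℤ) ^ (padicValInt p a) * (a / (p : ℤ) ^ (padicValInt p a)) ∧
      ¬ (p : ℤ) ∣ a / (p : ℤ) ^ (padicValInt p a) := by
  haveI : Fact p.Prime := ⟨hp⟩
  have h1 : (p : ℤ) ^ (padicValInt p a) ∣ a := padicValInt_dvd a
  have h2 : a = (p : ℤ) ^ (padicValInt p a) * (a / (p : ℤ) ^ (padicValInt p a)) :=
    (Int.mul_ediv_cancel' h1).symm
  refine ⟨h2, ?_⟩
  rintro ⟨c, hc⟩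
  have h3 : (p : ℤ) ^ (padicValInt p a + 1) ∣ a := by
    refine ⟨c, ?_⟩
    conv_lhs => rw [h2, hc]
    ring
  rw [padicValInt_dvd_iff] at h3
  rcases h3 with h | h
  · exact ha h
  · omega

theorem pv_of {p : ℕ} (hp : p.Prime) {u : ℤ} (hu : ¬ (p : ℤ) ∣ u) (v : ℕ) :
    padicValInt p ((p : ℤ) ^ v * u) = v ∧ ((p : ℤ) ^ v * u) / (p : ℤ) ^ v = u := by
  haveI : Fact p.Prime := ⟨hp⟩
  have hp0 : (p : ℤ) ≠ 0 := by exact_mod_cast hp.ne_zero
  have hu0 : u ≠ 0 := by rintro rfl; exact hu (dvd_zero _)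
  have h1 : padicValInt p u = 0 := padicValInt.eq_zero_of_not_dvd hu
  have h2 : padicValInt p ((p : ℤ) ^ v) = v := by
    induction v with
    | zero => simp
    | succ v ih =>
      rw [pow_succ, pv_mul hp (pow_ne_zero v hp0) hp0, ih]
      have : padicValInt p (p : ℤ) = 1 := by simp [padicValInt]
      rw [this]
  constructor
  · rw [pv_mul hp (pow_ne_zero v hp0) hu0, h1, h2, add_zero]
  · exact Int.mul_ediv_cancel_left _ (pow_ne_zero v hp0)

theorem chi_mul {p : ℕ} (hp : p.Prime) (D : ℤ) {a b : ℤ} (ha : a ≠ 0) (hb : b ≠ 0) :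
    chi p D (a * b) = chi p D a + chi p D b := by
  unfold chi
  obtain ⟨a1, a2⟩ := unit_part hp ha
  obtain ⟨b1, b2⟩ := unit_part hp hb
  split_ifs with h
  · have h3 : a * b / (p : ℤ) ^ (padicValInt p (a * b)) =
        (a / (p : ℤ) ^ (padicValInt p a)) * (b / (p : ℤ) ^ (padicValInt p b)) := by
      rw [pv_mul hp ha hb, pow_add]
      have hp0 : (p : ℤ) ≠ 0 := by exact_mod_cast hp.ne_zero
      apply Int.ediv_eq_of_eq_mul_right (mul_ne_zero (pow_ne_zero _ hp0) (pow_ne_zero _ hp0))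
      conv_lhs => rw [a1, b1]
      ring
    rw [h3, lg_mul hp a2 b2, pv_mul hp ha hb]
    push_cast; ring
  · rw [pv_mul hp ha hb]
    push_cast; ring

theorem chi_sq {p : ℕ} (hp : p.Prime) (D : ℤ) {a : ℤ} (ha : a ≠ 0) : chi p D (a ^ 2) = 0 := by
  rw [sq, chi_mul hp D ha ha]
  exact Kr.add_self_k _

theorem chi_form {p : ℕ} (hp : p.Prime) (hp2 : p ≠ 2) {D : ℤ} (hD : Squarefree D) :
    ∀ (N : ℕ) (t b m : ℤ), m.natAbs ≤ N → m ≠ 0 → m = t ^ 2 - b ^ 2 * D → chi p D m = 0 := by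
  haveI : Fact p.Prime := ⟨hp⟩
  have hp0 : (p : ℤ) ≠ 0 := by exact_mod_cast hp.ne_zero
  have hpI : Prime (p : ℤ) := Nat.prime_iff_prime_int.1 hp
  intro N
  induction N with
  | zero =>
    intro t b m h1 h2 h3
    exact absurd (Int.natAbs_eq_zero.1 (by omega)) h2
  | succ N ih =>
    intro t b m h1 h2 h3
    by_cases hb : (p : ℤ) ∣ b
    · by_cases ht : (p : ℤ) ∣ t
      · obtain ⟨t', rfl⟩ := ht
        obtain ⟨b', rfl⟩ := hb
        have h4 : m = (p : ℤ) ^ 2 * (t' ^ 2 - b' ^ 2 * D) := by rw [h3]; ring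
        have h5 : t' ^ 2 - b' ^ 2 * D ≠ 0 := by
          intro h0; rw [h0, mul_zero] at h4; exact h2 h4
        rw [h4, chi_mul hp D (pow_ne_zero 2 hp0) h5, chi_sq hp D hp0, zero_add]
        apply ih t' b' _ _ h5 rfl
        have h6 : m.natAbs = p ^ 2 * (t' ^ 2 - b' ^ 2 * D).natAbs := by
          rw [h4, Int.natAbs_mul, Int.natAbs_pow, Int.natAbs_natCast]
        have h7 : 2 ≤ p := hp.two_le
        have h8 : 0 < (t' ^ 2 - b' ^ 2 * D).natAbs := Int.natAbs_pos.2 h5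
        have h9 : 4 * (t' ^ 2 - b' ^ 2 * D).natAbs ≤ p ^ 2 * (t' ^ 2 - b' ^ 2 * D).natAbs :=
          Nat.mul_le_mul_right _ (by nlinarith)
        omega
      · -- p ∣ b, p ∤ t
        have h4 : ¬ (p : ℤ) ∣ m := by
          intro h5
          rw [h3] at h5
          have h6 : (p : ℤ) ∣ b ^ 2 * D := Dvd.dvd.mul_right (dvd_pow hb two_ne_zero) _
          have h7 : (p : ℤ) ∣ t ^ 2 := (dvd_sub_left h6).1 h5
          exact ht (hpI.dvd_of_dvd_pow h7)
        have h5 : padicValInt p m = 0 := padicValInt.eq_zero_of_not_dvd h4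
        unfold chi
        rw [h5]
        simp only [pow_zero, Int.ediv_one, Nat.cast_zero, zero_mul, add_zero]
        split_ifs
        · apply lg_sq
          refine ⟨((t : ℤ) : ZMod p), ?_⟩
          rw [h3]
          obtain ⟨b', rfl⟩ := hb
          push_cast
          rw [ZMod.natCast_self]; ring
        · rfl
    · -- p ∤ b
      by_cases hpD : (p : ℤ) ∣ D
      · obtain ⟨D', hD'⟩ := hpD
        have hD'p : ¬ (p : ℤ) ∣ D' := by
          rintro ⟨c, rfl⟩
          have : (p : ℤ) * p ∣ D := ⟨c, by rw [hD']; ring⟩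
          exact hpI.not_isUnit (hD _ this)
        have hdiv : D / p = D' := by rw [hD']; exact Int.mul_ediv_cancel_left _ hp0
        by_cases ht : (p : ℤ) ∣ t
        · obtain ⟨t', rfl⟩ := ht
          have h4 : m = (p : ℤ) ^ 1 * (p * t' ^ 2 - b ^ 2 * D') := by rw [h3, hD']; ring
          have h5 : ¬ (p : ℤ) ∣ (p * t' ^ 2 - b ^ 2 * D') := by
            intro h6
            have h7 : (p : ℤ) ∣ b ^ 2 * D' := (dvd_sub_right (Dvd.intro _ rfl)).1 h6
            rcases hpI.dvd_or_dvd h7 with h8 | h8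
            · exact hb (hpI.dvd_of_dvd_pow h8)
            · exact hD'p h8
          obtain ⟨h6, h7⟩ := pv_of hp h5 1
          unfold chi
          rw [if_pos ⟨D', hD'⟩, h4, h6, h7, hdiv]
          have h8 : lg p (p * t' ^ 2 - b ^ 2 * D') = lg p (b ^ 2 * (-D')) := by
            apply lg_congr
            push_cast
            rw [ZMod.natCast_self]; ring
          have h9 : ¬ (p : ℤ) ∣ b ^ 2 := fun h => hb (hpI.dvd_of_dvd_pow h)
          have h10 : ¬ (p : ℤ) ∣ -D' := fun h => hD'p ((dvd_neg).1 h)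
          rw [h8, lg_mul hp h9 h10, lg_sq ⟨((b : ℤ) : ZMod p), by push_cast; ring⟩, zero_add]
          push_cast
          rw [one_mul]
          exact Kr.add_self_k _
        · have h4 : ¬ (p : ℤ) ∣ m := by
            intro h5
            rw [h3, hD'] at h5
            have h6 : (p : ℤ) ∣ b ^ 2 * (p * D') := ⟨b ^ 2 * D', by ring⟩
            have h7 : (p : ℤ) ∣ t ^ 2 := (dvd_sub_left h6).1 h5
            exact ht (hpI.dvd_of_dvd_pow h7)
          have h5 : padicValInt p m = 0 := padicValInt.eq_zero_of_not_dvd h4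
          unfold chi
          rw [if_pos ⟨D', hD'⟩, h5]
          simp only [pow_zero, Int.ediv_one, Nat.cast_zero, zero_mul, add_zero]
          apply lg_sq
          refine ⟨((t : ℤ) : ZMod p), ?_⟩
          rw [h3, hD']
          push_cast
          rw [ZMod.natCast_self]; ring
      · unfold chi
        rw [if_neg hpD]
        by_cases hm : (p : ℤ) ∣ m
        · have hb' : ((b : ℤ) : ZMod p) ≠ 0 := by rwa [Ne, ZMod.intCast_zmod_eq_zero_iff_dvd]
          have : lg p D = 0 := by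
            apply lg_sq
            refine ⟨((t : ℤ) : ZMod p) / ((b : ℤ) : ZMod p), ?_⟩
            have h4 : ((m : ℤ) : ZMod p) = 0 := by rwa [ZMod.intCast_zmod_eq_zero_iff_dvd]
            rw [h3] at h4
            push_cast at h4
            field_simp
            linear_combination (-1 : ZMod p) * h4
          rw [this, mul_zero]
        · rw [padicValInt.eq_zero_of_not_dvd hm]
          simp

theorem chi_norm {p : ℕ} (hp : p.Prime) (hp2 : p ≠ 2) {D : ℤ} (hD : Squarefree D) {n t b : ℤ}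
    (hn : n ≠ 0) (h : 4 * n = t ^ 2 - b ^ 2 * D) : chi p D n = 0 := by
  have h1 := chi_form hp hp2 hD _ t b (4 * n) le_rfl (mul_ne_zero four_ne_zero hn) h
  have h4 : (4 : ℤ) = 2 ^ 2 := by norm_num
  rw [h4, chi_mul hp D (pow_ne_zero 2 two_ne_zero) hn, chi_sq hp D two_ne_zero, zero_add] at h1
  exact h1

/-- the three symbols with the same first entry cancel -/
theorem chi_A {p : ℕ} (hp : p.Prime) {D1 D2 D3 c : ℤ} (h1 : ¬ (p : ℤ) ∣ D1) (h2 : (p : ℤ) ∣ D2)
    (h3 : (p : ℤ) ∣ D3) (hs2 : Squarefree D2) (hs3 : Squarefree D3) (hc : D1 * D2 * D3 = c ^ 2)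
    (A : ℤ) : chi p D1 A + chi p D2 A + chi p D3 A = 0 := by
  haveI : Fact p.Prime := ⟨hp⟩
  have hp0 : (p : ℤ) ≠ 0 := by exact_mod_cast hp.ne_zero
  have hpI : Prime (p : ℤ) := Nat.prime_iff_prime_int.1 hp
  obtain ⟨D2', rfl⟩ := h2
  obtain ⟨D3', rfl⟩ := h3
  have n2 : ¬ (p : ℤ) ∣ D2' := by
    rintro ⟨x, rfl⟩
    exact hpI.not_isUnit (hs2 _ ⟨x, by ring⟩)
  have n3 : ¬ (p : ℤ) ∣ D3' := by
    rintro ⟨x, rfl⟩
    exact hpI.not_isUnit (hs3 _ ⟨x, by ring⟩)
  have hpc : (p : ℤ) ∣ c := by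
    apply hpI.dvd_of_dvd_pow (n := 2)
    rw [← hc]
    exact ⟨D1 * D2' * (p * D3'), by ring⟩
  obtain ⟨c', rfl⟩ := hpc
  have hc' : D1 * (-D2') * (-D3') = c' ^ 2 := by
    apply mul_left_cancel₀ (pow_ne_zero 2 hp0)
    linear_combination hc
  unfold chi
  rw [if_neg h1, if_pos (Dvd.intro _ rfl), if_pos (Dvd.intro _ rfl), Int.mul_ediv_cancel_left _ hp0,
    Int.mul_ediv_cancel_left _ hp0]
  have hl : lg p D1 + lg p (-D2') + lg p (-D3') = 0 := by
    have m2 : ¬ (p : ℤ) ∣ -D2' := fun h => n2 ((dvd_neg).1 h)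
    have m3 : ¬ (p : ℤ) ∣ -D3' := fun h => n3 ((dvd_neg).1 h)
    have m12 : ¬ (p : ℤ) ∣ D1 * -D2' := fun h => (hpI.dvd_or_dvd h).elim h1 m2
    rw [← lg_mul hp h1 m2, ← lg_mul hp m12 m3, hc']
    exact lg_sq ⟨((c' : ℤ) : ZMod p), by push_cast; ring⟩
  have hu := Kr.add_self_k (lg p (A / (p : ℤ) ^ (padicValInt p A)))
  linear_combination (padicValInt p A : ZMod 2) * hl + hu

/-- expansion along the primes of a ramification datum -/
theorem Ram.chi_expand {K : Type*} [Field K] [NumberField K] {n : ℕ} (R : Ram K n) {r : ℤ} (hr : r ≠ 0)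
    (hev : ∀ q : ℕ, q.Prime → (∀ i, q ≠ R.p i) → Even (padicValRat q (r : ℚ))) :
    ∃ ε : ZMod 2, ∀ (p : ℕ) (D : ℤ), p.Prime → chi p D r = ε * chi p D (-1) +
      ∑ i, ((padicValRat (R.p i) (r : ℚ) : ℤ) : ZMod 2) * chi p D (R.p i : ℤ) := by
  set ru : ℚˣ := Units.mk0 (r : ℚ) (by exact_mod_cast hr) with hru
  set e := R.par ru with he
  have hev' : ∀ q : ℕ, q.Prime → Even (padicValRat q ((ru * (R.ph e)⁻¹ : ℚˣ) : ℚ)) := by
    intro q hq
    haveI : Fact q.Prime := ⟨hq⟩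
    rw [Ram.val_mul q hq, Units.val_inv_eq_inv_val, padicValRat.inv]
    by_cases h : ∃ i, q = R.p i
    · obtain ⟨i, rfl⟩ := h
      rw [R.val_ph_self, Ram.even_iff_par]
      push_cast
      rw [ZMod.natCast_val, ZMod.cast_id', he]
      simp only [Ram.par, id]
      rw [Kr.neg_k]
      exact Kr.add_self_k _
    · push Not at h
      rw [R.val_ph_other e q hq h, neg_zero, add_zero]
      exact hev q hq h
  obtain ⟨c, hc, hcc⟩ := rat_sq_of_even (Units.ne_zero _) hev'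
  -- integer form
  set Pz : ℤ := ∏ i, (R.p i : ℤ) ^ (e i).val with hPz
  have hphPz : (R.ph e : ℚ) = (Pz : ℚ) := by
    unfold Ram.ph
    rw [hPz]
    push_cast
    rfl
  have hPz0 : Pz ≠ 0 := by
    rw [hPz]
    apply Finset.prod_ne_zero_iff.2
    intro i _
    exact pow_ne_zero _ (by exact_mod_cast (R.hp i).ne_zero)
  have hcd : (c.den : ℤ) ≠ 0 := by exact_mod_cast c.den_nz
  have hcn : c.num ≠ 0 := Rat.num_ne_zero.2 hc
  have hru' : (r : ℚ) = (ru * (R.ph e)⁻¹ : ℚˣ) * (Pz : ℚ) := by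
    rw [← hphPz, Units.val_mul, Units.val_inv_eq_inv_val, hru, Units.val_mk0]
    have := (R.ph e).ne_zero
    field_simp
  have hchiPz : ∀ (p : ℕ) (D : ℤ), p.Prime → chi p D Pz =
      ∑ i, ((padicValRat (R.p i) (r : ℚ) : ℤ) : ZMod 2) * chi p D (R.p i : ℤ) := by
    intro p D hp
    have hone : chi p D 1 = 0 := by
      have := chi_sq hp D (one_ne_zero (α := ℤ))
      rwa [one_pow] at this
    have hpow : ∀ (q : ℤ) (v : ℕ), q ≠ 0 → chi p D (q ^ v) = (v : ZMod 2) * chi p D q := by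
      intro q v hq
      induction v with
      | zero => rw [pow_zero, hone]; simp
      | succ v ih => rw [pow_succ, chi_mul hp D (pow_ne_zero v hq) hq, ih]; push_cast; ring
    have hgen : ∀ s : Finset (Fin n), chi p D (∏ i ∈ s, (R.p i : ℤ) ^ (e i).val) =
        ∑ i ∈ s, (e i) * chi p D (R.p i : ℤ) := by
      classical
      intro s
      induction s using Finset.induction_on with
      | empty => simp [hone]
      | insert a s ha ih =>
        have hqa : (R.p a : ℤ) ≠ 0 := by exact_mod_cast (R.hp a).ne_zero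
        have hqs : ∏ i ∈ s, (R.p i : ℤ) ^ (e i).val ≠ 0 := by
          apply Finset.prod_ne_zero_iff.2
          intro i _
          exact pow_ne_zero _ (by exact_mod_cast (R.hp i).ne_zero)
        rw [Finset.prod_insert ha, Finset.sum_insert ha, chi_mul hp D (pow_ne_zero _ hqa) hqs, ih,
          hpow _ _ hqa, ZMod.natCast_val, ZMod.cast_id', id]
    rw [hPz, hgen]
    rfl
  rcases hcc with h | h
  · refine ⟨0, fun p D hp => ?_⟩
    have h1 : r * (c.den : ℤ) ^ 2 = Pz * c.num ^ 2 := by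
      have h2 : (r : ℚ) = c ^ 2 * (Pz : ℚ) := by rw [hru', h]
      have h3 : c * c.den = c.num := Rat.mul_den_eq_num c
      have h4 : (r : ℚ) * (c.den : ℚ) ^ 2 = Pz * c.num ^ 2 := by
        rw [h2, ← h3]; ring
      exact_mod_cast h4
    have h5 := congrArg (chi p D) h1
    rw [chi_mul hp D hr (pow_ne_zero 2 hcd), chi_mul hp D hPz0 (pow_ne_zero 2 hcn), chi_sq hp D hcd,
      chi_sq hp D hcn, add_zero, add_zero] at h5
    rw [h5, hchiPz p D hp]; ring
  · refine ⟨1, fun p D hp => ?_⟩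
    have h1 : r * (c.den : ℤ) ^ 2 = (-1) * Pz * c.num ^ 2 := by
      have h2 : (r : ℚ) = -c ^ 2 * (Pz : ℚ) := by rw [hru', h]
      have h3 : c * c.den = c.num := Rat.mul_den_eq_num c
      have h4 : (r : ℚ) * (c.den : ℚ) ^ 2 = (-1) * Pz * c.num ^ 2 := by
        rw [h2, ← h3]; ring
      exact_mod_cast h4
    have h5 := congrArg (chi p D) h1
    rw [chi_mul hp D hr (pow_ne_zero 2 hcd), chi_mul hp D (mul_ne_zero (by norm_num) hPz0) (pow_ne_zero 2 hcn),
      chi_mul hp D (by norm_num) hPz0, chi_sq hp D hcd, chi_sq hp D hcn, add_zero, add_zero] at h5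
    rw [h5, hchiPz p D hp]; ring

end Pool.Agent.H471R2
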