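import Pool.Agent.H471R2.Ex.Bits
import Pool.Agent.H471R2.Ex.Sym
set_option autoImplicit false
set_option linter.all false

namespace Pool.Agent.H471R2.Ck

/-- Euler criterion -/
noncomputable def eu (p a : ℕ) : Bool :=
  cond (Nat.beq (Nat.mod a p) 0) false (!(Nat.beq (Nat.mod (Nat.pow (Nat.mod a p) (Nat.div p 2)) p) 1))

theorem lg_eu {p : ℕ} (hp : p.Prime) {a : ℤ} {b : ℕ} (h : ((a : ℤ) : ZMod p) = ((b : ℕ) : ZMod p)) :
    lg p a = bz (eu p b) := by
  haveI : Fact p.Prime := ⟨hp⟩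
  unfold lg eu
  rw [h]
  by_cases hb : Nat.mod b p = 0
  · have h1 : ((b : ℕ) : ZMod p) = 0 := by
      rw [ZMod.natCast_eq_zero_iff]
      exact Nat.dvd_of_mod_eq_zero hb
    rw [h1, if_pos (IsSquare.zero), hb]
    rfl
  · have h1 : ((b : ℕ) : ZMod p) ≠ 0 := by
      rw [Ne, ZMod.natCast_eq_zero_iff]
      intro h2
      exact hb (Nat.mod_eq_zero_of_dvd h2)
    have h2 : Nat.beq (Nat.mod b p) 0 = false := by
      cases h3 : Nat.beq (Nat.mod b p) 0 with
      | false => rfl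
      | true => exact absurd (Nat.eq_of_beq_eq_true h3) hb
    rw [h2, cond_false]
    have h3 : IsSquare ((b : ℕ) : ZMod p) ↔ Nat.mod (Nat.pow (Nat.mod b p) (Nat.div p 2)) p = 1 := by
      rw [ZMod.euler_criterion p h1]
      have e1 : (((b : ℕ) : ZMod p)) ^ (p / 2) = (((b % p) ^ (p / 2) : ℕ) : ZMod p) := by
        push_cast
        rw [ZMod.natCast_mod]
      rw [e1]
      have e2 : (((b % p) ^ (p / 2) : ℕ) : ZMod p) = 1 ↔ (((b % p) ^ (p / 2) : ℕ) : ZMod p) = ((1 : ℕ) : ZMod p) := by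
        rw [Nat.cast_one]
      rw [e2, ZMod.natCast_eq_natCast_iff', Nat.mod_eq_of_lt hp.one_lt]
      rfl
    cases h4 : Nat.beq (Nat.mod (Nat.pow (Nat.mod b p) (Nat.div p 2)) p) 1 with
    | false =>
      rw [if_neg]
      · rfl
      · intro h5
        rw [h3] at h5
        rw [h5] at h4
        exact absurd h4 (by decide)
    | true =>
      rw [if_pos (h3.2 (Nat.eq_of_beq_eq_true h4))]
      rfl

/-- the symbol with a prime -/
noncomputable def sy (D p q : ℕ) : Bool :=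
  cond (Nat.beq (Nat.mod D p) 0)
    (cond (Nat.beq q p) (eu p (Nat.sub p (Nat.mod (Nat.div D p) p))) (eu p q))
    (cond (Nat.beq q p) (eu p D) false)

/-- the symbol with `-1` -/
noncomputable def sm (D p : ℕ) : Bool :=
  cond (Nat.beq (Nat.mod D p) 0) (eu p (Nat.sub p 1)) false

theorem beq_false {a b : ℕ} (h : a ≠ b) : Nat.beq a b = false := by
  cases h1 : Nat.beq a b with
  | false => rfl
  | true => exact absurd (Nat.eq_of_beq_eq_true h1) h

theorem beq_true {a b : ℕ} (h : a = b) : Nat.beq a b = true := by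
  subst h; exact Nat.beq_refl a

theorem mod_zero_iff {D p : ℕ} : Nat.mod D p = 0 ↔ (p : ℤ) ∣ (D : ℤ) := by
  rw [Int.natCast_dvd_natCast]
  exact (Nat.dvd_iff_mod_eq_zero).symm

theorem sub_cast {p x : ℕ} (hp : 0 < p) : ((-(x : ℤ) : ℤ) : ZMod p) = ((Nat.sub p (Nat.mod x p) : ℕ) : ZMod p) := by
  have h1 : x % p ≤ p := (Nat.mod_lt _ hp).le
  have h2 : ((Nat.sub p (Nat.mod x p) : ℕ) : ZMod p) = ((p - x % p : ℕ) : ZMod p) := rfl
  rw [h2, Nat.cast_sub h1, ZMod.natCast_self, ZMod.natCast_mod]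
  push_cast; ring

theorem chi_sy {D p q : ℕ} (hp : p.Prime) (hq : q.Prime) : chi p (D : ℤ) (q : ℤ) = bz (sy D p q) := by
  haveI : Fact p.Prime := ⟨hp⟩
  haveI : Fact q.Prime := ⟨hq⟩
  unfold chi sy
  by_cases hqp : q = p
  · subst hqp
    have h1 : padicValInt q (q : ℤ) = 1 := by simp [padicValInt]
    have hq0 : (q : ℤ) ≠ 0 := by exact_mod_cast hq.ne_zero
    rw [h1, pow_one, Int.ediv_self hq0, beq_true (rfl : q = q), cond_true, cond_true]
    have h2 : lg q 1 = 0 := lg_sq ⟨1, by simp⟩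
    by_cases hD : (q : ℤ) ∣ (D : ℤ)
    · rw [if_pos hD, h2, beq_true (mod_zero_iff.2 hD), cond_true, zero_add, Nat.cast_one, one_mul]
      apply lg_eu hq
      have : (D : ℤ) / (q : ℤ) = ((D / q : ℕ) : ℤ) := by push_cast; rfl
      rw [this]
      exact sub_cast hq.pos
    · rw [if_neg hD, beq_false (fun h => hD (mod_zero_iff.1 h)), cond_false, Nat.cast_one, one_mul]
      exact lg_eu hq (by push_cast; rfl)
  · have h1 : padicValInt p (q : ℤ) = 0 := by
      apply padicValInt.eq_zero_of_not_dvd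
      intro h
      have h2 : p ∣ q := by exact_mod_cast h
      exact hqp ((Nat.prime_dvd_prime_iff_eq hp hq).1 h2).symm
    rw [h1, pow_zero, Int.ediv_one, beq_false hqp, cond_false, cond_false, Nat.cast_zero, zero_mul, zero_mul,
      add_zero]
    by_cases hD : (p : ℤ) ∣ (D : ℤ)
    · rw [if_pos hD, beq_true (mod_zero_iff.2 hD), cond_true]
      exact lg_eu hp (by push_cast; rfl)
    · rw [if_neg hD, beq_false (fun h => hD (mod_zero_iff.1 h)), cond_false]
      rfl

theorem chi_sm {D p : ℕ} (hp : p.Prime) : chi p (D : ℤ) (-1) = bz (sm D p) := by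
  haveI : Fact p.Prime := ⟨hp⟩
  have hp1' : ¬ (p : ℤ) ∣ -1 := by
    intro h5
    have := (Nat.prime_iff_prime_int.1 hp).not_isUnit
    exact this (isUnit_of_dvd_unit h5 (by norm_num))
  unfold chi sm
  rw [padicValInt.eq_zero_of_not_dvd hp1', pow_zero, Int.ediv_one, Nat.cast_zero, zero_mul, zero_mul, add_zero]
  by_cases hD : (p : ℤ) ∣ (D : ℤ)
  · rw [if_pos hD, beq_true (mod_zero_iff.2 hD), cond_true]
    apply lg_eu hp
    have h1 := sub_cast (x := 1) hp.pos
    have h2 : Nat.mod 1 p = 1 := Nat.mod_eq_of_lt hp.one_lt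
    rw [h2] at h1
    exact_mod_cast h1
  · rw [if_neg hD, beq_false (fun h => hD (mod_zero_iff.1 h)), cond_false]
    rfl

end Pool.Agent.H471R2.Ck
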