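import Pool.Agent.H471R2.Ex.Mod
set_option autoImplicit false
set_option linter.all false
open NumberField Ideal Polynomial

namespace Pool.Agent.H471R2.St

open Pool.Agent.H471R2.Ck

theorem arises_kr {s t : ℕ} {A A' : ℕ → ℕ → Bool} (h : Ar s t A A') :
    Arises (kr (Dat.ml s t A) (Dat.ml s t A')) := by
  obtain ⟨K, i1, i2, i3, e, i, p, h1, h2, h3, h4, h5, h6⟩ := h
  refine ⟨K, i1, i2, i3, e, i, p, h1, h2, ?_, h4, ?_, h6⟩
  · intro g x
    rw [kr_eq]
    exact h3 g x
  · intro g x hx
    rw [kr_eq]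
    exact h5 g x hx

theorem Arises.of_iso {M N : Type} [AddCommGroup M] [AddCommGroup N] {ρ : V22 → M → M} {π : V22 → N → N}
    (h : Arises π) (hi : ModIso ρ π) : Arises ρ := by
  obtain ⟨K, i1, i2, i3, e, i, p, h1, h2, h3, h4, h5, h6⟩ := h
  obtain ⟨E, hE⟩ := hi
  have hE' : ∀ g y, E.symm (π g y) = ρ g (E.symm y) := by
    intro g y
    apply E.injective
    rw [hE, E.apply_symm_apply, E.apply_symm_apply]
  refine ⟨K, i1, i2, i3, e, fun m => i (E m), fun y => E.symm (p y), ?_, ?_, ?_, ?_, ?_, ?_⟩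
  · intro x y
    simp only
    rw [map_add, h1]
  · intro x
    exact h2 _
  · intro g x
    simp only
    rw [hE, h3]
  · intro x y hx hy
    simp only
    rw [h4 x y hx hy, map_add]
  · intro g x hx
    simp only
    rw [h5 g x hx, hE']
  · intro x
    simp only
    rw [h6, E.symm_apply_apply]

theorem ModIso.refl {M : Type} [Add M] (ρ : V22 → M → M) : ModIso ρ ρ := ⟨AddEquiv.refl M, fun _ _ => rfl⟩

theorem beq_ite (a b : ℕ) : bz (Nat.beq a b) = if a = b then 1 else 0 := by
  by_cases h : a = b
  · rw [beq_true h, if_pos h]; rfl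
  · rw [beq_false h, if_neg h]; rfl

/-- the modules `mI` -/
theorem mI_eq (n : ℕ) : mI n = kr (Dat.ml n (n + 1) sh') (Dat.ml n (n + 1) idm) := by
  unfold mI
  congr 1
  · funext u k
    rw [Dat.ml_apply, Finset.sum_eq_single k.succ]
    · unfold sh'
      rw [beq_ite, if_pos (by simp), one_mul]
    · intro j _ hj
      unfold sh'
      rw [beq_ite, if_neg (by
        intro h
        exact hj (Fin.ext h)), zero_mul]
    · intro h; exact absurd (Finset.mem_univ _) h
  · funext u k
    rw [Dat.ml_apply, Finset.sum_eq_single k.castSucc]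
    · unfold idm
      rw [beq_ite, if_pos (by simp), one_mul]
    · intro j _ hj
      unfold idm
      rw [beq_ite, if_neg (by
        intro h
        exact hj (Fin.ext h.symm)), zero_mul]
    · intro h; exact absurd (Finset.mem_univ _) h

/-- the modules `mP` -/
theorem mP_eq (n : ℕ) : mP n = kr (Dat.ml (n + 1) n shm) (Dat.ml (n + 1) n idm) := by
  unfold mP
  congr 1
  · funext u k
    rw [Dat.ml_apply]
    refine Fin.cases ?_ (fun k => ?_) k
    · rw [Fin.cons_zero]
      symm
      apply Finset.sum_eq_zero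
      intro j _
      unfold shm
      rw [beq_ite, if_neg (by simp), zero_mul]
    · rw [Fin.cons_succ, Finset.sum_eq_single k]
      · unfold shm
        rw [beq_ite, if_pos (by simp), one_mul]
      · intro j _ hj
        unfold shm
        rw [beq_ite, if_neg (by
          intro h
          apply hj
          apply Fin.ext
          simp at h
          exact h.symm), zero_mul]
      · intro h; exact absurd (Finset.mem_univ _) h
  · funext u k
    rw [Dat.ml_apply]
    refine Fin.lastCases ?_ (fun k => ?_) k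
    · rw [Fin.snoc_last]
      symm
      apply Finset.sum_eq_zero
      intro j _
      unfold idm
      rw [beq_ite, if_neg (by
        have := j.2
        simp
        omega), zero_mul]
    · rw [Fin.snoc_castSucc, Finset.sum_eq_single k]
      · unfold idm
        rw [beq_ite, if_pos (by simp), one_mul]
      · intro j _ hj
        unfold idm
        rw [beq_ite, if_neg (by
          intro h
          apply hj
          apply Fin.ext
          simp at h
          exact h.symm), zero_mul]
      · intro h; exact absurd (Finset.mem_univ _) h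

/-- the polynomial with lower coefficients given by a mask -/
noncomputable def pol (D m : ℕ) : (ZMod 2)[X] := X ^ D + ∑ k ∈ Finset.range D, C (bz (tb m k)) * X ^ k

theorem pol_deg_lt (D m : ℕ) : (∑ k ∈ Finset.range D, C (bz (tb m k)) * X ^ k : (ZMod 2)[X]).degree < D := by
  rw [← mem_degreeLT]
  apply Submodule.sum_mem
  intro k hk
  rw [mem_degreeLT]
  exact lt_of_le_of_lt (degree_C_mul_X_pow_le k _) (by exact_mod_cast Finset.mem_range.1 hk)

theorem pol_monic (D m : ℕ) : (pol D m).Monic := monic_X_pow_add (pol_deg_lt D m)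

theorem pol_natDegree (D m : ℕ) : (pol D m).natDegree = D := by
  unfold pol
  rw [natDegree_add_eq_left_of_degree_lt, natDegree_X_pow]
  rw [degree_X_pow]
  exact pol_deg_lt D m

theorem pol_eval₂ (D m : ℕ) {R : Type} [CommRing R] (φ : ZMod 2 →+* R) (x : R) :
    (pol D m).eval₂ φ x = x ^ D + ∑ k ∈ Finset.range D, φ (bz (tb m k)) * x ^ k := by
  unfold pol
  rw [eval₂_add, eval₂_pow, eval₂_X, eval₂_finset_sum]
  congr 1
  apply Finset.sum_congr rfl
  intro k _
  rw [eval₂_mul, eval₂_C, eval₂_pow, eval₂_X]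

theorem root_pow (D m : ℕ) : (AdjoinRoot.root (pol D m)) ^ D =
    ∑ k ∈ Finset.range D, bz (tb m k) • (AdjoinRoot.root (pol D m)) ^ k := by
  have h := AdjoinRoot.eval₂_root (pol D m)
  rw [pol_eval₂] at h
  have h3 := Kr.eq_of_add_k (M := AdjoinRoot (pol D m)) h
  rw [h3]
  apply Finset.sum_congr rfl
  intro k _
  rw [Algebra.smul_def]
  rfl

/-- coordinates on `F₂[X]/(f)` -/
theorem exists_coord (D m : ℕ) : ∃ E : (Fin D → ZMod 2) ≃+ AdjoinRoot (pol D m),
    (∀ u, E u = ∑ j : Fin D, u j • (AdjoinRoot.root (pol D m)) ^ (j : ℕ)) := by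
  have hm := pol_monic D m
  let b := (AdjoinRoot.powerBasis' hm).basis
  have hdim : (AdjoinRoot.powerBasis' hm).dim = D := pol_natDegree D m
  let b' := b.reindex (finCongr hdim)
  refine ⟨b'.equivFun.symm.toAddEquiv, ?_⟩
  intro u
  change b'.equivFun.symm u = _
  rw [Module.Basis.equivFun_symm_apply]
  apply Finset.sum_congr rfl
  intro j _
  rw [Module.Basis.reindex_apply, PowerBasis.basis_eq_pow]
  rfl

theorem ml_idm (n : ℕ) (u : Fin n → ZMod 2) : Dat.ml n n idm u = u := by
  funext k
  rw [Dat.ml_apply, Finset.sum_eq_single k]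
  · unfold idm
    rw [beq_ite, if_pos rfl, one_mul]
  · intro j _ hj
    unfold idm
    rw [beq_ite, if_neg (by
      intro h
      exact hj (Fin.ext h.symm)), zero_mul]
  · intro h; exact absurd (Finset.mem_univ _) h

theorem ml_cmp (n m : ℕ) (u : Fin (n + 1) → ZMod 2) (k : Fin (n + 1)) :
    Dat.ml (n + 1) (n + 1) (cmp (n + 1) m) u k =
      (Fin.cons 0 (fun j : Fin n => u j.castSucc) : Fin (n + 1) → ZMod 2) k + u (Fin.last n) * bz (tb m k) := by
  rw [Dat.ml_apply]
  have h1 : ∀ j : Fin (n + 1), bz (cmp (n + 1) m k j) * u j =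
      (if (k : ℕ) = j + 1 then u j else 0) + (if (j : ℕ) + 1 = n + 1 then bz (tb m k) * u j else 0) := by
    intro j
    unfold Ck.cmp
    rw [bz_xor, beq_ite, add_mul]
    congr 1
    · rw [ite_mul, one_mul, zero_mul]
    · by_cases h2 : (j : ℕ) + 1 = n + 1
      · rw [if_pos h2, beq_true (show Nat.succ (j : ℕ) = n + 1 from h2), cond_true]
      · rw [if_neg h2, beq_false (show Nat.succ (j : ℕ) ≠ n + 1 from h2), cond_false]
        simp [bz]
  simp only [h1]
  rw [Finset.sum_add_distrib]
  congr 1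
  · refine Fin.cases ?_ (fun k => ?_) k
    · rw [Fin.cons_zero]
      apply Finset.sum_eq_zero
      intro j _
      rw [if_neg (by simp)]
    · rw [Fin.cons_succ, Finset.sum_eq_single k.castSucc]
      · rw [if_pos (by simp)]
      · intro j _ hj
        rw [if_neg (by
          intro h
          apply hj
          apply Fin.ext
          simp at h
          simp
          exact h.symm)]
      · intro h; exact absurd (Finset.mem_univ _) h
  · rw [Finset.sum_eq_single (Fin.last n)]
    · rw [if_pos (by simp), mul_comm]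
    · intro j _ hj
      rw [if_neg (by
        intro h
        apply hj
        apply Fin.ext
        simp at h
        simp
        exact h)]
    · intro h; exact absurd (Finset.mem_univ _) h

theorem mul_root (n m : ℕ) (E : (Fin (n + 1) → ZMod 2) ≃+ AdjoinRoot (pol (n + 1) m))
    (hE : ∀ u, E u = ∑ j : Fin (n + 1), u j • (AdjoinRoot.root (pol (n + 1) m)) ^ (j : ℕ)) (u : Fin (n + 1) → ZMod 2) :
    E (Dat.ml (n + 1) (n + 1) (cmp (n + 1) m) u) = AdjoinRoot.root (pol (n + 1) m) * E u := by
  rw [hE, hE]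
  simp only [ml_cmp, add_smul]
  rw [Finset.sum_add_distrib, Finset.mul_sum]
  have h1 : ∑ j : Fin (n + 1), (Fin.cons 0 (fun j : Fin n => u j.castSucc) : Fin (n + 1) → ZMod 2) j •
      (AdjoinRoot.root (pol (n + 1) m)) ^ (j : ℕ) =
      ∑ j : Fin n, u j.castSucc • (AdjoinRoot.root (pol (n + 1) m)) ^ ((j : ℕ) + 1) := by
    rw [Fin.sum_univ_succ]
    simp
  have h2 : ∑ j : Fin (n + 1), (u (Fin.last n) * bz (tb m j)) • (AdjoinRoot.root (pol (n + 1) m)) ^ (j : ℕ) =
      u (Fin.last n) • (AdjoinRoot.root (pol (n + 1) m)) ^ (n + 1) := by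
    rw [root_pow, Finset.sum_range, Finset.smul_sum]
    apply Finset.sum_congr rfl
    intro j _
    rw [mul_smul]
  rw [h1, h2, Fin.sum_univ_castSucc (f := fun j : Fin (n + 1) => AdjoinRoot.root (pol (n + 1) m) *
    u j • AdjoinRoot.root (pol (n + 1) m) ^ (j : ℕ))]
  congr 1
  · apply Finset.sum_congr rfl
    intro j _
    rw [mul_smul_comm, pow_succ']
    rfl
  · rw [mul_smul_comm, pow_succ']
    rfl

theorem mR_arises (n m : ℕ) (h : Ar (n + 1) (n + 1) idm (cmp (n + 1) m)) : Arises (mR (pol (n + 1) m)) := by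
  obtain ⟨E, hE⟩ := exists_coord (n + 1) m
  apply (arises_kr h).of_iso
  refine ⟨(E.prodCongr E).symm, ?_⟩
  have key : ∀ g y, (E.prodCongr E) (kr (Dat.ml (n + 1) (n + 1) idm) (Dat.ml (n + 1) (n + 1) (cmp (n + 1) m)) g y) =
      mR (pol (n + 1) m) g ((E.prodCongr E) y) := by
    rintro g ⟨x, y⟩
    have e0 : ∀ (c : Multiplicative (ZMod 2)) (z : Fin (n + 1) → ZMod 2), E (sel c z) = sel c (E z) := by
      intro c z
      unfold sel
      split_ifs
      · exact map_zero E
      · rfl
    refine Prod.ext rfl ?_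
    change E (y + sel g.1 (Dat.ml (n + 1) (n + 1) idm x) + sel g.2 (Dat.ml (n + 1) (n + 1) (cmp (n + 1) m) x)) =
      E y + sel g.1 (E x) + sel g.2 (AdjoinRoot.root (pol (n + 1) m) * E x)
    rw [map_add, map_add, e0, e0, ml_idm, mul_root n m E hE]
  intro g x
  apply (E.prodCongr E).injective
  rw [key, AddEquiv.apply_symm_apply, AddEquiv.apply_symm_apply]

theorem cmp_zero (D k j : ℕ) : cmp D 0 k j = shm k j := by
  unfold Ck.cmp shm
  have : tb 0 k = false := by rw [tb_eq]; exact Nat.zero_testBit k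
  rw [this]
  cases Nat.beq (Nat.succ j) D <;> simp

theorem mR'_arises (n : ℕ) (h : Ar (n + 1) (n + 1) shm idm) : Arises (mR' (pol (n + 1) 0)) := by
  obtain ⟨E, hE⟩ := exists_coord (n + 1) 0
  apply (arises_kr h).of_iso
  refine ⟨(E.prodCongr E).symm, ?_⟩
  have hc : (shm : ℕ → ℕ → Bool) = Ck.cmp (n + 1) 0 := by
    funext k j; exact (cmp_zero _ _ _).symm
  have key : ∀ g y, (E.prodCongr E) (kr (Dat.ml (n + 1) (n + 1) shm) (Dat.ml (n + 1) (n + 1) idm) g y) =
      mR' (pol (n + 1) 0) g ((E.prodCongr E) y) := by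
    rintro g ⟨x, y⟩
    have e0 : ∀ (c : Multiplicative (ZMod 2)) (z : Fin (n + 1) → ZMod 2), E (sel c z) = sel c (E z) := by
      intro c z
      unfold sel
      split_ifs
      · exact map_zero E
      · rfl
    refine Prod.ext rfl ?_
    change E (y + sel g.1 (Dat.ml (n + 1) (n + 1) shm x) + sel g.2 (Dat.ml (n + 1) (n + 1) idm x)) =
      E y + sel g.1 (AdjoinRoot.root (pol (n + 1) 0) * E x) + sel g.2 (E x)
    rw [map_add, map_add, e0, e0, ml_idm, hc, mul_root n 0 E hE]
  intro g x
  apply (E.prodCongr E).injective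
  rw [key, AddEquiv.apply_symm_apply, AddEquiv.apply_symm_apply]

theorem pol_zero (D : ℕ) : pol D 0 = X ^ D := by
  unfold pol
  rw [add_eq_left]
  apply Finset.sum_eq_zero
  intro k _
  have : tb 0 k = false := by rw [tb_eq]; exact Nat.zero_testBit k
  rw [this]
  have : bz false = 0 := rfl
  rw [this, C_0, zero_mul]

end Pool.Agent.H471R2.St
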