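import Pool.Agent.H471R2.Ex.Bi
set_option autoImplicit false
set_option linter.all false
open NumberField Ideal nonZeroDivisors

namespace Pool.Agent.H471R2

variable {K : Type} [Field K] [NumberField K] [IsGalois ℚ K] {σ τ : K ≃ₐ[ℚ] K}

theorem sup_sq_eq {q a b : 𝓞 K} {I : Ideal (𝓞 K)} (hI : I = span {a} ⊔ span {b}) (h1 : q ∣ a * a) (h2 : q ∣ a * b)
    (h3 : q ∣ b * b) (h4 : q ∈ I ^ 2) : I ^ 2 = span {q} := by
  apply le_antisymm
  · rw [sq, hI, Ideal.sup_mul, Ideal.mul_sup, Ideal.mul_sup, Ideal.span_singleton_mul_span_singleton,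
      Ideal.span_singleton_mul_span_singleton, Ideal.span_singleton_mul_span_singleton,
      Ideal.span_singleton_mul_span_singleton]
    refine sup_le (sup_le ?_ ?_) (sup_le ?_ ?_) <;> rw [Ideal.span_singleton_le_span_singleton]
    · exact h1
    · exact h2
    · rw [mul_comm]; exact h2
    · exact h3
  · rw [Ideal.span_singleton_le_iff_mem]; exact h4

theorem ex_J {D : ℤ} {s : 𝓞 K} (h : Rt σ τ D s) {q : ℕ} (hq : q.Prime)
    (hD : (q : ℤ) ∣ D ∨ (q = 2 ∧ D % 4 = 3)) :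
    ∃ J : FI K, J ^ 2 = pq K (Units.mk0 (q : ℚ) (by exact_mod_cast hq.ne_zero)) := by
  have hq0 : ((q : ℤ) : 𝓞 K) ≠ 0 := by exact_mod_cast hq.ne_zero
  have key : ∃ I : Ideal (𝓞 K), I ^ 2 = span {((q : ℤ) : 𝓞 K)} := by
    rcases hD with ⟨D', hD'⟩ | ⟨rfl, hD4⟩
    · refine ⟨span {((q : ℤ) : 𝓞 K)} ⊔ span {s}, sup_sq_eq rfl ?_ ?_ ?_ ?_⟩
      · exact dvd_mul_right _ _
      · exact dvd_mul_right _ _
      · rw [h.sq, hD']; push_cast; exact dvd_mul_right _ _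
      · have hcop : IsCoprime (q : ℤ) D' := by
          refine (Prime.coprime_iff_not_dvd (Nat.prime_iff_prime_int.1 hq)).2 ?_
          rintro ⟨e, he⟩
          have : (q : ℤ) * q ∣ D := ⟨e, by rw [hD', he]; ring⟩
          exact (Nat.prime_iff_prime_int.1 hq).not_isUnit (h.sf _ this)
        obtain ⟨u, w, huw⟩ := hcop
        have e1 : ((q : ℤ) : 𝓞 K) = (u : 𝓞 K) * (((q : ℤ) : 𝓞 K) * ((q : ℤ) : 𝓞 K)) + (w : 𝓞 K) * (s * s) := by
          rw [h.sq, hD']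
          have : (q : ℤ) = u * (q * q) + w * (q * D') := by linear_combination (-(q : ℤ)) * huw
          exact_mod_cast congrArg (fun z : ℤ => (z : 𝓞 K)) this
        have m1 : ((q : ℤ) : 𝓞 K) ∈ (span {((q : ℤ) : 𝓞 K)} ⊔ span {s} : Ideal (𝓞 K)) :=
          Ideal.mem_sup_left (Ideal.mem_span_singleton_self _)
        have m2 : s ∈ (span {((q : ℤ) : 𝓞 K)} ⊔ span {s} : Ideal (𝓞 K)) :=
          Ideal.mem_sup_right (Ideal.mem_span_singleton_self _)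
        refine (congrArg (fun z => z ∈ (span {((q : ℤ) : 𝓞 K)} ⊔ span {s} : Ideal (𝓞 K)) ^ 2) e1).mpr ?_
        rw [sq (span {((q : ℤ) : 𝓞 K)} ⊔ span {s} : Ideal (𝓞 K))]
        exact Ideal.add_mem _ (Ideal.mul_mem_left _ _ (Ideal.mul_mem_mul m1 m1))
          (Ideal.mul_mem_left _ _ (Ideal.mul_mem_mul m2 m2))
    · obtain ⟨e, he⟩ : ∃ e : ℤ, D = 3 + 4 * e := ⟨D / 4, by omega⟩
      refine ⟨span {(((2 : ℕ) : ℤ) : 𝓞 K)} ⊔ span {1 + s}, sup_sq_eq rfl ?_ ?_ ?_ ?_⟩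
      · exact dvd_mul_right _ _
      · exact dvd_mul_right _ _
      · refine ⟨((2 + 2 * e : ℤ) : 𝓞 K) + s, ?_⟩
        have : (1 + s) * (1 + s) = 1 + 2 * s + s * s := by ring
        rw [this, h.sq, he]; push_cast; ring
      · have e1 : (((2 : ℕ) : ℤ) : 𝓞 K) = (1 + s) * (1 + s) - (((2 : ℕ) : ℤ) : 𝓞 K) * (1 + s) -
            (e : 𝓞 K) * ((((2 : ℕ) : ℤ) : 𝓞 K) * (((2 : ℕ) : ℤ) : 𝓞 K)) := by
          have : (1 + s) * (1 + s) = 1 + 2 * s + s * s := by ring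
          rw [this, h.sq, he]; push_cast; ring
        have m1 : (((2 : ℕ) : ℤ) : 𝓞 K) ∈ (span {(((2 : ℕ) : ℤ) : 𝓞 K)} ⊔ span {1 + s} : Ideal (𝓞 K)) :=
          Ideal.mem_sup_left (Ideal.mem_span_singleton_self _)
        have m2 : 1 + s ∈ (span {(((2 : ℕ) : ℤ) : 𝓞 K)} ⊔ span {1 + s} : Ideal (𝓞 K)) :=
          Ideal.mem_sup_right (Ideal.mem_span_singleton_self _)
        refine (congrArg (fun z => z ∈ (span {(((2 : ℕ) : ℤ) : 𝓞 K)} ⊔ span {1 + s} : Ideal (𝓞 K)) ^ 2) e1).mpr ?_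
        rw [sq (span {(((2 : ℕ) : ℤ) : 𝓞 K)} ⊔ span {1 + s} : Ideal (𝓞 K))]
        exact Ideal.sub_mem _ (Ideal.sub_mem _ (Ideal.mul_mem_mul m2 m2) (Ideal.mul_mem_mul m1 m2))
          (Ideal.mul_mem_left _ _ (Ideal.mul_mem_mul m1 m1))
  obtain ⟨I, hI⟩ := key
  have hI2 : I ^ 2 ≠ ⊥ := by rw [hI]; exact span_ne_bot hq0
  have hI0 : I ≠ ⊥ := by
    rintro rfl
    apply hI2
    rw [Ideal.bot_pow two_ne_zero]
  refine ⟨toFI I hI0, ?_⟩
  rw [← toFI_sq _ _ hI2, toFI_congr hI, toFI_span_int (by exact_mod_cast hq.ne_zero)]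
  rfl

/-- the ramification datum -/
theorem Bi.exists_ram (B : Bi K) {n : ℕ} (p : Fin n → ℕ) (hp : ∀ i, (p i).Prime)
    (inj : Function.Injective p) (h : ∀ q, ∃ i, (p q : ℤ) ∣ B.D i ∨ (p q = 2 ∧ B.D i % 4 = 3)) :
    ∃ R : Ram K n, R.p = p := by
  have h1 : ∀ q, ∃ J : FI K, J ^ 2 = pq K (Units.mk0 (p q : ℚ) (by exact_mod_cast (hp q).ne_zero)) := by
    intro q
    obtain ⟨i, hi⟩ := h q
    exact ex_J (B.rt i) (hp q) hi
  choose J hJ using h1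
  exact ⟨⟨p, hp, inj, J, hJ⟩, rfl⟩

/-- a class over a split prime. -/
theorem Bi.exists_class (B : Bi K) {n : ℕ} (R : Ram K n) {l : ℕ} (hl : l.Prime) (hl2 : l ≠ 2)
    {g hh a b r : Fin 3 → ℤ} (hr : ∀ i, r i ≠ 0) {e : Fin 3 → Fin n → ZMod 2}
    (he : ∀ i, (r i : ℚ) = R.ph (e i)) (e1 : ∀ i, g i ^ 2 + B.D i * hh i ^ 2 = 2 * r i * a i)
    (e2 : ∀ i, g i * hh i = r i * b i) (e3 : ∀ i, a i ^ 2 - B.D i * b i ^ 2 = 4 * (l : ℤ) ^ 2)
    (ha : ∀ i, ¬ (l : ℤ) ∣ a i) (hs : R.G (e 0 + e 1 + e 2) = 1) :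
    ∃ x : ClassGroup (𝓞 K), x ^ 2 = 1 ∧ ∀ i, x * ca (B.g i) x = R.G (e i) := by
  have hnu : span {(l : 𝓞 K)} ≠ ⊤ := by
    intro h0
    rw [Ideal.span_singleton_eq_top] at h0
    have h1 : ((1 : ℤ) : 𝓞 K) ∈ span {((l : ℤ) : 𝓞 K)} := by
      have : span {((l : ℤ) : 𝓞 K)} = ⊤ := by
        rw [Ideal.span_singleton_eq_top]; simpa using h0
      rw [this]; trivial
    rw [Ideal.mem_span_singleton] at h1
    have h2 := int_dvd_of_coe h1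
    have h3 : l ∣ 1 := by exact_mod_cast h2
    exact hl.one_lt.ne' (Nat.dvd_one.1 h3)
  obtain ⟨P, hPm, hP⟩ := Ideal.exists_le_maximal _ hnu
  have hlP : (l : 𝓞 K) ∈ P := hP (Ideal.mem_span_singleton_self _)
  have hPp := hPm.isPrime
  have hP0 : P ≠ ⊥ := by
    rintro rfl
    rw [Ideal.mem_bot] at hlP
    exact hl.ne_zero (by exact_mod_cast hlP)
  have hnf : ∀ i, ia (B.g i) P ≠ P := by
    intro i
    obtain ⟨j, hj⟩ := B.neg i
    exact not_fixed (B.rt j) hj hPp hl hl2 hlP (e3 j) (ha j)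
  have hn : absNorm P = l := norm_of_nonfixed B.v0 hPp hl hlP (hnf 0) (hnf 1) (by rw [← B.g2]; exact hnf 2)
  have hx : ∀ i, cl P hP0 * ca (B.g i) (cl P hP0) = R.G (e i) := fun i =>
    R.split (B.hv i) (B.rt i) (hr i) (he i) hl (e1 i) (e2 i) (e3 i) (ha i) hPp hP0 hlP hn (hnf i)
  refine ⟨cl P hP0, ?_, hx⟩
  rw [R.G_add, R.G_add, ← hx, ← hx, ← hx] at hs
  have h3 := B.norm (cl P hP0)
  have h4 : (cl P hP0) ^ 2 * (cl P hP0 * ca (B.g 0) (cl P hP0) * ca (B.g 1) (cl P hP0) *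
      ca (B.g 2) (cl P hP0)) = 1 := by
    rw [← hs, sq]
    simp only [mul_assoc, mul_left_comm]
  rw [h3, mul_one] at h4
  exact h4

end Pool.Agent.H471R2
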