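import Pool.Agent.H471R2.Ex.Poly
import Pool.Agent.H471R2.Ex.Da1
import Pool.Agent.H471R2.Ex.Da2
import Pool.Agent.H471R2.Ex.Da3
import Pool.Agent.H471R2.Ex.Da4
import Pool.Agent.H471R2.Ex.Da5
import Pool.Agent.H471R2.Ex.Da6
set_option autoImplicit false
set_option linter.all false
open NumberField Ideal Polynomial

namespace Pool.Agent.H471R2.St

open Pool.Agent.H471R2.Ck

theorem arises_mI {n : ℕ} (h : Ar n (n + 1) sh' idm) : Arises (mI n) := by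
  rw [mI_eq]; exact arises_kr h

theorem arises_mP {n : ℕ} (h : Ar (n + 1) n shm idm) : Arises (mP n) := by
  rw [mP_eq]; exact arises_kr h

/-- the trivial module -/
theorem arises_mI0 : Arises (mI 0) := by
  apply (arises_kr aI0).of_iso
  let E : (Fin (0 + 1) → ZMod 2) × (Fin 0 → ZMod 2) ≃+ (Fin 0 → ZMod 2) × (Fin 1 → ZMod 2) := AddEquiv.prodComm
  refine ⟨E, ?_⟩
  rintro g ⟨x, y⟩
  refine Prod.ext (Subsingleton.elim _ _) ?_
  change x = x + sel g.1 (Dat.ml 1 0 idm y) + sel g.2 (Dat.ml 1 0 idm y)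
  have h0 : Dat.ml 1 0 idm y = 0 := by
    have : y = 0 := Subsingleton.elim _ _
    rw [this, map_zero]
  have h1 : ∀ c : Multiplicative (ZMod 2), sel c (0 : Fin 1 → ZMod 2) = 0 := by
    intro c
    unfold sel
    split_ifs <;> rfl
  rw [h0, h1, h1, add_zero, add_zero]

theorem arises_LR {D m : ℕ} (h : (D, m) ∈ LR) : Arises (mR (pol D m)) := by
  unfold LR at h
  simp only [List.mem_cons, Prod.mk.injEq, List.not_mem_nil, or_false] at h
  rcases h with ⟨rfl, rfl⟩ | ⟨rfl, rfl⟩ | ⟨rfl, rfl⟩ | ⟨rfl, rfl⟩ | ⟨rfl, rfl⟩ | ⟨rfl, rfl⟩ | ⟨rfl, rfl⟩ | ⟨rfl, rfl⟩ | ⟨rfl, rfl⟩ | ⟨rfl, rfl⟩ | ⟨rfl, rfl⟩ | ⟨rfl, rfl⟩ | ⟨rfl, rfl⟩ | ⟨rfl, rfl⟩ | ⟨rfl, rfl⟩ | ⟨rfl, rfl⟩ | ⟨rfl, rfl⟩ | ⟨rfl, rfl⟩ | ⟨rfl, rfl⟩ | ⟨rfl, rfl⟩ | ⟨rfl, rfl⟩ | ⟨rfl, rfl⟩ | ⟨rfl, rfl⟩ | ⟨rfl, rfl⟩ | ⟨rfl, rfl⟩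
  · exact mR_arises 0 0 aX1
  · exact mR_arises 0 1 aY1
  · exact mR_arises 1 0 aX2
  · exact mR_arises 1 1 aY2
  · exact mR_arises 1 3 aQ7
  · exact mR_arises 2 0 aX3
  · exact mR_arises 2 7 aY3
  · exact mR_arises 2 3 aQ11
  · exact mR_arises 2 5 aQ13
  · exact mR_arises 3 0 aX4
  · exact mR_arises 3 1 aY4
  · exact mR_arises 3 5 aQ7s
  · exact mR_arises 3 3 aQ19
  · exact mR_arises 3 9 aQ25
  · exact mR_arises 3 15 aQ31
  · exact mR_arises 4 0 aX5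
  · exact mR_arises 4 19 aY5
  · exact mR_arises 4 5 aQ37
  · exact mR_arises 4 9 aQ41
  · exact mR_arises 4 15 aQ47
  · exact mR_arises 4 23 aQ55
  · exact mR_arises 4 27 aQ59
  · exact mR_arises 4 29 aQ61
  · exact mR_arises 5 0 aX6
  · exact mR_arises 5 21 aY6

/-- **Every module of the list arises.** -/
theorem lower {M : Type} [AddCommGroup M] {ρ : V22 → M → M} (h : Listed ρ) : Arises ρ := by
  rcases h with ⟨n, hn, h⟩ | ⟨n, hn, hn1, h⟩ | ⟨p, n, hp, hn, hb, h⟩ | ⟨n, hn, hn1, h⟩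
  · refine Arises.of_iso ?_ h
    interval_cases n
    · exact arises_mI0
    · exact arises_mI aI1
    · exact arises_mI aI2
    · exact arises_mI aI3
    · exact arises_mI aI4
    · exact arises_mI aI5
  · refine Arises.of_iso ?_ h
    interval_cases n
    · exact arises_mP aP1
    · exact arises_mP aP2
    · exact arises_mP aP3
    · exact arises_mP aP4
    · exact arises_mP aP5
    · exact arises_mP aP6
    · exact arises_mP aP7
  · refine Arises.of_iso ?_ h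
    obtain ⟨D, m, h1, h2⟩ := enumR hp hn hb
    rw [h2]
    exact arises_LR h1
  · refine Arises.of_iso ?_ h
    rw [← pol_zero]
    interval_cases n
    · exact mR'_arises 0 aZ1
    · exact mR'_arises 1 aZ2
    · exact mR'_arises 2 aZ3
    · exact mR'_arises 3 aZ4
    · exact mR'_arises 4 aZ5
    · exact mR'_arises 5 aZ6

end Pool.Agent.H471R2.St
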