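import Pool.Agent.H471R2.Ex.Sound3
set_option autoImplicit false
set_option linter.all false
open NumberField Ideal nonZeroDivisors

namespace Pool.Agent.H471R2.Ck

/-- list lookup -/
noncomputable def gl (l : List ℕ) : ℕ → ℕ :=
  List.rec (motive := fun _ => ℕ → ℕ) (fun _ => 0) (fun a _ ih i => cond (Nat.beq i 0) a (ih (Nat.pred i))) l

/-- all checks -/
noncomputable def Dat.chk (d : Dat) (A A' : ℕ → ℕ → Bool) : Bool :=
  d.c1 && (d.c2 && (d.c3 && (d.c4 A A' && d.c5 A A')))

/-- identity matrix -/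
def idm (k j : ℕ) : Bool := Nat.beq k j
/-- shifted identity: `k = j + 1` -/
def shm (k j : ℕ) : Bool := Nat.beq k (Nat.succ j)
/-- shifted identity: `j = k + 1` -/
def sh' (k j : ℕ) : Bool := Nat.beq j (Nat.succ k)
/-- companion matrix of degree `D` with lower coefficients given by the mask `m` -/
def cmp (D m k j : ℕ) : Bool := Bool.xor (Nat.beq k (Nat.succ j)) (cond (Nat.beq (Nat.succ j) D) (tb m k) false)

/-- the module of a pair of matrices arises -/
def Ar (s t : ℕ) (A A' : ℕ → ℕ → Bool) : Prop :=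
    ∃ (K : Type) (_ : Field K) (_ : NumberField K) (_ : IsGalois ℚ K) (e : V22 ≃* (K ≃ₐ[ℚ] K)),
      IsSummand K e (kron (Dat.ml s t A) (Dat.ml s t A'))

theorem sound' (d : Dat) (A A' : ℕ → ℕ → Bool) (h : d.chk A A' = true) : Ar d.s d.t A A' := by
  unfold Dat.chk at h
  simp only [Bool.and_eq_true] at h
  exact sound d A A' h.1 h.2.1 h.2.2.1 h.2.2.2.1 h.2.2.2.2

end Pool.Agent.H471R2.Ck
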