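import Pool.Agent.H471R2.Ex.Fina
set_option autoImplicit false
set_option linter.all false
open NumberField Ideal Polynomial

namespace Pool.Agent.H471R2.St

open Pool.Agent.H471R2.Ck

theorem two0 : (2 : (ZMod 2)[X]) = 0 := by
  have h : (2 : ZMod 2) = 0 := rfl
  rw [← map_ofNat (C : ZMod 2 →+* (ZMod 2)[X]) 2, h, map_zero]

theorem pol_1_1 : pol 1 1 = X + 1 := by
  unfold pol
  simp only [Finset.sum_range_succ, Finset.sum_range_zero, show bz (tb 1 0) = 1 from rfl, map_one, map_zero, zero_mul, one_mul, pow_zero, pow_one, add_zero, zero_add]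
  try ring

theorem pol_2_1 : pol 2 1 = X ^ 2 + 1 := by
  unfold pol
  simp only [Finset.sum_range_succ, Finset.sum_range_zero, show bz (tb 1 0) = 1 from rfl, show bz (tb 1 1) = 0 from rfl, map_one, map_zero, zero_mul, one_mul, pow_zero, pow_one, add_zero, zero_add]
  try ring

theorem pol_2_3 : pol 2 3 = X ^ 2 + X + 1 := by
  unfold pol
  simp only [Finset.sum_range_succ, Finset.sum_range_zero, show bz (tb 3 0) = 1 from rfl, show bz (tb 3 1) = 1 from rfl, map_one, map_zero, zero_mul, one_mul, pow_zero, pow_one, add_zero, zero_add]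
  try ring

theorem pol_3_7 : pol 3 7 = X ^ 3 + X ^ 2 + X + 1 := by
  unfold pol
  simp only [Finset.sum_range_succ, Finset.sum_range_zero, show bz (tb 7 0) = 1 from rfl, show bz (tb 7 1) = 1 from rfl, show bz (tb 7 2) = 1 from rfl, map_one, map_zero, zero_mul, one_mul, pow_zero, pow_one, add_zero, zero_add]
  try ring

theorem pol_3_3 : pol 3 3 = X ^ 3 + X + 1 := by
  unfold pol
  simp only [Finset.sum_range_succ, Finset.sum_range_zero, show bz (tb 3 0) = 1 from rfl, show bz (tb 3 1) = 1 from rfl, show bz (tb 3 2) = 0 from rfl, map_one, map_zero, zero_mul, one_mul, pow_zero, pow_one, add_zero, zero_add]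
  try ring

theorem pol_3_5 : pol 3 5 = X ^ 3 + X ^ 2 + 1 := by
  unfold pol
  simp only [Finset.sum_range_succ, Finset.sum_range_zero, show bz (tb 5 0) = 1 from rfl, show bz (tb 5 1) = 0 from rfl, show bz (tb 5 2) = 1 from rfl, map_one, map_zero, zero_mul, one_mul, pow_zero, pow_one, add_zero, zero_add]
  try ring

theorem pol_4_1 : pol 4 1 = X ^ 4 + 1 := by
  unfold pol
  simp only [Finset.sum_range_succ, Finset.sum_range_zero, show bz (tb 1 0) = 1 from rfl, show bz (tb 1 1) = 0 from rfl, show bz (tb 1 2) = 0 from rfl, show bz (tb 1 3) = 0 from rfl, map_one, map_zero, zero_mul, one_mul, pow_zero, pow_one, add_zero, zero_add]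
  try ring

theorem pol_4_5 : pol 4 5 = X ^ 4 + X ^ 2 + 1 := by
  unfold pol
  simp only [Finset.sum_range_succ, Finset.sum_range_zero, show bz (tb 5 0) = 1 from rfl, show bz (tb 5 1) = 0 from rfl, show bz (tb 5 2) = 1 from rfl, show bz (tb 5 3) = 0 from rfl, map_one, map_zero, zero_mul, one_mul, pow_zero, pow_one, add_zero, zero_add]
  try ring

theorem pol_4_3 : pol 4 3 = X ^ 4 + X + 1 := by
  unfold pol
  simp only [Finset.sum_range_succ, Finset.sum_range_zero, show bz (tb 3 0) = 1 from rfl, show bz (tb 3 1) = 1 from rfl, show bz (tb 3 2) = 0 from rfl, show bz (tb 3 3) = 0 from rfl, map_one, map_zero, zero_mul, one_mul, pow_zero, pow_one, add_zero, zero_add]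
  try ring

theorem pol_4_9 : pol 4 9 = X ^ 4 + X ^ 3 + 1 := by
  unfold pol
  simp only [Finset.sum_range_succ, Finset.sum_range_zero, show bz (tb 9 0) = 1 from rfl, show bz (tb 9 1) = 0 from rfl, show bz (tb 9 2) = 0 from rfl, show bz (tb 9 3) = 1 from rfl, map_one, map_zero, zero_mul, one_mul, pow_zero, pow_one, add_zero, zero_add]
  try ring

theorem pol_4_15 : pol 4 15 = X ^ 4 + X ^ 3 + X ^ 2 + X + 1 := by
  unfold pol
  simp only [Finset.sum_range_succ, Finset.sum_range_zero, show bz (tb 15 0) = 1 from rfl, show bz (tb 15 1) = 1 from rfl, show bz (tb 15 2) = 1 from rfl, show bz (tb 15 3) = 1 from rfl, map_one, map_zero, zero_mul, one_mul, pow_zero, pow_one, add_zero, zero_add]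
  try ring

theorem pol_5_19 : pol 5 19 = X ^ 5 + X ^ 4 + X + 1 := by
  unfold pol
  simp only [Finset.sum_range_succ, Finset.sum_range_zero, show bz (tb 19 0) = 1 from rfl, show bz (tb 19 1) = 1 from rfl, show bz (tb 19 2) = 0 from rfl, show bz (tb 19 3) = 0 from rfl, show bz (tb 19 4) = 1 from rfl, map_one, map_zero, zero_mul, one_mul, pow_zero, pow_one, add_zero, zero_add]
  try ring

theorem pol_5_5 : pol 5 5 = X ^ 5 + X ^ 2 + 1 := by
  unfold pol
  simp only [Finset.sum_range_succ, Finset.sum_range_zero, show bz (tb 5 0) = 1 from rfl, show bz (tb 5 1) = 0 from rfl, show bz (tb 5 2) = 1 from rfl, show bz (tb 5 3) = 0 from rfl, show bz (tb 5 4) = 0 from rfl, map_one, map_zero, zero_mul, one_mul, pow_zero, pow_one, add_zero, zero_add]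
  try ring

theorem pol_5_9 : pol 5 9 = X ^ 5 + X ^ 3 + 1 := by
  unfold pol
  simp only [Finset.sum_range_succ, Finset.sum_range_zero, show bz (tb 9 0) = 1 from rfl, show bz (tb 9 1) = 0 from rfl, show bz (tb 9 2) = 0 from rfl, show bz (tb 9 3) = 1 from rfl, show bz (tb 9 4) = 0 from rfl, map_one, map_zero, zero_mul, one_mul, pow_zero, pow_one, add_zero, zero_add]
  try ring

theorem pol_5_15 : pol 5 15 = X ^ 5 + X ^ 3 + X ^ 2 + X + 1 := by
  unfold pol
  simp only [Finset.sum_range_succ, Finset.sum_range_zero, show bz (tb 15 0) = 1 from rfl, show bz (tb 15 1) = 1 from rfl, show bz (tb 15 2) = 1 from rfl, show bz (tb 15 3) = 1 from rfl, show bz (tb 15 4) = 0 from rfl, map_one, map_zero, zero_mul, one_mul, pow_zero, pow_one, add_zero, zero_add]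
  try ring

theorem pol_5_23 : pol 5 23 = X ^ 5 + X ^ 4 + X ^ 2 + X + 1 := by
  unfold pol
  simp only [Finset.sum_range_succ, Finset.sum_range_zero, show bz (tb 23 0) = 1 from rfl, show bz (tb 23 1) = 1 from rfl, show bz (tb 23 2) = 1 from rfl, show bz (tb 23 3) = 0 from rfl, show bz (tb 23 4) = 1 from rfl, map_one, map_zero, zero_mul, one_mul, pow_zero, pow_one, add_zero, zero_add]
  try ring

theorem pol_5_27 : pol 5 27 = X ^ 5 + X ^ 4 + X ^ 3 + X + 1 := by
  unfold pol
  simp only [Finset.sum_range_succ, Finset.sum_range_zero, show bz (tb 27 0) = 1 from rfl, show bz (tb 27 1) = 1 from rfl, show bz (tb 27 2) = 0 from rfl, show bz (tb 27 3) = 1 from rfl, show bz (tb 27 4) = 1 from rfl, map_one, map_zero, zero_mul, one_mul, pow_zero, pow_one, add_zero, zero_add]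
  try ring

theorem pol_5_29 : pol 5 29 = X ^ 5 + X ^ 4 + X ^ 3 + X ^ 2 + 1 := by
  unfold pol
  simp only [Finset.sum_range_succ, Finset.sum_range_zero, show bz (tb 29 0) = 1 from rfl, show bz (tb 29 1) = 0 from rfl, show bz (tb 29 2) = 1 from rfl, show bz (tb 29 3) = 1 from rfl, show bz (tb 29 4) = 1 from rfl, map_one, map_zero, zero_mul, one_mul, pow_zero, pow_one, add_zero, zero_add]
  try ring

theorem pol_6_21 : pol 6 21 = X ^ 6 + X ^ 4 + X ^ 2 + 1 := by
  unfold pol
  simp only [Finset.sum_range_succ, Finset.sum_range_zero, show bz (tb 21 0) = 1 from rfl, show bz (tb 21 1) = 0 from rfl, show bz (tb 21 2) = 1 from rfl, show bz (tb 21 3) = 0 from rfl, show bz (tb 21 4) = 1 from rfl, show bz (tb 21 5) = 0 from rfl, map_one, map_zero, zero_mul, one_mul, pow_zero, pow_one, add_zero, zero_add]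
  try ring

theorem pol_5_17 : pol 5 17 = X ^ 5 + X ^ 4 + 1 := by
  unfold pol
  simp only [Finset.sum_range_succ, Finset.sum_range_zero, show bz (tb 17 0) = 1 from rfl, show bz (tb 17 1) = 0 from rfl, show bz (tb 17 2) = 0 from rfl, show bz (tb 17 3) = 0 from rfl, show bz (tb 17 4) = 1 from rfl, map_one, map_zero, zero_mul, one_mul, pow_zero, pow_one, add_zero, zero_add]
  try ring

theorem pol_5_3 : pol 5 3 = X ^ 5 + X + 1 := by
  unfold pol
  simp only [Finset.sum_range_succ, Finset.sum_range_zero, show bz (tb 3 0) = 1 from rfl, show bz (tb 3 1) = 1 from rfl, show bz (tb 3 2) = 0 from rfl, show bz (tb 3 3) = 0 from rfl, show bz (tb 3 4) = 0 from rfl, map_one, map_zero, zero_mul, one_mul, pow_zero, pow_one, add_zero, zero_add]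
  try ring


theorem eval_zero_pol (D m : ℕ) (hD : 0 < D) : (pol D m).eval 0 = bz (tb m 0) := by
  unfold pol
  rw [eval_add, eval_pow, eval_X, zero_pow hD.ne', zero_add, eval_finset_sum, Finset.sum_eq_single 0]
  · simp
  · intro k _ hk
    rw [eval_mul, eval_pow, eval_X, zero_pow hk, mul_zero]
  · intro h; exact absurd (Finset.mem_range.2 hD) h

theorem eval_one_pol (D m : ℕ) : (pol D m).eval 1 = 1 + ∑ k ∈ Finset.range D, bz (tb m k) := by
  unfold pol
  rw [eval_add, eval_pow, eval_X, one_pow, eval_finset_sum]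
  congr 1
  apply Finset.sum_congr rfl
  intro k _
  rw [eval_mul, eval_pow, eval_X, one_pow, mul_one, eval_C]

theorem irr_cond {D m : ℕ} (hD : 2 ≤ D) (h : Irreducible (pol D m)) :
    bz (tb m 0) = 1 ∧ ∑ k ∈ Finset.range D, bz (tb m k) = 0 := by
  have hno : ∀ x : ZMod 2, (pol D m).eval x ≠ 0 := by
    intro x hx
    have h1 := degree_eq_one_of_irreducible_of_root h hx
    have h2 : (pol D m).natDegree = 1 := natDegree_eq_of_degree_eq_some h1
    rw [pol_natDegree] at h2
    omega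
  constructor
  · have := hno 0
    rw [eval_zero_pol D m (by omega)] at this
    rcases Kr.k_cases (bz (tb m 0)) with h1 | h1
    · exact absurd h1 this
    · exact h1
  · have := hno 1
    rw [eval_one_pol] at this
    rcases Kr.k_cases (∑ k ∈ Finset.range D, bz (tb m k)) with h1 | h1
    · exact h1
    · rw [h1] at this
      exact absurd (by decide : (1 : ZMod 2) + 1 = 0) this

theorem pol_not_unit {D m : ℕ} (hD : 0 < D) : ¬ IsUnit (pol D m) := by
  intro h
  have := natDegree_eq_zero_of_isUnit h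
  rw [pol_natDegree] at this
  omega

theorem pol_red {D m D1 m1 D2 m2 : ℕ} (h : pol D m = pol D1 m1 * pol D2 m2) (h1 : 0 < D1) (h2 : 0 < D2) :
    ¬ Irreducible (pol D m) := by
  intro hi
  rcases hi.isUnit_or_isUnit h with h3 | h3
  · exact pol_not_unit h1 h3
  · exact pol_not_unit h2 h3

theorem red1 : ¬ Irreducible (pol 4 5) := by
  apply pol_red (D1 := 2) (m1 := 3) (D2 := 2) (m2 := 3) _ (by norm_num) (by norm_num)
  rw [pol_4_5, pol_2_3]
  linear_combination (-X ^ 3 - X ^ 2 - X : (ZMod 2)[X]) * two0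

theorem red2 : ¬ Irreducible (pol 5 17) := by
  apply pol_red (D1 := 2) (m1 := 3) (D2 := 3) (m2 := 3) _ (by norm_num) (by norm_num)
  rw [pol_5_17, pol_2_3, pol_3_3]
  linear_combination (-X ^ 3 - X ^ 2 - X : (ZMod 2)[X]) * two0

theorem red3 : ¬ Irreducible (pol 5 3) := by
  apply pol_red (D1 := 2) (m1 := 3) (D2 := 3) (m2 := 5) _ (by norm_num) (by norm_num)
  rw [pol_5_3, pol_2_3, pol_3_5]
  linear_combination (-X ^ 4 - X ^ 3 - X ^ 2 : (ZMod 2)[X]) * two0

theorem pw2 : pol 1 1 ^ 2 = pol 2 1 := by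
  rw [pol_1_1, pol_2_1]
  linear_combination (X : (ZMod 2)[X]) * two0

theorem pw3 : pol 1 1 ^ 3 = pol 3 7 := by
  rw [pol_1_1, pol_3_7]
  linear_combination (X ^ 2 + X : (ZMod 2)[X]) * two0

theorem pw4 : pol 1 1 ^ 4 = pol 4 1 := by
  rw [pol_1_1, pol_4_1]
  linear_combination (2 * X ^ 3 + 3 * X ^ 2 + 2 * X : (ZMod 2)[X]) * two0

theorem pw5 : pol 1 1 ^ 5 = pol 5 19 := by
  rw [pol_1_1, pol_5_19]
  linear_combination (2 * X ^ 4 + 5 * X ^ 3 + 5 * X ^ 2 + 2 * X : (ZMod 2)[X]) * two0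

theorem pw6 : pol 1 1 ^ 6 = pol 6 21 := by
  rw [pol_1_1, pol_6_21]
  linear_combination (3 * X ^ 5 + 7 * X ^ 4 + 10 * X ^ 3 + 7 * X ^ 2 + 3 * X : (ZMod 2)[X]) * two0

theorem pw7 : pol 2 3 ^ 2 = pol 4 5 := by
  rw [pol_2_3, pol_4_5]
  linear_combination (X ^ 3 + X ^ 2 + X : (ZMod 2)[X]) * two0

/-- every polynomial of given degree is a `pol` -/
theorem exists_mask (p : (ZMod 2)[X]) {d : ℕ} (hd : p.natDegree = d) (hp : p ≠ 0)
    (h : ∀ c : Fin d → ZMod 2, ∃ m : Fin (2 ^ d), ∀ k : Fin d, bz (tb m k) = c k) :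
    ∃ m : Fin (2 ^ d), p = pol d m := by
  obtain ⟨m, hm⟩ := h (fun k => p.coeff k)
  refine ⟨m, ?_⟩
  have h1 := p.as_sum_range_C_mul_X_pow
  rw [hd, Finset.sum_range_succ] at h1
  have h2 : p.coeff d = 1 := by
    rw [← hd]
    rcases Kr.k_cases (p.coeff p.natDegree) with h3 | h3
    · exact absurd h3 (by
        change p.leadingCoeff ≠ 0
        rwa [Ne, leadingCoeff_eq_zero])
    · exact h3
  rw [h2, C_1, one_mul, add_comm] at h1
  conv_lhs => rw [h1]
  unfold pol
  congr 1
  apply Finset.sum_congr rfl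
  intro k hk
  rw [hm ⟨k, Finset.mem_range.1 hk⟩]

/-- the list of the 25 pairs -/
def LR : List (ℕ × ℕ) := [(1, 0), (1, 1), (2, 0), (2, 1), (2, 3), (3, 0), (3, 7), (3, 3), (3, 5), (4, 0), (4, 1), (4, 5), (4, 3), (4, 9), (4, 15), (5, 0), (5, 19), (5, 5), (5, 9), (5, 15), (5, 23), (5, 27), (5, 29), (6, 0), (6, 21)]

theorem enumR {p : (ZMod 2)[X]} {n : ℕ} (hp : Irreducible p) (hn : 1 ≤ n)
    (hb : n * p.natDegree ≤ 5 ∨ (p.natDegree = 1 ∧ n ≤ 6)) : ∃ D m, (D, m) ∈ LR ∧ p ^ n = pol D m := by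
  have hd0 : 0 < p.natDegree := hp.natDegree_pos
  have hd5 : p.natDegree ≤ 5 := by
    rcases hb with h | ⟨h, _⟩
    · nlinarith
    · omega
  obtain ⟨d, hd⟩ : ∃ d, p.natDegree = d := ⟨_, rfl⟩
  rw [hd] at hd0 hd5 hb
  interval_cases d
  · obtain ⟨m, rfl⟩ := exists_mask p hd hp.ne_zero (by decide)
    have hn6 : n ≤ 6 := by omega
    have hm : (m : ℕ) = 0 ∨ (m : ℕ) = 1 := by
      have := m.2
      omega
    rcases hm with hm | hm <;> rw [hm]
    · refine ⟨n, 0, ?_, ?_⟩
      · interval_cases n <;> decide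
      · rw [pol_zero, pol_zero, pow_one]
    · interval_cases n
      · exact ⟨1, 1, by decide, pow_one _⟩
      · exact ⟨2, 1, by decide, pw2⟩
      · exact ⟨3, 7, by decide, pw3⟩
      · exact ⟨4, 1, by decide, pw4⟩
      · exact ⟨5, 19, by decide, pw5⟩
      · exact ⟨6, 21, by decide, pw6⟩
  · obtain ⟨m, rfl⟩ := exists_mask p hd hp.ne_zero (by decide)
    have hm : (m : ℕ) = 3 := by
      obtain ⟨h1, h2⟩ := irr_cond (by norm_num) hp
      clear hp hd hb
      revert m
      decide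
    rw [hm]
    have hn2 : n ≤ 2 := by omega
    interval_cases n
    · exact ⟨2, 3, by decide, pow_one _⟩
    · exact ⟨4, 5, by decide, pw7⟩
  · obtain ⟨m, rfl⟩ := exists_mask p hd hp.ne_zero (by decide)
    have hm : (m : ℕ) = 3 ∨ (m : ℕ) = 5 := by
      obtain ⟨h1, h2⟩ := irr_cond (by norm_num) hp
      clear hp hd hb
      revert m
      decide
    have hn1 : n = 1 := by omega
    subst hn1
    rcases hm with hm | hm <;> rw [hm]
    · exact ⟨3, 3, by decide, pow_one _⟩
    · exact ⟨3, 5, by decide, pow_one _⟩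
  · obtain ⟨m, rfl⟩ := exists_mask p hd hp.ne_zero (by decide)
    have hm : (m : ℕ) = 3 ∨ (m : ℕ) = 5 ∨ (m : ℕ) = 9 ∨ (m : ℕ) = 15 := by
      obtain ⟨h1, h2⟩ := irr_cond (by norm_num) hp
      clear hp hd hb
      revert m
      decide
    have hn1 : n = 1 := by omega
    subst hn1
    rcases hm with hm | hm | hm | hm <;> rw [hm]
    · exact ⟨4, 3, by decide, pow_one _⟩
    · rw [hm] at hp; exact absurd hp red1
    · exact ⟨4, 9, by decide, pow_one _⟩
    · exact ⟨4, 15, by decide, pow_one _⟩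
  · obtain ⟨m, rfl⟩ := exists_mask p hd hp.ne_zero (by decide)
    have hm : (m : ℕ) = 3 ∨ (m : ℕ) = 5 ∨ (m : ℕ) = 9 ∨ (m : ℕ) = 15 ∨ (m : ℕ) = 17 ∨ (m : ℕ) = 23 ∨
        (m : ℕ) = 27 ∨ (m : ℕ) = 29 := by
      obtain ⟨h1, h2⟩ := irr_cond (by norm_num) hp
      clear hp hd hb
      revert m
      decide
    have hn1 : n = 1 := by omega
    subst hn1
    rcases hm with hm | hm | hm | hm | hm | hm | hm | hm <;> rw [hm]
    · rw [hm] at hp; exact absurd hp red3
    · exact ⟨5, 5, by decide, pow_one _⟩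
    · exact ⟨5, 9, by decide, pow_one _⟩
    · exact ⟨5, 15, by decide, pow_one _⟩
    · rw [hm] at hp; exact absurd hp red2
    · exact ⟨5, 23, by decide, pow_one _⟩
    · exact ⟨5, 27, by decide, pow_one _⟩
    · exact ⟨5, 29, by decide, pow_one _⟩

end Pool.Agent.H471R2.St
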