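import Pool.Agent.H471R2.Bq.Upper
import Pool.Agent.H471R2.Bridge
set_option autoImplicit false
set_option linter.all false
open NumberField Ideal nonZeroDivisors

namespace Pool.Agent.H471R2

variable {K : Type*} [Field K] [NumberField K]

theorem pq_one {z : ℚˣ} (h : pq K z = 1) : (z : ℚ) = 1 ∨ (z : ℚ) = -1 := by
  have h8 := h
  unfold pq at h8
  rw [MonoidHom.comp_apply, toPrincipalIdeal_eq_iff] at h8
  have hzK : (Units.map (algebraMap ℚ K).toMonoidHom z : K) = ((z : ℚ) : K) := by simp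
  rw [hzK] at h8
  have i1 : ∀ w : ℚ, FractionalIdeal.spanSingleton (𝓞 K)⁰ ((w : ℚ) : K) = 1 → IsIntegral ℤ w := by
    intro w hw
    have : ((w : ℚ) : K) ∈ (1 : FractionalIdeal (𝓞 K)⁰ K) := by
      rw [← hw]; exact FractionalIdeal.mem_spanSingleton_self _ _
    rw [FractionalIdeal.mem_one_iff] at this
    obtain ⟨y, hy⟩ := this
    have hint : IsIntegral ℤ ((w : ℚ) : K) := by rw [← hy]; exact y.isIntegral_coe
    exact (isIntegral_algebraMap_iff (R := ℤ) (A := ℚ) (B := K) (algebraMap ℚ K).injective (x := w)).1 hint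
  have i2 : IsIntegral ℤ ((z⁻¹ : ℚˣ) : ℚ) := by
    apply i1
    have : FractionalIdeal.spanSingleton (𝓞 K)⁰ (((z⁻¹ : ℚˣ) : ℚ) : K) *
        FractionalIdeal.spanSingleton (𝓞 K)⁰ ((z : ℚ) : K) = 1 := by
      rw [FractionalIdeal.spanSingleton_mul_spanSingleton]
      rw [← Rat.cast_mul]
      simp
    have h8' : FractionalIdeal.spanSingleton (𝓞 K)⁰ ((z : ℚ) : K) = 1 := by simpa using h8
    rwa [h8', mul_one] at this
  have i3 : IsIntegral ℤ (z : ℚ) := by
    apply i1
    simpa using h8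
  obtain ⟨a, ha⟩ := IsIntegrallyClosed.isIntegral_iff.1 i3
  obtain ⟨b, hb⟩ := IsIntegrallyClosed.isIntegral_iff.1 i2
  have hab : a * b = 1 := by
    have : (a : ℚ) * (b : ℚ) = 1 := by
      have ha' : (a : ℚ) = z := ha
      have hb' : (b : ℚ) = (z⁻¹ : ℚˣ) := hb
      rw [ha', hb']; simp
    exact_mod_cast this
  have ha' : (a : ℚ) = z := ha
  rcases Int.eq_one_or_neg_one_of_mul_eq_one hab with h | h
  · left; rw [← ha', h]; norm_num
  · right; rw [← ha', h]; norm_num

variable (K) in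
/-- square roots of the ideals generated by some distinct primes -/
structure Ram (n : ℕ) where
  p : Fin n → ℕ
  hp : ∀ i, (p i).Prime
  inj : Function.Injective p
  jj : Fin n → FI K
  hjj : ∀ i, jj i ^ 2 = pq K (Units.mk0 (p i : ℚ) (by exact_mod_cast (hp i).ne_zero))

namespace Ram
variable {n : ℕ} (R : Ram K n)

/-- the prime as a unit of `ℚ` -/
noncomputable def pu (i : Fin n) : ℚˣ := Units.mk0 (R.p i : ℚ) (by exact_mod_cast (R.hp i).ne_zero)

/-- product of ideals -/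
noncomputable def jh (e : Fin n → ZMod 2) : FI K := ∏ i, R.jj i ^ (e i).val

/-- product of primes -/
noncomputable def ph (e : Fin n → ZMod 2) : ℚˣ := ∏ i, R.pu i ^ (e i).val

theorem jh_sq (e : Fin n → ZMod 2) : R.jh e ^ 2 = pq K (R.ph e) := by
  unfold jh ph
  rw [← Finset.prod_pow, map_prod]
  apply Finset.prod_congr rfl
  intro i _
  rw [← pow_mul, mul_comm, pow_mul, R.hjj, map_pow]
  rfl

/-- valuation as an additive function on units -/
theorem val_mul (q : ℕ) (hq : q.Prime) (a b : ℚˣ) :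
    padicValRat q ((a * b : ℚˣ) : ℚ) = padicValRat q (a : ℚ) + padicValRat q (b : ℚ) := by
  haveI : Fact q.Prime := ⟨hq⟩
  rw [Units.val_mul]
  exact padicValRat.mul a.ne_zero b.ne_zero

theorem val_pow (q : ℕ) (hq : q.Prime) (a : ℚˣ) (k : ℕ) :
    padicValRat q ((a ^ k : ℚˣ) : ℚ) = k * padicValRat q (a : ℚ) := by
  haveI : Fact q.Prime := ⟨hq⟩
  rw [Units.val_pow_eq_pow_val]
  exact padicValRat.pow _

theorem val_prod (q : ℕ) (hq : q.Prime) (f : Fin n → ℚˣ) :
    padicValRat q ((∏ i, f i : ℚˣ) : ℚ) = ∑ i, padicValRat q (f i : ℚ) := by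
  haveI : Fact q.Prime := ⟨hq⟩
  have h : ∀ s : Finset (Fin n), padicValRat q ((∏ i ∈ s, f i : ℚˣ) : ℚ) = ∑ i ∈ s, padicValRat q (f i : ℚ) := by
    classical
    intro s
    induction s using Finset.induction_on with
    | empty => simp
    | insert a s ha ih => rw [Finset.prod_insert ha, Finset.sum_insert ha, val_mul q hq, ih]
  exact h Finset.univ

theorem val_pu (i : Fin n) (q : ℕ) (hq : q.Prime) :
    padicValRat q (R.pu i : ℚ) = if q = R.p i then 1 else 0 := by
  haveI : Fact q.Prime := ⟨hq⟩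
  unfold pu
  rw [Units.val_mk0, padicValRat.of_nat]
  split_ifs with h
  · subst h; rw [padicValNat_self]; rfl
  · rw [padicValNat_primes (hq := ⟨R.hp i⟩) h]; rfl

theorem val_ph (e : Fin n → ZMod 2) (q : ℕ) (hq : q.Prime) :
    padicValRat q (R.ph e : ℚ) = ∑ i, if q = R.p i then ((e i).val : ℤ) else 0 := by
  unfold ph
  rw [val_prod q hq]
  apply Finset.sum_congr rfl
  intro i _
  rw [val_pow q hq, R.val_pu i q hq]
  split_ifs <;> simp

theorem val_ph_self (e : Fin n → ZMod 2) (j : Fin n) :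
    padicValRat (R.p j) (R.ph e : ℚ) = ((e j).val : ℤ) := by
  rw [R.val_ph e _ (R.hp j), Finset.sum_eq_single j]
  · simp
  · intro i _ hi
    rw [if_neg]
    intro h
    exact hi (R.inj h).symm
  · intro h; exact absurd (Finset.mem_univ j) h

theorem val_ph_other (e : Fin n → ZMod 2) (q : ℕ) (hq : q.Prime) (h : ∀ i, q ≠ R.p i) :
    padicValRat q (R.ph e : ℚ) = 0 := by
  rw [R.val_ph e q hq]
  apply Finset.sum_eq_zero
  intro i _
  rw [if_neg (h i)]

/-- parity vector -/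
noncomputable def par (r : ℚˣ) : Fin n → ZMod 2 := fun i => ((padicValRat (R.p i) (r : ℚ) : ℤ) : ZMod 2)

theorem par_mul (a b : ℚˣ) : R.par (a * b) = R.par a + R.par b := by
  funext i
  simp only [par, Pi.add_apply]
  rw [val_mul _ (R.hp i)]; push_cast; rfl

theorem par_ph (e : Fin n → ZMod 2) : R.par (R.ph e) = e := by
  funext i
  simp only [par]
  rw [R.val_ph_self]
  simp

theorem even_iff_par (a : ℤ) : Even a ↔ ((a : ℤ) : ZMod 2) = 0 := by
  rw [ZMod.intCast_zmod_eq_zero_iff_dvd]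
  rw [even_iff_two_dvd]; rfl

theorem rep {J : FI K} {r : ℚˣ} (hJ : J ^ 2 = pq K r)
    (hr : ∀ q : ℕ, q.Prime → (∀ i, q ≠ R.p i) → Even (padicValRat q (r : ℚ))) :
    ∃ c : ℚˣ, J = R.jh (R.par r) * pq K c := by
  set e := R.par r with he
  set r' : ℚˣ := r * (R.ph e)⁻¹ with hr'
  have hinv : ∀ q : ℕ, q.Prime → padicValRat q (((R.ph e)⁻¹ : ℚˣ) : ℚ) = - padicValRat q (R.ph e : ℚ) := by
    intro q hq
    haveI : Fact q.Prime := ⟨hq⟩
    rw [Units.val_inv_eq_inv_val, padicValRat.inv]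
  have hev : ∀ q : ℕ, q.Prime → Even (padicValRat q (r' : ℚ)) := by
    intro q hq
    rw [hr', val_mul q hq, hinv q hq]
    by_cases h : ∃ i, q = R.p i
    · obtain ⟨i, rfl⟩ := h
      rw [R.val_ph_self, even_iff_par]
      push_cast
      rw [ZMod.natCast_val, ZMod.cast_id', he]
      simp only [par, id]
      rw [Kr.neg_k]
      exact Kr.add_self_k _
    · push Not at h
      rw [R.val_ph_other e q hq h, neg_zero, add_zero]
      exact hr q hq h
  obtain ⟨c, hc, hcc⟩ := rat_sq_of_even r'.ne_zero hev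
  refine ⟨Units.mk0 c hc, ?_⟩
  have h1 : (J * (R.jh e)⁻¹) ^ 2 = pq K r' := by
    rw [mul_pow, hJ, inv_pow, R.jh_sq, hr', map_mul, map_inv]
  have h2 := pq_sq_of h1 hc hcc
  rw [← h2]
  rw [mul_comm (R.jh e), inv_mul_cancel_right]

/-- class of the product -/
noncomputable def G (e : Fin n → ZMod 2) : ClassGroup (𝓞 K) := ClassGroup.mk K (R.jh e)

theorem mk_pq (c : ℚˣ) : ClassGroup.mk K (pq K c) = 1 := mk_tpi _

theorem G_of {J : FI K} {r : ℚˣ} (hJ : J ^ 2 = pq K r)
    (hr : ∀ q : ℕ, q.Prime → (∀ i, q ≠ R.p i) → Even (padicValRat q (r : ℚ))) :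
    ClassGroup.mk K J = R.G (R.par r) := by
  obtain ⟨c, hc⟩ := R.rep hJ hr
  conv_lhs => rw [hc]
  rw [map_mul, mk_pq, mul_one]; rfl

theorem G_add (e e' : Fin n → ZMod 2) : R.G (e + e') = R.G e * R.G e' := by
  have h1 : (R.jh e * R.jh e') ^ 2 = pq K (R.ph e * R.ph e') := by
    rw [mul_pow, R.jh_sq, R.jh_sq, map_mul]
  have h2 := R.G_of h1 (by
    intro q hq h
    rw [val_mul q hq, R.val_ph_other e q hq h, R.val_ph_other e' q hq h]
    simp)
  rw [R.par_mul, R.par_ph, R.par_ph] at h2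
  rw [← h2, map_mul]; rfl

theorem G_zero : R.G 0 = 1 := by
  have := R.G_add 0 0
  rw [add_zero] at this
  exact mul_eq_left.1 this.symm

theorem G_sq (e : Fin n → ZMod 2) : R.G e ^ 2 = 1 := by
  rw [sq, ← R.G_add]
  have : e + e = 0 := by
    funext i
    exact Kr.add_self_k _
  rw [this, R.G_zero]

theorem jh_PQ {e : Fin n → ZMod 2} (h : R.jh e ∈ PQ K) : e = 0 := by
  obtain ⟨c, hc⟩ := h
  have h1 : pq K (R.ph e * (c ^ 2)⁻¹) = 1 := by
    rw [map_mul, map_inv, map_pow, hc, ← R.jh_sq]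
    simp
  have h2 := pq_one h1
  funext i
  have h3 : padicValRat (R.p i) ((R.ph e * (c ^ 2)⁻¹ : ℚˣ) : ℚ) = 0 := by
    haveI : Fact (R.p i).Prime := ⟨R.hp i⟩
    rcases h2 with h | h
    · rw [h]; simp
    · rw [h]; simp
  rw [val_mul _ (R.hp i), R.val_ph_self] at h3
  haveI : Fact (R.p i).Prime := ⟨R.hp i⟩
  rw [Units.val_inv_eq_inv_val, padicValRat.inv, val_pow _ (R.hp i)] at h3
  have h4 : Even (((e i).val : ℕ) : ℤ) := ⟨padicValRat (R.p i) (c : ℚ), by push_cast at h3; linarith⟩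
  rw [even_iff_par] at h4
  simpa using h4

/-- the class modulo rational ideals -/
noncomputable def gh (e : Fin n → ZMod 2) : FI K ⧸ PQ K := QuotientGroup.mk (R.jh e)

theorem gh_inj {e e' : Fin n → ZMod 2} (h : R.gh e = R.gh e') : e = e' := by
  unfold gh at h
  rw [QuotientGroup.eq] at h
  -- (jh e)⁻¹ * jh e' ∈ PQ
  have h1 : ((R.jh e)⁻¹ * R.jh e') ^ 2 = pq K ((R.ph e)⁻¹ * R.ph e') := by
    rw [mul_pow, inv_pow, R.jh_sq, R.jh_sq, map_mul, map_inv]
  obtain ⟨c, hc⟩ := R.rep h1 (by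
    intro q hq hh
    haveI : Fact q.Prime := ⟨hq⟩
    rw [val_mul q hq, Units.val_inv_eq_inv_val, padicValRat.inv, R.val_ph_other e q hq hh,
      R.val_ph_other e' q hq hh]
    simp)
  have h2 : R.par ((R.ph e)⁻¹ * R.ph e') = e + e' := by
    funext i
    haveI : Fact (R.p i).Prime := ⟨R.hp i⟩
    simp only [par, Pi.add_apply]
    rw [val_mul _ (R.hp i), Units.val_inv_eq_inv_val, padicValRat.inv, R.val_ph_self, R.val_ph_self]
    push_cast
    rw [ZMod.natCast_val, ZMod.natCast_val, ZMod.cast_id']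
    simp only [id]
    rw [Kr.neg_k]
  rw [h2] at hc
  have h3 : R.jh (e + e') ∈ PQ K := by
    have : R.jh (e + e') = ((R.jh e)⁻¹ * R.jh e') * (pq K c)⁻¹ := by rw [hc]; group
    rw [this]
    exact (PQ K).mul_mem h ((PQ K).inv_mem ⟨c, rfl⟩)
  have h4 := R.jh_PQ h3
  funext i
  exact Kr.eq_of_add_k (congrFun h4 i)

theorem gh_NN {e : Fin n → ZMod 2} (h : R.G e = 1) : R.gh e ∈ NN K := by
  refine ⟨R.jh e, ⟨?_, h⟩, rfl⟩
  change (R.jh e) ^ 2 ∈ PQ K
  rw [R.jh_sq]; exact ⟨_, rfl⟩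

/-- exactness of the relations -/
theorem exact_rel (hN : Finite (NN K)) (hN2 : Nat.card (NN K) ≤ 32) (v : Fin 5 → (Fin n → ZMod 2))
    (hv : ∀ l, R.G (v l) = 1) (hli : ∀ c : Fin 5 → ZMod 2, ∑ l, c l • v l = 0 → c = 0)
    {e : Fin n → ZMod 2} (he : R.G e = 1) : ∃ c : Fin 5 → ZMod 2, e = ∑ l, c l • v l := by
  classical
  have hGs : ∀ c : Fin 5 → ZMod 2, R.G (∑ l, c l • v l) = 1 := by
    intro c
    have : ∀ s : Finset (Fin 5), R.G (∑ l ∈ s, c l • v l) = 1 := by
      intro s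
      induction s using Finset.induction_on with
      | empty => rw [Finset.sum_empty]; exact R.G_zero
      | insert a s ha ih =>
        rw [Finset.sum_insert ha, R.G_add, ih, mul_one]
        rcases Kr.k_cases (c a) with h | h
        · rw [h, zero_smul]; exact R.G_zero
        · rw [h, one_smul]; exact hv a
    exact this Finset.univ
  let f : (Fin 5 → ZMod 2) → NN K := fun c => ⟨R.gh (∑ l, c l • v l), R.gh_NN (hGs c)⟩
  have hf : Function.Injective f := by
    intro c c' h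
    have h1 := R.gh_inj (congrArg Subtype.val h)
    have h2 : ∑ l, (c - c') l • v l = 0 := by
      simp only [Pi.sub_apply, sub_smul, Finset.sum_sub_distrib]
      rw [h1, sub_self]
    exact sub_eq_zero.1 (hli _ h2)
  have hcard : Nat.card (NN K) ≤ Nat.card (Fin 5 → ZMod 2) := by
    refine hN2.trans ?_
    simp
  haveI := Fintype.ofFinite (NN K)
  have hbij : Function.Bijective f := by
    rw [Fintype.bijective_iff_injective_and_card]
    refine ⟨hf, ?_⟩
    have h3 := Fintype.card_le_of_injective f hf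
    rw [Nat.card_eq_fintype_card, Nat.card_eq_fintype_card] at hcard
    exact le_antisymm h3 hcard
  obtain ⟨c, hc⟩ := hbij.2 ⟨R.gh e, R.gh_NN he⟩
  exact ⟨c, (R.gh_inj (congrArg Subtype.val hc)).symm⟩

end Ram

end Pool.Agent.H471R2
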