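import Pool.Agent.H471R2.Ex.Sym
set_option autoImplicit false
set_option linter.all false
open NumberField Ideal nonZeroDivisors

namespace Pool.Agent.H471R2

variable {K : Type*} [Field K] [NumberField K] [IsGalois ℚ K] {σ τ : K ≃ₐ[ℚ] K}

theorem even_of_step {p : ℕ} (hp : p.Prime) {r : ℤ} (hr : r ≠ 0)
    (h : ∀ k : ℕ, (p : ℤ) ^ (2 * k + 1) ∣ r → (p : ℤ) ^ (2 * k + 2) ∣ r) :
    Even (padicValRat p (r : ℚ)) := by
  haveI : Fact p.Prime := ⟨hp⟩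
  rw [padicValRat.of_int]
  by_contra hodd
  have hodd' : Odd (padicValInt p r) := by
    rw [← Nat.not_even_iff_odd]
    intro h1
    exact hodd (by exact_mod_cast h1)
  obtain ⟨k, hk⟩ := hodd'
  have h1 : (p : ℤ) ^ (2 * k + 1) ∣ r := by
    rw [padicValInt_dvd_iff]
    right; omega
  have h2 := h k h1
  rw [padicValInt_dvd_iff] at h2
  rcases h2 with h3 | h3
  · exact hr h3
  · omega

/-- one of the three components of a 2-torsion class -/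
theorem side (hv : V4 σ τ) {D : ℤ} {s : 𝓞 K} (h : Rt σ τ D s) {n : ℕ} (R : Ram K n)
    {I : Ideal (𝓞 K)} (hI : I ≠ ⊥) {α : 𝓞 K} (hα : α ≠ 0) (hsq : I ^ 2 = span {α})
    (hN : Algebra.intNorm ℤ (𝓞 K) α = (absNorm I : ℤ) ^ 2)
    (hram : ∀ q : ℕ, q.Prime → (∀ i, q ≠ R.p i) → ¬ (q : ℤ) ∣ D ∧ (q = 2 → D % 4 = 1)) :
    ∃ (r : ℤ) (hr : r ≠ 0) (m t b : ℤ), m ≠ 0 ∧ r = (absNorm I : ℤ) * m ∧ 4 * m = t ^ 2 - b ^ 2 * D ∧
      (∀ q : ℕ, q.Prime → (q ≠ 2 ∧ ¬ (q : ℤ) ∣ D) ∨ (q = 2 ∧ D % 4 = 1) →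
        Even (padicValRat q (r : ℚ))) ∧
      cl (I * ia σ I) (mul_ne_zero hI (ia_ne_bot σ hI)) =
        R.G (R.par (Units.mk0 (r : ℚ) (by exact_mod_cast hr))) := by
  have e1 : ra σ (α * ra σ α) = α * ra σ α := by
    rw [map_mul, ← ra_mul, hv.ss, ra_one, mul_comm]
  have e2 : (α * ra σ α) * ra τ (α * ra σ α) = ((absNorm I : ℤ) : 𝓞 K) * ((absNorm I : ℤ) : 𝓞 K) := by
    have : (α * ra σ α) * ra τ (α * ra σ α) = ((Algebra.intNorm ℤ (𝓞 K) α : ℤ) : 𝓞 K) := by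
      rw [← hv.norm_elt α, map_mul, ← ra_mul τ σ, ← hv.comm]; ring
    rw [this, hN]; push_cast; ring
  have e3 : (I * ia σ I) ^ 2 = span {α * ra σ α} := by
    rw [mul_pow, ← ia_pow, hsq, ia_span, Ideal.span_singleton_mul_span_singleton]
  obtain ⟨η, m, hη0, hησ, hm0, hηm, hJ⟩ := exists_rat_square hv h e1 (absNorm_ne hI) e2 e3
  have hτη0 : ra τ η ≠ 0 := by
    rw [Ne, map_eq_zero_iff (ra τ) (ra τ).injective]; exact hη0
  have hτησ : ra σ (ra τ η) = ra τ η := by rw [← ra_mul, hv.comm, ra_mul, hησ]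
  set r : ℤ := (absNorm I : ℤ) * m with hr
  have hr0 : r ≠ 0 := mul_ne_zero (absNorm_ne hI) hm0
  have hJ0 : I * ia σ I * span {ra τ η} ≠ ⊥ :=
    mul_ne_zero (mul_ne_zero hI (ia_ne_bot σ hI)) (span_ne_bot hτη0)
  have hJ2 : (I * ia σ I * span {ra τ η}) ^ 2 ≠ ⊥ := pow_ne_zero 2 hJ0
  have hev : ∀ q : ℕ, q.Prime → (q ≠ 2 ∧ ¬ (q : ℤ) ∣ D) ∨ (q = 2 ∧ D % 4 = 1) →
        Even (padicValRat q (r : ℚ)) := by
    intro q hq hh
    apply even_of_step hq hr0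
    intro k hk
    rcases hh with ⟨h1, h2⟩ | ⟨h1, h2⟩
    · have hqI : Prime (q : ℤ) := Nat.prime_iff_prime_int.1 hq
      have hp2' : ¬ (q : ℤ) ∣ 2 := by
        intro h3
        have : q ∣ 2 := by exact_mod_cast h3
        exact h1 ((Nat.prime_dvd_prime_iff_eq hq Nat.prime_two).1 this)
      exact even_odd_prime hv h hI hτησ hr0 hJ hqI hp2' h2 hk
    · subst h1
      exact even_two hv h hI hτησ hr0 hJ h2 hk
  -- t and b
  obtain ⟨t, ht⟩ : ∃ t : ℤ, η + ra τ η = (t : 𝓞 K) := by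
    apply hv.fixed_int
    · rw [map_add, hησ, hτησ]
    · rw [map_add, ← ra_mul, hv.tt, ra_one, add_comm]
  obtain ⟨b, hb⟩ : ∃ b : ℤ, η - ra τ η = (b : 𝓞 K) * s := by
    apply anti hv h
    · rw [map_sub, hησ, hτησ]
    · rw [map_sub, ← ra_mul, hv.tt, ra_one]; ring
  refine ⟨r, hr0, m, t, b, hm0, rfl, ?_, hev, ?_⟩
  · have : ((4 * m : ℤ) : 𝓞 K) = ((t ^ 2 - b ^ 2 * D : ℤ) : 𝓞 K) := by
      push_cast
      rw [← h.sq]
      have e1 : ((b : ℤ) : 𝓞 K) ^ 2 * (s * s) = ((b : 𝓞 K) * s) ^ 2 := by ring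
      rw [e1, ← hb, ← ht, ← hηm]; ring
    exact_mod_cast this
  · have h1 : toFI _ hJ0 ^ 2 = pq K (Units.mk0 (r : ℚ) (by exact_mod_cast hr0)) := by
      rw [← toFI_sq _ _ hJ2, toFI_congr hJ, toFI_span_int hr0]
    have h2 := R.G_of h1 (by
      intro q hq hh
      rw [Units.val_mk0]
      obtain ⟨h3, h4⟩ := hram q hq hh
      apply hev q hq
      by_cases h5 : q = 2
      · right; exact ⟨h5, h4 h5⟩
      · left; exact ⟨h5, h3⟩)
    rw [← h2, mk_toFI, cl_mul _ _ (mul_ne_zero hI (ia_ne_bot σ hI)) (span_ne_bot hτη0),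
      cl_span hτη0, mul_one]

/-- the norm of the generator is positive -/
theorem norm_pos_of (hv : V4 σ τ) {D : ℤ} {s : 𝓞 K} (h : Rt σ τ D s) {I : Ideal (𝓞 K)} (hI : I ≠ ⊥)
    {α : 𝓞 K} (hsq : I ^ 2 = span {α}) {p : ℕ} (hp : p.Prime) (hp2 : p ≠ 2) (hpD : (p : ℤ) ∣ D)
    (hp1 : lg p (-1) = 1) : Algebra.intNorm ℤ (𝓞 K) α = (absNorm I : ℤ) ^ 2 := by
  rcases norm_pm hv hsq with h1 | h1
  · exact h1
  exfalso
  have e1 : ra σ (α * ra σ α) = α * ra σ α := by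
    rw [map_mul, ← ra_mul, hv.ss, ra_one, mul_comm]
  have e2 : (α * ra σ α) * ra τ (α * ra σ α) = ((-(absNorm I : ℤ) ^ 2 : ℤ) : 𝓞 K) := by
    have : (α * ra σ α) * ra τ (α * ra σ α) = ((Algebra.intNorm ℤ (𝓞 K) α : ℤ) : 𝓞 K) := by
      rw [← hv.norm_elt α, map_mul, ← ra_mul τ σ, ← hv.comm]; ring
    rw [this, h1]
  set β := α * ra σ α with hβ
  have e4 : ra σ (ra τ β) = ra τ β := by rw [← ra_mul, hv.comm, ra_mul, e1]
  obtain ⟨t, ht⟩ : ∃ t : ℤ, β + ra τ β = (t : 𝓞 K) := by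
    apply hv.fixed_int
    · rw [map_add, e1, e4]
    · rw [map_add, ← ra_mul, hv.tt, ra_one, add_comm]
  obtain ⟨b, hb⟩ : ∃ b : ℤ, β - ra τ β = (b : 𝓞 K) * s := by
    apply anti hv h
    · rw [map_sub, e1, e4]
    · rw [map_sub, ← ra_mul, hv.tt, ra_one]; ring
  have key : 4 * (-(absNorm I : ℤ) ^ 2) = t ^ 2 - b ^ 2 * D := by
    have : ((4 * (-(absNorm I : ℤ) ^ 2) : ℤ) : 𝓞 K) = ((t ^ 2 - b ^ 2 * D : ℤ) : 𝓞 K) := by
      rw [Int.cast_mul, ← e2]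
      push_cast
      rw [← h.sq]
      have e1 : ((b : ℤ) : 𝓞 K) ^ 2 * (s * s) = ((b : 𝓞 K) * s) ^ 2 := by ring
      rw [e1, ← hb, ← ht]; ring
    exact_mod_cast this
  have hA := absNorm_ne hI
  have hA2 : (-(absNorm I : ℤ) ^ 2) ≠ 0 := neg_ne_zero.2 (pow_ne_zero 2 hA)
  have h2 := chi_norm hp hp2 h.sf hA2 key
  have h3 : (-(absNorm I : ℤ) ^ 2) = (-1) * (absNorm I : ℤ) ^ 2 := by ring
  rw [h3, chi_mul hp D (by norm_num) (pow_ne_zero 2 hA), chi_sq hp D hA, add_zero] at h2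
  have h4 : chi p D (-1) = 1 := by
    haveI : Fact p.Prime := ⟨hp⟩
    have hp1' : ¬ (p : ℤ) ∣ -1 := by
      intro h5
      have := (Nat.prime_iff_prime_int.1 hp).not_isUnit
      exact this (isUnit_of_dvd_unit h5 (by norm_num))
    have h5 : padicValInt p (-1) = 0 := padicValInt.eq_zero_of_not_dvd hp1'
    unfold chi
    rw [if_pos hpD, h5]
    simp only [pow_zero, Int.ediv_one, Nat.cast_zero, zero_mul, add_zero]
    exact hp1
  rw [h4] at h2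
  exact one_ne_zero h2

end Pool.Agent.H471R2
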