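import Pool.Agent.H471R2.Ex.Chk
set_option autoImplicit false
set_option linter.all false
open NumberField Ideal nonZeroDivisors

namespace Pool.Agent.H471R2.Ck

theorem pm_prod (p : ℕ → ℕ) (m k : ℕ) : pm p m k = ∏ i ∈ Finset.range k, p i ^ (mb m i).val := by
  induction k with
  | zero => rw [pm_zero]; simp
  | succ k ih =>
    rw [pm_succ, Finset.prod_range_succ, ← ih]
    unfold mb
    cases tb m k with
    | false => simp [bz]
    | true =>
      have : (bz true).val = 1 := rfl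
      rw [this, pow_one]; rfl

theorem pm_dvd {p : ℕ → ℕ} {m : ℕ} {q : ℕ} (hq : q.Prime) : ∀ {k : ℕ}, (∀ i < k, (p i).Prime) →
    q ∣ pm p m k → ∃ i < k, q = p i := by
  intro k
  induction k with
  | zero =>
    intro _ h
    rw [pm_zero] at h
    exact absurd (Nat.dvd_one.1 h) hq.one_lt.ne'
  | succ k ih =>
    intro hp h
    rw [pm_succ] at h
    have ih' := ih (fun i hi => hp i (Nat.lt_succ_of_lt hi))
    cases htb : tb m k with
    | false =>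
      rw [htb, cond_false] at h
      obtain ⟨i, hi, h1⟩ := ih' h
      exact ⟨i, Nat.lt_succ_of_lt hi, h1⟩
    | true =>
      rw [htb, cond_true] at h
      rcases (Nat.Prime.dvd_mul hq).1 h with h1 | h1
      · obtain ⟨i, hi, h2⟩ := ih' h1
        exact ⟨i, Nat.lt_succ_of_lt hi, h2⟩
      · exact ⟨k, Nat.lt_succ_self k, (Nat.prime_dvd_prime_iff_eq hq (hp k (Nat.lt_succ_self k))).1 h1⟩

theorem pm_sf {p : ℕ → ℕ} {m : ℕ} : ∀ {k : ℕ}, (∀ i < k, (p i).Prime) →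
    (∀ i < k, ∀ j < k, p i = p j → i = j) → Squarefree (pm p m k) := by
  intro k
  induction k with
  | zero => intro _ _; rw [pm_zero]; exact squarefree_one
  | succ k ih =>
    intro hp hi
    have ih' := ih (fun i hi => hp i (Nat.lt_succ_of_lt hi))
      (fun i h1 j h2 => hi i (Nat.lt_succ_of_lt h1) j (Nat.lt_succ_of_lt h2))
    rw [pm_succ]
    cases htb : tb m k with
    | false => rw [cond_false]; exact ih'
    | true =>
      rw [cond_true]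
      have hk := hp k (Nat.lt_succ_self k)
      have hc : Nat.Coprime (pm p m k) (p k) := by
        rw [Nat.coprime_comm, Nat.Prime.coprime_iff_not_dvd hk]
        intro h
        obtain ⟨i, h1, h2⟩ := pm_dvd hk (fun i hi => hp i (Nat.lt_succ_of_lt hi)) h
        have := hi k (Nat.lt_succ_self k) i (Nat.lt_succ_of_lt h1) h2
        omega
      exact (Nat.squarefree_mul hc).2 ⟨ih', hk.squarefree⟩

theorem pm_ph {K : Type} [Field K] [NumberField K] {n : ℕ} (R : Ram K n) {p : ℕ → ℕ}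
    (h : ∀ i : Fin n, R.p i = p i) (m : ℕ) : ((pm p m n : ℕ) : ℚ) = R.ph (vec n m) := by
  rw [pm_prod, Finset.prod_range]
  unfold Ram.ph
  push_cast
  apply Finset.prod_congr rfl
  intro i _
  have : (R.pu i : ℚ) = (p i : ℚ) := by
    rw [← h i]; rfl
  rw [this]; rfl

theorem ps_inj {p : ℕ → ℕ} {n : ℕ} (h : ∀ q, q < n - 1 → p q < p (q + 1)) :
    ∀ i < n, ∀ j < n, p i = p j → i = j := by
  have hm : ∀ k i, i + k < n → 0 < k → p i < p (i + k) := by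
    intro k
    induction k with
    | zero => intro i _ h0; exact absurd h0 (lt_irrefl 0)
    | succ k ih =>
      intro i hi _
      by_cases hk : k = 0
      · subst hk; exact h i (by omega)
      · exact (ih i (by omega) (Nat.pos_of_ne_zero hk)).trans (h (i + k) (by omega))
  intro i hi j hj hij
  rcases lt_trichotomy i j with h1 | h1 | h1
  · have := hm (j - i) i (by omega) (by omega)
    rw [Nat.add_sub_cancel' h1.le] at this
    omega
  · exact h1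
  · have := hm (i - j) j (by omega) (by omega)
    rw [Nat.add_sub_cancel' h1.le] at this
    omega

theorem beq_iff {a b : ℕ} : Nat.beq a b = true ↔ a = b := ⟨Nat.eq_of_beq_eq_true, beq_true⟩
theorem blt_iff {a b : ℕ} : Nat.blt a b = true ↔ a < b :=
  ⟨fun h => Nat.lt_of_succ_le (Nat.le_of_ble_eq_true h), fun h => Nat.ble_eq_true_of_le h⟩

/-- unpacking of the field data -/
structure C1 (d : Dat) : Prop where
  hp : ∀ q < d.n, (d.ps q).Prime
  hinj : ∀ i < d.n, ∀ j < d.n, d.ps i = d.ps j → i = j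
  D0 : d.D 0 = d.d1 * d.d2
  D1 : d.D 1 = d.d0 * d.d2
  D2 : d.D 2 = d.d0 * d.d1
  DM : ∀ i < 3, d.D i = pm d.ps (d.M i) d.n
  Dg : ∀ i < 3, 1 < d.D i
  ri3 : ∀ q < d.n, d.ri q < 3
  ri : ∀ q < d.n, d.ps q ∣ d.D (d.ri q) ∨ (d.ps q = 2 ∧ d.D (d.ri q) % 4 = 3)
  two : d.ps 0 = 2 ∨ ∀ i < 3, d.D i % 4 = 1
  n0 : 0 < d.n
  q3 : d.q3 < d.n
  i3 : d.i3 < 3
  p3 : 2 < d.ps d.q3
  d3 : d.ps d.q3 ∣ d.D d.i3
  e3 : eu (d.ps d.q3) (d.ps d.q3 - 1) = true

theorem C1_of {d : Dat} (h : d.c1 = true) : C1 d := by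
  unfold Dat.c1 at h
  simp only [Bool.and_eq_true] at h
  obtain ⟨h1, h2, h3, h4, h5, h6, h7, h8, h9, h10, h11, h12, h13, h14, h15⟩ := h
  refine ⟨fun q hq => pr_prime (al_true h1 q hq), ps_inj (fun q hq => blt_iff.1 (al_true h2 q hq)),
    beq_iff.1 h3, beq_iff.1 h4, beq_iff.1 h5, fun i hi => beq_iff.1 (al_true h6 i hi),
    fun i hi => blt_iff.1 (al_true h7 i hi), ?_, ?_, ?_, blt_iff.1 h10, blt_iff.1 h11, blt_iff.1 h12,
    blt_iff.1 h13, Nat.dvd_of_mod_eq_zero (beq_iff.1 h14), h15⟩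
  · intro q hq
    have := al_true h8 q hq
    rw [Bool.and_eq_true] at this
    exact blt_iff.1 this.1
  · intro q hq
    have := al_true h8 q hq
    rw [Bool.and_eq_true, Bool.or_eq_true, Bool.and_eq_true] at this
    rcases this.2 with h | ⟨h, h'⟩
    · left; exact Nat.dvd_of_mod_eq_zero (beq_iff.1 h)
    · right; exact ⟨beq_iff.1 h, beq_iff.1 h'⟩
  · rw [Bool.or_eq_true] at h9
    rcases h9 with h | h
    · left; exact beq_iff.1 h
    · right; intro i hi; exact beq_iff.1 (al_true h i hi)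

theorem C1.sf {d : Dat} (h : C1 d) {i : ℕ} (hi : i < 3) : Squarefree ((d.D i : ℕ) : ℤ) := by
  rw [Int.squarefree_natCast, h.DM i hi]
  exact pm_sf h.hp h.hinj

theorem C1.bi {d : Dat} (h : C1 d) :
    ∃ (K : Type) (_ : Field K) (_ : NumberField K) (_ : IsGalois ℚ K) (e : V22 ≃* (K ≃ₐ[ℚ] K))
      (B : Bi K), B.g 0 = e gs ∧ B.g 1 = e gt ∧ (∀ i : Fin 3, B.D i = ((d.D i : ℕ) : ℤ)) ∧
      Nonempty (K →+* ℝ) := by
  have s0 := h.sf (i := 0) (by norm_num)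
  have s1 := h.sf (i := 1) (by norm_num)
  have s2 := h.sf (i := 2) (by norm_num)
  have k0 := h.Dg 0 (by norm_num)
  have k1 := h.Dg 1 (by norm_num)
  have k2 := h.Dg 2 (by norm_num)
  rw [h.D0] at s0 k0
  rw [h.D1] at s1 k1
  rw [h.D2] at s2 k2
  obtain ⟨K, i1, i2, i3, e, B, b1, b2, b3, b4, b5, b6⟩ := exists_bi d.d0 d.d1 d.d2 s0 s1 s2 k0 k1 k2
  refine ⟨K, i1, i2, i3, e, B, b1, b2, ?_, b6⟩
  intro i
  fin_cases i
  · change B.D 0 = ((d.D 0 : ℕ) : ℤ)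
    rw [b3, h.D0]
  · change B.D 1 = ((d.D 1 : ℕ) : ℤ)
    rw [b4, h.D1]
  · change B.D 2 = ((d.D 2 : ℕ) : ℤ)
    rw [b5, h.D2]

theorem C1.ram {d : Dat} (h : C1 d) {K : Type} [Field K] [NumberField K] [IsGalois ℚ K] (B : Bi K)
    (hB : ∀ i : Fin 3, B.D i = ((d.D i : ℕ) : ℤ)) : ∃ R : Ram K d.n, ∀ i : Fin d.n, R.p i = d.ps i := by
  obtain ⟨R, hR⟩ := B.exists_ram (fun q : Fin d.n => d.ps q) (fun i => h.hp i i.2)
    (fun i j hij => Fin.ext (h.hinj i i.2 j j.2 hij)) (by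
      intro q
      refine ⟨⟨d.ri q, h.ri3 q q.2⟩, ?_⟩
      rw [hB]
      rcases h.ri q q.2 with h1 | ⟨h1, h2⟩
      · left; exact_mod_cast h1
      · right; exact ⟨h1, by exact_mod_cast congrArg (fun z : ℕ => (z : ℤ)) h2⟩)
  exact ⟨R, fun i => by rw [hR]⟩

theorem C1.hram {d : Dat} (h : C1 d) {K : Type} [Field K] [NumberField K] [IsGalois ℚ K] (B : Bi K)
    (hB : ∀ i : Fin 3, B.D i = ((d.D i : ℕ) : ℤ)) (R : Ram K d.n) (hR : ∀ i : Fin d.n, R.p i = d.ps i) :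
    ∀ q : ℕ, q.Prime → (∀ i, q ≠ R.p i) → ∀ i, ¬ (q : ℤ) ∣ B.D i ∧ (q = 2 → B.D i % 4 = 1) := by
  intro q hq hne i
  constructor
  · rw [hB, Int.natCast_dvd_natCast, h.DM i i.2]
    intro h1
    obtain ⟨j, hj, h2⟩ := pm_dvd hq h.hp h1
    exact hne ⟨j, hj⟩ (by rw [hR]; exact h2)
  · intro h2
    rcases h.two with h3 | h3
    · exfalso
      apply hne ⟨0, h.n0⟩
      rw [hR, h2]; exact h3.symm
    · rw [hB]
      exact_mod_cast congrArg (fun z : ℕ => (z : ℤ)) (h3 i i.2)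

theorem C1.perm {d : Dat} (h : C1 d) {p : ℕ} (hp : p.Prime) {r : ℕ} (hr : r < 3) (hd : p ∣ d.D r) :
    ∃ i j k : Fin 3, (i = 0 ∧ j = 1 ∧ k = 2 ∨ i = 1 ∧ j = 0 ∧ k = 2 ∨ i = 2 ∧ j = 0 ∧ k = 1) ∧
      ¬ p ∣ d.D i ∧ p ∣ d.D j ∧ p ∣ d.D k := by
  have hsf : ∀ a b : ℕ, Squarefree (((a * b : ℕ)) : ℤ) → p ∣ a → ¬ p ∣ b := by
    intro a b h1 h2 h3
    rw [Int.squarefree_natCast] at h1
    exact hp.not_isUnit (h1 p (mul_dvd_mul h2 h3))
  have s0 := h.sf (i := 0) (by norm_num)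
  have s1 := h.sf (i := 1) (by norm_num)
  have s2 := h.sf (i := 2) (by norm_num)
  rw [h.D0] at s0
  rw [h.D1] at s1
  rw [h.D2] at s2
  have hab : p ∣ d.d0 ∨ p ∣ d.d1 ∨ p ∣ d.d2 := by
    have : r = 0 ∨ r = 1 ∨ r = 2 := by omega
    rcases this with rfl | rfl | rfl
    · rw [h.D0] at hd
      rcases (Nat.Prime.dvd_mul hp).1 hd with h1 | h1
      · exact Or.inr (Or.inl h1)
      · exact Or.inr (Or.inr h1)
    · rw [h.D1] at hd
      rcases (Nat.Prime.dvd_mul hp).1 hd with h1 | h1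
      · exact Or.inl h1
      · exact Or.inr (Or.inr h1)
    · rw [h.D2] at hd
      rcases (Nat.Prime.dvd_mul hp).1 hd with h1 | h1
      · exact Or.inl h1
      · exact Or.inr (Or.inl h1)
  rcases hab with h0 | h1 | h2
  · have n1 := hsf _ _ s2 h0
    have n2 := hsf _ _ s1 h0
    refine ⟨0, 1, 2, Or.inl ⟨rfl, rfl, rfl⟩, ?_, ?_, ?_⟩
    · change ¬ p ∣ d.D 0
      rw [h.D0, Nat.Prime.dvd_mul hp]; tauto
    · change p ∣ d.D 1
      rw [h.D1]; exact h0.mul_right _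
    · change p ∣ d.D 2
      rw [h.D2]; exact h0.mul_right _
  · have n1 : ¬ p ∣ d.d0 := fun hh => hsf _ _ s2 hh h1
    have n2 := hsf _ _ s0 h1
    refine ⟨1, 0, 2, Or.inr (Or.inl ⟨rfl, rfl, rfl⟩), ?_, ?_, ?_⟩
    · change ¬ p ∣ d.D 1
      rw [h.D1, Nat.Prime.dvd_mul hp]; tauto
    · change p ∣ d.D 0
      rw [h.D0]; exact h1.mul_right _
    · change p ∣ d.D 2
      rw [h.D2]; exact h1.mul_left _
  · have n1 : ¬ p ∣ d.d0 := fun hh => hsf _ _ s1 hh h2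
    have n2 : ¬ p ∣ d.d1 := fun hh => hsf _ _ s0 hh h2
    refine ⟨2, 0, 1, Or.inr (Or.inr ⟨rfl, rfl, rfl⟩), ?_, ?_, ?_⟩
    · change ¬ p ∣ d.D 2
      rw [h.D2, Nat.Prime.dvd_mul hp]; tauto
    · change p ∣ d.D 0
      rw [h.D0]; exact h2.mul_left _
    · change p ∣ d.D 1
      rw [h.D1]; exact h2.mul_left _

/-- unpacking of the equations -/
theorem rl_eqs {D g h r l : ℕ} (H : Dat.rl D g h r l = true) :
    (r : ℤ) ≠ 0 ∧ ((g : ℤ) ^ 2 + (D : ℤ) * (h : ℤ) ^ 2 = 2 * (r : ℤ) * (((g * g + D * (h * h)) / (2 * r) : ℕ) : ℤ)) ∧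
    ((g : ℤ) * (h : ℤ) = (r : ℤ) * ((g * h / r : ℕ) : ℤ)) ∧
    ((((g * g + D * (h * h)) / (2 * r) : ℕ) : ℤ) ^ 2 - (D : ℤ) * ((g * h / r : ℕ) : ℤ) ^ 2 = 4 * (l : ℤ) ^ 2) := by
  unfold Dat.rl at H
  simp only [Bool.and_eq_true] at H
  obtain ⟨h0, h1, h2, h3⟩ := H
  have h0' : 0 < r := blt_iff.1 h0
  have h1' : g * g + D * (h * h) = 2 * r * ((g * g + D * (h * h)) / (2 * r)) := beq_iff.1 h1
  have h2' : g * h = r * (g * h / r) := beq_iff.1 h2
  have h3' : ((g * g + D * (h * h)) / (2 * r)) ^ 2 = D * (g * h / r) ^ 2 + 4 * (l * l) := beq_iff.1 h3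
  refine ⟨by exact_mod_cast h0'.ne', ?_, ?_, ?_⟩
  · have h4 : ((g * g + D * (h * h) : ℕ) : ℤ) = ((2 * r * ((g * g + D * (h * h)) / (2 * r)) : ℕ) : ℤ) :=
      congrArg (fun z : ℕ => (z : ℤ)) h1'
    rw [Nat.cast_mul (2 * r)] at h4
    push_cast at h4 ⊢
    linear_combination h4
  · exact_mod_cast h2'
  · have h4 : ((((g * g + D * (h * h)) / (2 * r)) ^ 2 : ℕ) : ℤ) = ((D * (g * h / r) ^ 2 + 4 * (l * l) : ℕ) : ℤ) :=
      congrArg (fun z : ℕ => (z : ℤ)) h3'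
    rw [Nat.cast_add, Nat.cast_mul, Nat.cast_pow, Nat.cast_pow] at h4
    push_cast at h4 ⊢
    linear_combination h4

end Pool.Agent.H471R2.Ck
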