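import Pool.Agent.H471R2.Ex.Sound1
set_option autoImplicit false
set_option linter.all false
open NumberField Ideal nonZeroDivisors

namespace Pool.Agent.H471R2.Ck

theorem xor_false_iff {a b : Bool} (h : (!(Bool.xor a b)) = true) : a = b := by
  revert h; cases a <;> cases b <;> decide

/-- the vectors of the five relations -/
theorem rels {d : Dat} (h : C1 d) (h2 : d.c2 = true) {K : Type} [Field K] [NumberField K] [IsGalois ℚ K] (B : Bi K)
    (hB : ∀ i : Fin 3, B.D i = ((d.D i : ℕ) : ℤ)) (R : Ram K d.n) (hR : ∀ i : Fin d.n, R.p i = d.ps i)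
    (φ : K →+* ℝ) :
    (∀ l : Fin 5, R.G (vec d.n (d.v l)) = 1) ∧ 
    (∀ e : Fin d.n → ZMod 2, R.G e = 1 → ∃ c : Fin 5 → ZMod 2, e = ∑ l, c l • vec d.n (d.v l)) := by
  unfold Dat.c2 at h2
  rw [Bool.and_eq_true] at h2
  obtain ⟨ha, hb⟩ := h2
  have hun : ∀ i : Fin 3, R.G (vec d.n (d.um i)) = 1 := by
    intro i
    obtain ⟨h0, e1, e2, e3⟩ := rl_eqs (al_true ha i i.2)
    exact R.rel (B.hv i) (B.rt i) (g := (d.ug i : ℤ)) (hh := (d.uh i : ℤ)) h0
      (by rw [← pm_ph R hR]; push_cast; rfl) (by rw [hB]; exact e1) e2 (by rw [hB, e3]; norm_num)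
  have hs : ∀ i : Fin 3, R.G (vec d.n (d.M i)) = 1 := by
    intro i
    apply R.rel_s (B.hv i) (B.rt i)
    rw [hB, ← pm_ph R hR, ← h.DM i i.2]
    push_cast; rfl
  have hv : ∀ l : Fin 5, R.G (vec d.n (d.v l)) = 1 := by
    intro l
    fin_cases l
    · exact hs 0
    · exact hs 1
    · exact hun 0
    · exact hun 1
    · exact hun 2
  refine ⟨hv, ?_⟩
  obtain ⟨hN, hN2⟩ := NN_le32 B.v0 φ
  have hli : ∀ c : Fin 5 → ZMod 2, ∑ l, c l • vec d.n (d.v l) = 0 → c = 0 := by
    intro c hc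
    funext m
    have h1 : ∑ q : Fin d.n, vec d.n (d.dv m) q * (∑ l, c l • vec d.n (d.v l)) q = 0 := by
      rw [hc]; simp
    have h2 : ∑ q : Fin d.n, vec d.n (d.dv m) q * (∑ l, c l • vec d.n (d.v l)) q =
        ∑ l : Fin 5, c l * bz (dot d.n (d.dv m) (d.v l)) := by
      simp only [Finset.sum_apply, Pi.smul_apply, smul_eq_mul, Finset.mul_sum, bz_dot]
      rw [Finset.sum_comm]
      apply Finset.sum_congr rfl
      intro l _
      apply Finset.sum_congr rfl
      intro q _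
      ring
    have h3 : ∀ l : Fin 5, bz (dot d.n (d.dv m) (d.v l)) = if l = m then 1 else 0 := by
      intro l
      have h4 := xor_false_iff (al_true (al_true hb m m.2) l l.2)
      rw [h4]
      by_cases hl : l = m
      · rw [if_pos hl, hl, beq_true rfl]; rfl
      · rw [if_neg hl, beq_false (fun h => hl (Fin.ext h.symm))]; rfl
    rw [h2] at h1
    simp only [h3, mul_ite, mul_one, mul_zero, Finset.sum_ite_eq', Finset.mem_univ, if_true] at h1
    exact h1
  intro e he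
  exact R.exact_rel hN hN2 (fun l => vec d.n (d.v l)) hv hli he

theorem inN_G {d : Dat} {K : Type} [Field K] [NumberField K] [IsGalois ℚ K] (R : Ram K d.n)
    (hv : ∀ l : Fin 5, R.G (vec d.n (d.v l)) = 1) {m : ℕ} (hm : d.inN m = true) : R.G (vec d.n m) = 1 := by
  unfold Dat.inN at hm
  have h1 := beq_iff.1 hm
  rw [← h1, vec_xs]
  have : ∀ s : Finset (Fin 5), R.G (∑ l ∈ s, bz (dot d.n (d.dv l) m) • vec d.n (d.v l)) = 1 := by
    classical
    intro s
    induction s using Finset.induction_on with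
    | empty => rw [Finset.sum_empty]; exact R.G_zero
    | insert a s ha ih =>
      rw [Finset.sum_insert ha, R.G_add, ih, mul_one]
      cases dot d.n (d.dv a) m with
      | false => rw [show bz false = 0 from rfl, zero_smul]; exact R.G_zero
      | true => rw [show bz true = 1 from rfl, one_smul]; exact hv a
  exact this Finset.univ

/-- classes over the split primes -/
theorem classes {d : Dat} (h : C1 d) (h3 : d.c3 = true) {K : Type} [Field K] [NumberField K] [IsGalois ℚ K]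
    (B : Bi K) (hB : ∀ i : Fin 3, B.D i = ((d.D i : ℕ) : ℤ)) (R : Ram K d.n)
    (hR : ∀ i : Fin d.n, R.p i = d.ps i) (hv : ∀ l : Fin 5, R.G (vec d.n (d.v l)) = 1) :
    ∀ j < d.T, ∃ x : ClassGroup (𝓞 K), x ^ 2 = 1 ∧ ∀ i : Fin 3, x * ca (B.g i) x = R.G (vec d.n (d.lm (3 * j + i))) := by
  intro j hj
  unfold Dat.c3 at h3
  have h4 := al_true h3 j hj
  rw [Bool.and_eq_true, Bool.and_eq_true, Bool.and_eq_true] at h4
  obtain ⟨h5, h6, h7, h8⟩ := h4
  have hl := pr_prime h5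
  have hl2 : 2 < d.ls j := blt_iff.1 h6
  have h9 : ∀ i : Fin 3, Dat.rl (d.D i) (d.lg (3 * j + i)) (d.lh (3 * j + i)) (pm d.ps (d.lm (3 * j + i)) d.n) (d.ls j) = true
      ∧ 0 < ((d.lg (3 * j + i) * d.lg (3 * j + i) + d.D i * (d.lh (3 * j + i) * d.lh (3 * j + i))) /
        (2 * pm d.ps (d.lm (3 * j + i)) d.n)) % (d.ls j) := by
    intro i
    have := al_true h7 i i.2
    rw [Bool.and_eq_true] at this
    exact ⟨this.1, blt_iff.1 this.2⟩
  apply B.exists_class R hl (by omega) (g := fun i => (d.lg (3 * j + i) : ℤ)) (hh := fun i => (d.lh (3 * j + i) : ℤ))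
    (r := fun i : Fin 3 => ((pm d.ps (d.lm (3 * j + i)) d.n : ℕ) : ℤ))
    (a := fun i : Fin 3 => (((d.lg (3 * j + i) * d.lg (3 * j + i) + d.D i * (d.lh (3 * j + i) * d.lh (3 * j + i))) /
        (2 * pm d.ps (d.lm (3 * j + i)) d.n) : ℕ) : ℤ))
    (b := fun i : Fin 3 => ((d.lg (3 * j + i) * d.lh (3 * j + i) / pm d.ps (d.lm (3 * j + i)) d.n : ℕ) : ℤ))
    (e := fun i : Fin 3 => vec d.n (d.lm (3 * j + i)))
  · intro i
    exact (rl_eqs (h9 i).1).1
  · intro i
    rw [← pm_ph R hR]; push_cast; rfl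
  · intro i
    rw [hB]
    exact (rl_eqs (h9 i).1).2.1
  · intro i
    exact (rl_eqs (h9 i).1).2.2.1
  · intro i
    rw [hB]
    exact (rl_eqs (h9 i).1).2.2.2
  · intro i hd
    have h10 := (h9 i).2
    have h11 : d.ls j ∣ (d.lg (3 * j + i) * d.lg (3 * j + i) + d.D i * (d.lh (3 * j + i) * d.lh (3 * j + i))) /
        (2 * pm d.ps (d.lm (3 * j + i)) d.n) := Int.natCast_dvd_natCast.1 hd
    have := Nat.mod_eq_zero_of_dvd h11
    omega
  · have := inN_G R hv h8
    rw [vec_xor, vec_xor] at this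
    exact this

/-- products of classes -/
theorem prodcl {d : Dat} {K : Type} [Field K] [NumberField K] [IsGalois ℚ K]
    (B : Bi K) (R : Ram K d.n)
    (H : ∀ j < d.T, ∃ x : ClassGroup (𝓞 K), x ^ 2 = 1 ∧ ∀ i : Fin 3, x * ca (B.g i) x = R.G (vec d.n (d.lm (3 * j + i))))
    (c : ℕ → Bool) : ∀ k ≤ d.T, ∃ x : ClassGroup (𝓞 K), x ^ 2 = 1 ∧
      ∀ i : Fin 3, x * ca (B.g i) x = R.G (vec d.n (xs c (fun y => d.lm (3 * y + i)) k)) := by
  intro k
  induction k with
  | zero =>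
    intro _
    refine ⟨1, one_pow 2, fun i => ?_⟩
    have : vec d.n 0 = 0 := by
      funext q; exact mb_zero q
    rw [map_one, mul_one, xs_zero, this, R.G_zero]
  | succ k ih =>
    intro hk
    obtain ⟨x, hx, hx2⟩ := ih (by omega)
    obtain ⟨y, hy, hy2⟩ := H k (by omega)
    cases hc : c k with
    | false =>
      refine ⟨x, hx, fun i => ?_⟩
      rw [xs_succ, hc, cond_false]; exact hx2 i
    | true =>
      refine ⟨x * y, by rw [mul_pow, hx, hy, mul_one], fun i => ?_⟩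
      rw [xs_succ, hc, cond_true, vec_xor, R.G_add, ← hx2, ← hy2, map_mul]
      exact mul_mul_mul_comm _ _ _ _

/-- linear map of a list of masks -/
noncomputable def dl (n s : ℕ) (f : ℕ → ℕ) : (Fin n → ZMod 2) →ₗ[ZMod 2] (Fin s → ZMod 2) :=
  Matrix.mulVecLin (Matrix.of fun k q => vec n (f k) q)

theorem dl_apply (n s : ℕ) (f : ℕ → ℕ) (e : Fin n → ZMod 2) (k : Fin s) :
    dl n s f e k = ∑ q : Fin n, vec n (f k) q * e q := rfl

theorem dl_vec (n s : ℕ) (f : ℕ → ℕ) (m : ℕ) (k : Fin s) : dl n s f (vec n m) k = bz (dot n (f k) m) := by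
  rw [dl_apply, bz_dot]

end Pool.Agent.H471R2.Ck
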