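import Pool.Agent.H471R2.Ex.Sound2
set_option autoImplicit false
set_option linter.all false
open NumberField Ideal nonZeroDivisors

namespace Pool.Agent.H471R2.Ck

/-- all unknowns as one function -/
def XX (n : ℕ) (E : Fin 3 → Fin n → ZMod 2) (ε : Fin 3 → ZMod 2) (ν : Fin 5 → ZMod 2) (t : ℕ) : ZMod 2 :=
  if h : t < 3 * n then E ⟨t / n, Nat.div_lt_of_lt_mul (by rwa [mul_comm] at h)⟩
    ⟨t % n, Nat.mod_lt _ (by omega)⟩
  else if h : t < 3 * n + 3 then ε ⟨t - 3 * n, by omega⟩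
  else if h : t < 3 * n + 8 then ν ⟨t - 3 * n - 3, by omega⟩ else 0

theorem XX_E {n : ℕ} (E : Fin 3 → Fin n → ZMod 2) (ε : Fin 3 → ZMod 2) (ν : Fin 5 → ZMod 2) (i : Fin 3)
    (q : Fin n) : XX n E ε ν (i * n + q) = E i q := by
  have hn : 0 < n := by have := q.2; omega
  have h1 : (i : ℕ) * n + q < 3 * n := by
    have h2 : (i : ℕ) * n ≤ 2 * n := Nat.mul_le_mul_right n (by have := i.2; omega)
    have := q.2
    omega
  unfold XX
  rw [dif_pos h1]
  have e1 : ((i : ℕ) * n + q) / n = i := by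
    rw [mul_comm, Nat.mul_add_div hn, Nat.div_eq_of_lt q.2, add_zero]
  have e2 : ((i : ℕ) * n + q) % n = q := by
    rw [mul_comm, Nat.mul_add_mod, Nat.mod_eq_of_lt q.2]
  exact congrArg₂ E (Fin.ext e1) (Fin.ext e2)

theorem XX_ε {n : ℕ} (E : Fin 3 → Fin n → ZMod 2) (ε : Fin 3 → ZMod 2) (ν : Fin 5 → ZMod 2) (i : Fin 3) :
    XX n E ε ν (3 * n + i) = ε i := by
  have := i.2
  unfold XX
  rw [dif_neg (by omega), dif_pos (by omega)]
  congr 1
  apply Fin.ext
  change 3 * n + (i : ℕ) - 3 * n = i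
  omega

theorem XX_ν {n : ℕ} (E : Fin 3 → Fin n → ZMod 2) (ε : Fin 3 → ZMod 2) (ν : Fin 5 → ZMod 2) (l : Fin 5) :
    XX n E ε ν (3 * n + 3 + l) = ν l := by
  have := l.2
  unfold XX
  rw [dif_neg (by omega), dif_neg (by omega), dif_pos (by omega)]
  congr 1
  apply Fin.ext
  change 3 * n + 3 + (l : ℕ) - 3 * n - 3 = l
  omega

/-- linear identities on the components -/
theorem forms {d : Dat} {A A' : ℕ → ℕ → Bool} (h : C1 d) (h5 : d.c5 A A' = true)
    {E : Fin 3 → Fin d.n → ZMod 2} {ε : Fin 3 → ZMod 2} {ν : Fin 5 → ZMod 2} {D : Fin 3 → ℤ}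
    (hD : ∀ i : Fin 3, D i = ((d.D i : ℕ) : ℤ))
    (f1 : ∀ (i : Fin 3) (q : Fin d.n), d.ps q ≠ 2 → ¬ (d.ps q : ℤ) ∣ D i → E i q = 0)
    (f2 : ∀ (i : Fin 3) (q : Fin d.n), d.ps q = 2 → D i % 4 = 1 → E i q = 0)
    (f3 : ∀ q, E 0 q + E 1 q + E 2 q = ∑ l : Fin 5, ν l * vec d.n (d.v l) q)
    (f4 : ∀ (p : ℕ) (i j k : Fin 3), p.Prime → p ≠ 2 →
        (i = 0 ∧ j = 1 ∧ k = 2 ∨ i = 1 ∧ j = 0 ∧ k = 2 ∨ i = 2 ∧ j = 0 ∧ k = 1) →
        ¬ (p : ℤ) ∣ D i → (p : ℤ) ∣ D j → (p : ℤ) ∣ D k →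
        ∑ i : Fin 3, (ε i * chi p (D i) (-1) + ∑ q : Fin d.n, E i q * chi p (D i) (d.ps q : ℤ)) = 0) :
    (dl d.n d.s d.ph (E 0) = Dat.ml d.s d.t A (dl d.n d.t d.p0 (E 0) + dl d.n d.t d.p1 (E 1))) ∧
    (dl d.n d.s d.ph (E 1) = Dat.ml d.s d.t A' (dl d.n d.t d.p0 (E 0) + dl d.n d.t d.p1 (E 1))) := by
  unfold Dat.c5 at h5
  simp only [Bool.and_eq_true] at h5
  obtain ⟨g1, g2, g3⟩ := h5
  set X := XX d.n E ε ν with hX
  set N := 3 * d.n + 8 with hN
  -- zero coordinates
  have hz : ∀ t < N, tb d.alw t = false → X t = 0 := by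
    intro t ht htb
    have h1 := al_true g2 t ht
    rw [htb, Bool.false_or, Bool.and_eq_true] at h1
    have h2 : t < 3 * d.n := blt_iff.1 h1.1
    have h3 : d.forb (t / d.n) (t % d.n) = true := h1.2
    rw [hX]
    unfold XX
    rw [dif_pos h2]
    have hnn : 0 < d.n := by omega
    have hi : t / d.n < 3 := Nat.div_lt_of_lt_mul (by rwa [mul_comm] at h2)
    have hq : t % d.n < d.n := Nat.mod_lt _ hnn
    unfold Dat.forb at h3
    by_cases h4 : d.ps (t % d.n) = 2
    · rw [beq_true h4, cond_true] at h3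
      apply f2 ⟨t / d.n, hi⟩ ⟨t % d.n, hq⟩ h4
      rw [hD]
      exact_mod_cast congrArg (fun z : ℕ => (z : ℤ)) (beq_iff.1 h3)
    · rw [beq_false h4, cond_false] at h3
      apply f1 ⟨t / d.n, hi⟩ ⟨t % d.n, hq⟩ h4
      rw [hD]
      intro h5
      have h6 := Int.natCast_dvd_natCast.1 h5
      have h7 := Nat.mod_eq_zero_of_dvd h6
      have h8 : 0 < d.D (t / d.n) % d.ps (t % d.n) := blt_iff.1 h3
      have h9 : ((⟨t / d.n, hi⟩ : Fin 3) : ℕ) = t / d.n := rfl
      have h10 : ((⟨t % d.n, hq⟩ : Fin d.n) : ℕ) = t % d.n := rfl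
      rw [h9, h10] at h7
      omega
  have hE : ∀ (i : Fin 3) (q : Fin d.n), X (i * d.n + q) = E i q := fun i q => XX_E E ε ν i q
  -- form sums
  have hrow : ∀ (m : ℕ) (i : Fin 3), ev X N (xs (fun q => tb m q) (fun q => Nat.pow 2 (Nat.add (Nat.mul i d.n) q)) d.n) =
      ∑ q : Fin d.n, vec d.n m q * E i q := by
    intro m i
    rw [ev_xs, Finset.sum_range]
    apply Finset.sum_congr rfl
    intro q _
    have h1 : (i : ℕ) * d.n + q < N := by
      have h2 : (i : ℕ) * d.n ≤ 2 * d.n := Nat.mul_le_mul_right _ (by have := i.2; omega)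
      have := q.2
      omega
    have h3 : ev X N (Nat.pow 2 (Nat.add (Nat.mul i d.n) q)) = X (i * d.n + q) := ev_pow X h1
    rw [h3, hE]; rfl
  have hrow0 : ∀ (m : ℕ), ev X N (xs (fun q => tb m q) (fun q => Nat.pow 2 q) d.n) =
      ∑ q : Fin d.n, vec d.n m q * E 0 q := by
    intro m
    rw [← hrow m 0]
    have : (fun q : ℕ => Nat.pow 2 (Nat.add (Nat.mul ((0 : Fin 3) : ℕ) d.n) q)) = fun q => Nat.pow 2 q := by
      funext q
      have : Nat.add (Nat.mul ((0 : Fin 3) : ℕ) d.n) q = q := by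
        change 0 * d.n + q = q
        omega
      rw [this]
    rw [this]
  have hrow1 : ∀ (m : ℕ), ev X N (xs (fun q => tb m q) (fun q => Nat.pow 2 (Nat.add d.n q)) d.n) =
      ∑ q : Fin d.n, vec d.n m q * E 1 q := by
    intro m
    rw [← hrow m 1]
    have : (fun q : ℕ => Nat.pow 2 (Nat.add (Nat.mul ((1 : Fin 3) : ℕ) d.n) q)) = fun q => Nat.pow 2 (Nat.add d.n q) := by
      funext q
      have : Nat.add (Nat.mul ((1 : Fin 3) : ℕ) d.n) q = Nat.add d.n q := by
        change 1 * d.n + q = d.n + q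
        omega
      rw [this]
    rw [this]
  -- constraints vanish
  have hcA : ∀ q, q < d.n → ev X N (d.cA q) = 0 := by
    intro q hq
    unfold Dat.cA
    rw [ev_xor, ev_xor, ev_xor, ev_xs, Finset.sum_range]
    have e0 : ev X N (Nat.pow 2 q) = E 0 ⟨q, hq⟩ := by
      rw [ev_pow X (by omega : q < N), ← hE]
      congr 1
      change q = 0 * d.n + q
      omega
    have e1 : ev X N (Nat.pow 2 (Nat.add d.n q)) = E 1 ⟨q, hq⟩ := by
      have h1 : Nat.add d.n q < N := by change d.n + q < N; omega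
      rw [ev_pow X h1, ← hE]
      congr 1
      change d.n + q = 1 * d.n + q
      omega
    have e2 : ev X N (Nat.pow 2 (Nat.add (Nat.mul 2 d.n) q)) = E 2 ⟨q, hq⟩ := by
      have h1 : Nat.add (Nat.mul 2 d.n) q < N := by change 2 * d.n + q < N; omega
      rw [ev_pow X h1, ← hE]
      rfl
    have e3 : ∀ l : Fin 5, ev X N (Nat.pow 2 (Nat.add (Nat.add (Nat.mul 3 d.n) 3) l)) = ν l := by
      intro l
      have h1 : Nat.add (Nat.add (Nat.mul 3 d.n) 3) l < N := by
        change 3 * d.n + 3 + (l : ℕ) < N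
        have := l.2
        omega
      rw [ev_pow X h1]
      exact XX_ν E ε ν l
    rw [e0, e1, e2]
    simp only [e3]
    rw [f3 ⟨q, hq⟩]
    have e4 : ∑ l : Fin 5, bz (tb (d.v l) q) * ν l = ∑ l : Fin 5, ν l * vec d.n (d.v l) ⟨q, hq⟩ := by
      apply Finset.sum_congr rfl
      intro l _
      rw [mul_comm]; rfl
    rw [e4]
    exact Kr.add_self_k _
  have hcs : ∀ q, q < d.n → ev X N (d.cs q) = 0 := by
    intro q hq
    have h1 := al_true g1 q hq
    rw [Bool.or_eq_true, Bool.and_eq_true] at h1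
    rcases h1 with h1 | ⟨h1, h2⟩
    · rw [beq_iff.1 h1]
      unfold ev
      apply Finset.sum_eq_zero
      intro t _
      rw [mb_zero, zero_mul]
    · rw [beq_iff.1 h2]
      have hp := h.hp q hq
      have hp2 : 2 < d.ps q := blt_iff.1 h1
      have hdv : d.ps q ∣ d.D (d.ri q) := by
        rcases h.ri q hq with h3 | ⟨h3, _⟩
        · exact h3
        · omega
      obtain ⟨i, j, k, hijk, n1, n2, n3⟩ := h.perm hp (h.ri3 q hq) hdv
      have hs := f4 (d.ps q) i j k hp (by omega) hijk (by rw [hD, Int.natCast_dvd_natCast]; exact n1)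
        (by rw [hD, Int.natCast_dvd_natCast]; exact n2) (by rw [hD, Int.natCast_dvd_natCast]; exact n3)
      rw [← hs]
      unfold Dat.cS
      rw [ev_xs, Finset.sum_range]
      apply Finset.sum_congr rfl
      intro i _
      rw [ev_xor, ev_xs, ev_xs, Finset.sum_range, Finset.sum_range]
      have e1 : ∀ q' : Fin d.n, ev X N (Nat.pow 2 (Nat.add (Nat.mul i d.n) q')) = E i q' := by
        intro q'
        have h1 : (i : ℕ) * d.n + q' < N := by
          have h2 : (i : ℕ) * d.n ≤ 2 * d.n := Nat.mul_le_mul_right _ (by have := i.2; omega)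
          have := q'.2
          omega
        have h3 : ev X N (Nat.pow 2 (Nat.add (Nat.mul i d.n) q')) = X (i * d.n + q') := ev_pow X h1
        rw [h3, hE]
      have e2 : ev X N (Nat.pow 2 (Nat.add (Nat.mul 3 d.n) i)) = ε i := by
        have h1 : Nat.add (Nat.mul 3 d.n) i < N := by
          change 3 * d.n + (i : ℕ) < N
          have := i.2
          omega
        rw [ev_pow X h1]
        exact XX_ε E ε ν i
      simp only [e1]
      rw [Fin.sum_univ_one, e2, hD, chi_sm hp]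
      have e3 : ∀ q' : Fin d.n, chi (d.ps q) ((d.D i : ℕ) : ℤ) (d.ps q' : ℤ) = bz (sy (d.D i) (d.ps q) (d.ps q')) :=
        fun q' => chi_sy hp (h.hp q' q'.2)
      simp only [e3]
      have e4 : bz true = 1 := rfl
      rw [e4, one_mul, add_comm]
      congr 1
      · rw [mul_comm]
      · apply Finset.sum_congr rfl
        intro q' _
        rw [mul_comm]
  have hcb : ∀ u, ev X N (d.cb u) = 0 := by
    intro u
    unfold Dat.cb
    rw [ev_xs]
    apply Finset.sum_eq_zero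
    intro r hr
    have hr' : r < 2 * d.n := Finset.mem_range.1 hr
    cases hb : Nat.blt r d.n with
    | true =>
      simp only [hb, cond_true]
      rw [hcA r (blt_iff.1 hb), mul_zero]
    | false =>
      simp only [hb, cond_false]
      have h1 : ¬ r < d.n := fun h => by rw [blt_iff.2 h] at hb; exact absurd hb (by decide)
      have h2 : Nat.sub r d.n < d.n := by change r - d.n < d.n; omega
      rw [hcs _ h2, mul_zero]
  have hF : ∀ (i : Fin 3) (k : ℕ) (A : ℕ → ℕ → Bool), ev X N (d.F i k A) =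
      ∑ q : Fin d.n, vec d.n (d.ph k) q * E i q + ∑ j : Fin d.t, bz (A k j) *
        (∑ q : Fin d.n, vec d.n (d.p0 j) q * E 0 q + ∑ q : Fin d.n, vec d.n (d.p1 j) q * E 1 q) := by
    intro i k A
    unfold Dat.F
    rw [ev_xor, hrow, ev_xs, Finset.sum_range]
    congr 1
    apply Finset.sum_congr rfl
    intro j _
    rw [ev_xor, hrow0, hrow1]
  have key : ∀ (i : Fin 3) (k : ℕ) (A : ℕ → ℕ → Bool) (u : ℕ), Nat.land (Nat.xor (d.F i k A) (d.cb u)) d.alw = 0 →
      ∑ q : Fin d.n, vec d.n (d.ph k) q * E i q = ∑ j : Fin d.t, bz (A k j) *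
        (∑ q : Fin d.n, vec d.n (d.p0 j) q * E 0 q + ∑ q : Fin d.n, vec d.n (d.p1 j) q * E 1 q) := by
    intro i k A u hu
    have h1 := ev_and X hz hu
    rw [ev_xor, hcb, add_zero, hF] at h1
    exact Kr.eq_of_add_k h1
  constructor
  · funext k
    have h1 := al_true g3 k k.2
    rw [Bool.and_eq_true] at h1
    exact key 0 k A _ (beq_iff.1 h1.1)
  · funext k
    have h1 := al_true g3 k k.2
    rw [Bool.and_eq_true] at h1
    exact key 1 k A' _ (beq_iff.1 h1.2)

/-- **Soundness of the certificate.** -/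
theorem sound (d : Dat) (A A' : ℕ → ℕ → Bool) (h1 : d.c1 = true) (h2 : d.c2 = true) (h3 : d.c3 = true)
    (h4 : d.c4 A A' = true) (h5 : d.c5 A A' = true) :
    ∃ (K : Type) (_ : Field K) (_ : NumberField K) (_ : IsGalois ℚ K) (e : V22 ≃* (K ≃ₐ[ℚ] K)),
      IsSummand K e (kron (Dat.ml d.s d.t A) (Dat.ml d.s d.t A')) := by
  have c1 := C1_of h1
  obtain ⟨K, _, _, _, e, B, b0, b1, bD, ⟨φ⟩⟩ := c1.bi
  obtain ⟨R, hR⟩ := c1.ram B bD
  obtain ⟨hv, hex⟩ := rels c1 h2 B bD R hR φ
  have hcl := classes c1 h3 B bD R hR hv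
  unfold Dat.c4 at h4
  simp only [Bool.and_eq_true] at h4
  obtain ⟨a1, a2, a3, a4⟩ := h4
  have hx : ∀ j : Fin d.t, ∃ x : ClassGroup (𝓞 K), x ^ 2 = 1 ∧
      ∀ i : Fin 3, x * ca (B.g i) x = R.G (vec d.n (d.rr i j)) := fun j =>
    prodcl B R hcl (fun y => tb (d.cx j) y) d.T le_rfl
  choose x hx2 hxr using hx
  have notb : ∀ {b : Bool}, (!b) = true → bz b = 0 := by
    intro b hb; revert hb; cases b <;> decide
  have hsingle : ∀ (m : ℕ) (A : ℕ → ℕ → Bool) (j : Fin d.t), vec d.n (xs (fun k => A k j) d.w d.s) =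
      ∑ k : Fin d.s, (Dat.ml d.s d.t A (Pi.single j 1)) k • vec d.n (d.w k) := by
    intro m A j
    rw [vec_xs]
    apply Finset.sum_congr rfl
    intro k _
    congr 1
    rw [Dat.ml_apply, Finset.sum_eq_single j]
    · simp
    · intro j' _ hj'
      rw [Pi.single_eq_of_ne hj', mul_zero]
    · intro h; exact absurd (Finset.mem_univ j) h
  have hNN : ∀ (m m' : ℕ), d.inN (Nat.xor m m') = true → R.G (vec d.n m) = R.G (vec d.n m') := by
    intro m m' hm
    have := inN_G R hv hm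
    rw [vec_xor, R.G_add] at this
    calc R.G (vec d.n m) = R.G (vec d.n m) * (R.G (vec d.n m') * R.G (vec d.n m')) := by
          rw [← sq, R.G_sq, mul_one]
      _ = (R.G (vec d.n m) * R.G (vec d.n m')) * R.G (vec d.n m') := by rw [mul_assoc]
      _ = R.G (vec d.n m') := by rw [this, one_mul]
  refine ⟨K, inferInstance, inferInstance, inferInstance, e, ?_⟩
  refine summand_of e R hex x hx2 (fun j => vec d.n (d.rr 0 j)) (fun j => vec d.n (d.rr 1 j)) ?_ ?_
    (fun k => vec d.n (d.w k)) (dl d.n d.s d.ph) (dl d.n d.t d.p0) (dl d.n d.t d.p1) ?_ ?_ ?_ ?_ ?_ _ _ ?_ ?_ ?_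
  · intro j
    rw [← b0]; exact hxr j 0
  · intro j
    rw [← b1]; exact hxr j 1
  · intro l
    funext k
    rw [dl_vec]
    have := al_true a1 l l.2
    simp only [Bool.and_eq_true] at this
    exact notb (al_true this.1 k k.2)
  · intro l
    funext k
    rw [dl_vec]
    have := al_true a1 l l.2
    simp only [Bool.and_eq_true] at this
    exact notb (al_true this.2.1 k k.2)
  · intro l
    funext k
    rw [dl_vec]
    have := al_true a1 l l.2
    simp only [Bool.and_eq_true] at this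
    exact notb (al_true this.2.2 k k.2)
  · intro j
    funext k
    rw [Pi.add_apply, dl_vec, dl_vec, ← bz_xor, xor_false_iff (al_true (al_true a2 k k.2) j j.2)]
    by_cases hkj : k = j
    · rw [hkj, Pi.single_eq_same, beq_true rfl]; rfl
    · rw [Pi.single_eq_of_ne hkj, beq_false (fun h => hkj (Fin.ext h))]; rfl
  · intro j
    funext k
    rw [dl_vec, xor_false_iff (al_true (al_true a3 k k.2) j j.2)]
    by_cases hkj : k = j
    · rw [hkj, Pi.single_eq_same, beq_true rfl]; rfl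
    · rw [Pi.single_eq_of_ne hkj, beq_false (fun h => hkj (Fin.ext h))]; rfl
  · intro j
    have := al_true a4 j j.2
    simp only [Bool.and_eq_true] at this
    rw [← hsingle 0 A j]
    exact hNN _ _ this.1
  · intro j
    have := al_true a4 j j.2
    simp only [Bool.and_eq_true] at this
    rw [← hsingle 0 A' j]
    exact hNN _ _ this.2
  · intro x hx
    obtain ⟨E, ε, ν, hG, f1, f2, f3, f4⟩ := B.upperV R (c1.hram B bD R hR) (c1.hp _ c1.q3) (by
        have := c1.p3; omega) (i3 := ⟨d.i3, c1.i3⟩) (by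
        rw [bD, Int.natCast_dvd_natCast]; exact c1.d3) (by
        have h5 := lg_eu (c1.hp _ c1.q3) (a := -1) (b := d.ps d.q3 - 1) (by
          have h1 : 1 ≤ d.ps d.q3 := (c1.hp _ c1.q3).one_lt.le
          rw [Nat.cast_sub h1, ZMod.natCast_self]
          push_cast; ring)
        rw [h5, c1.e3]; rfl) hex hx
    obtain ⟨k0, k1⟩ := forms c1 h5 bD (fun i q hq hd => f1 i q (by rw [hR]; exact hq) (by rw [hR]; exact hd))
      (fun i q hq hd => f2 i q (by rw [hR]; exact hq) hd) f3 (by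
        intro p i j k hp hp2 hijk n1 n2 n3
        have := f4 p i j k hp hp2 hijk n1 n2 n3
        simp only [hR] at this
        exact this)
    refine ⟨E 0, E 1, ?_, ?_, k0, k1⟩
    · rw [← b0]; exact hG 0
    · rw [← b1]; exact hG 1

end Pool.Agent.H471R2.Ck
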