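import Pool.Agent.H471R2.Ex.Ram
set_option autoImplicit false
set_option linter.all false
open NumberField Ideal nonZeroDivisors

namespace Pool.Agent.H471R2

variable {K : Type*} [Field K] [NumberField K] [IsGalois ℚ K] {σ τ : K ≃ₐ[ℚ] K}

theorem half (hv : V4 σ τ) {D : ℤ} {s : 𝓞 K} (h : Rt σ τ D s) {a b m : ℤ}
    (hab : a ^ 2 - D * b ^ 2 = 4 * m) :
    ∃ γ : 𝓞 K, 2 * γ = (a : 𝓞 K) + (b : 𝓞 K) * s ∧ ra σ γ = γ ∧ γ + ra τ γ = (a : 𝓞 K) ∧
      γ * ra τ γ = (m : 𝓞 K) := by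
  have hsK : (s : K) * (s : K) = ((D : ℤ) : K) := by
    have := congrArg (algebraMap (𝓞 K) K) h.sq
    simpa using this
  have habK : ((a : ℤ) : K) ^ 2 - ((D : ℤ) : K) * ((b : ℤ) : K) ^ 2 = 4 * ((m : ℤ) : K) := by
    exact_mod_cast congrArg (fun z : ℤ => (z : K)) hab
  have hint : IsIntegral ℤ (((a : K) + (b : K) * (s : K)) / 2) := by
    refine ⟨Polynomial.X ^ 2 + (- Polynomial.C a * Polynomial.X + Polynomial.C m), ?_, ?_⟩
    · apply Polynomial.monic_X_pow_add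
      have h1 : (-Polynomial.C a * Polynomial.X + Polynomial.C m : Polynomial ℤ).degree ≤ 1 := by
        refine (Polynomial.degree_add_le _ _).trans ?_
        apply max_le
        · rw [neg_mul, Polynomial.degree_neg]
          exact Polynomial.degree_C_mul_X_le _
        · exact Polynomial.degree_C_le.trans (by norm_num)
      exact lt_of_le_of_lt h1 (by norm_num)
    · simp only [Polynomial.eval₂_add, Polynomial.eval₂_pow, Polynomial.eval₂_X,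
        Polynomial.eval₂_C, Polynomial.eval₂_mul, Polynomial.eval₂_neg]
      have h5 : ∀ z : ℤ, (algebraMap ℤ K) z = ((z : ℤ) : K) := fun z => rfl
      rw [h5, h5]
      linear_combination ((b : K) ^ 2 / 4) * hsK - (1 / 4 : K) * habK
  obtain ⟨γ, hγ⟩ : ∃ γ : 𝓞 K, (γ : K) = ((a : K) + (b : K) * (s : K)) / 2 := ⟨⟨_, hint⟩, rfl⟩
  have h2γ : 2 * γ = (a : 𝓞 K) + (b : 𝓞 K) * s := by
    apply RingOfIntegers.coe_injective
    rw [map_mul, map_add, map_mul]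
    simp only [map_ofNat, map_intCast]
    change 2 * (γ : K) = (a : K) + (b : K) * (s : K)
    rw [hγ]; ring
  have h20 : (2 : 𝓞 K) ≠ 0 := two_ne_zero
  have hσ : ra σ γ = γ := by
    apply mul_left_cancel₀ h20
    have : ra σ (2 * γ) = 2 * γ := by
      rw [h2γ, map_add, map_mul, map_intCast, map_intCast, h.fs]
    rwa [map_mul, map_ofNat] at this
  have hτ : 2 * ra τ γ = (a : 𝓞 K) - (b : 𝓞 K) * s := by
    have : ra τ (2 * γ) = (a : 𝓞 K) - (b : 𝓞 K) * s := by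
      rw [h2γ, map_add, map_mul, map_intCast, map_intCast, h.ft]; ring
    rwa [map_mul, map_ofNat] at this
  refine ⟨γ, h2γ, hσ, ?_, ?_⟩
  · apply mul_left_cancel₀ h20
    linear_combination h2γ + hτ
  · apply mul_left_cancel₀ (mul_ne_zero h20 h20)
    have h4 : ((a : 𝓞 K)) ^ 2 - ((D : ℤ) : 𝓞 K) * (b : 𝓞 K) ^ 2 = 4 * (m : 𝓞 K) := by
      exact_mod_cast congrArg (fun z : ℤ => (z : 𝓞 K)) hab
    calc 2 * 2 * (γ * ra τ γ) = (2 * γ) * (2 * ra τ γ) := by ring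
      _ = (a : 𝓞 K) ^ 2 - (s * s) * (b : 𝓞 K) ^ 2 := by rw [h2γ, hτ]; ring
      _ = _ := by rw [h.sq, h4]; ring

/-- the square of `g + h s` -/
theorem zsq {D : ℤ} {s : 𝓞 K} (h : Rt σ τ D s) {g hh a b r : ℤ} {γ : 𝓞 K}
    (hγ : 2 * γ = (a : 𝓞 K) + (b : 𝓞 K) * s) (e1 : g ^ 2 + D * hh ^ 2 = 2 * r * a)
    (e2 : g * hh = r * b) : ((g : 𝓞 K) + (hh : 𝓞 K) * s) ^ 2 = ((4 * r : ℤ) : 𝓞 K) * γ := by
  have e1' : (g : 𝓞 K) ^ 2 + ((D : ℤ) : 𝓞 K) * (hh : 𝓞 K) ^ 2 = 2 * (r : 𝓞 K) * (a : 𝓞 K) := by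
    exact_mod_cast congrArg (fun z : ℤ => (z : 𝓞 K)) e1
  have e2' : (g : 𝓞 K) * (hh : 𝓞 K) = (r : 𝓞 K) * (b : 𝓞 K) := by
    exact_mod_cast congrArg (fun z : ℤ => (z : 𝓞 K)) e2
  push_cast
  linear_combination (hh : 𝓞 K) ^ 2 * h.sq + e1' + 2 * s * e2' - 2 * (r : 𝓞 K) * hγ

namespace Ram
variable {n : ℕ} (R : Ram K n)

theorem par_four (r : ℤ) (hr : r ≠ 0) (e : Fin n → ZMod 2) (he : (r : ℚ) = R.ph e) :
    R.par (Units.mk0 ((4 * r : ℤ) : ℚ) (by exact_mod_cast (mul_ne_zero four_ne_zero hr))) = e ∧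
    ∀ q : ℕ, q.Prime → (∀ i, q ≠ R.p i) → Even (padicValRat q ((4 * r : ℤ) : ℚ)) := by
  have h4 : (Units.mk0 ((4 * r : ℤ) : ℚ) (by exact_mod_cast (mul_ne_zero four_ne_zero hr))) =
      (Units.mk0 (2 : ℚ) two_ne_zero) ^ 2 * R.ph e := by
    apply Units.ext
    rw [Units.val_mul, ← he]
    push_cast
    norm_num
  constructor
  · rw [h4, R.par_mul, R.par_ph]
    have : R.par ((Units.mk0 (2 : ℚ) two_ne_zero) ^ 2) = 0 := by
      funext i
      simp only [par, Pi.zero_apply]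
      rw [val_pow _ (R.hp i)]
      push_cast
      have : (2 : ZMod 2) = 0 := rfl
      rw [this, zero_mul]
    rw [this, zero_add]
  · intro q hq h
    have e1 : ((4 * r : ℤ) : ℚ) = (((Units.mk0 (2 : ℚ) two_ne_zero) ^ 2 * R.ph e : ℚˣ) : ℚ) := by
      rw [← h4]; rfl
    rw [e1, val_mul q hq, val_pow q hq, R.val_ph_other e q hq h, add_zero]
    exact ⟨padicValRat q 2, by push_cast; rw [Units.val_mk0]; ring⟩

/-- generic: an ideal whose square is `(4 r)` times the square of another ideal. -/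
theorem G_of_eq {r : ℤ} (hr : r ≠ 0) {e : Fin n → ZMod 2} (he : (r : ℚ) = R.ph e) {z : 𝓞 K}
    (hz : z ≠ 0) {L : Ideal (𝓞 K)} (hL : L ≠ ⊥)
    (h : (span {z} : Ideal (𝓞 K)) ^ 2 = span {((4 * r : ℤ) : 𝓞 K)} * L ^ 2) : cl L hL = R.G e := by
  have h4r : (4 * r : ℤ) ≠ 0 := mul_ne_zero four_ne_zero hr
  obtain ⟨hp, hev⟩ := R.par_four r hr e he
  have hz2 : (span {z} : Ideal (𝓞 K)) ^ 2 ≠ ⊥ := pow_ne_zero 2 (span_ne_bot hz)
  have hL2 : L ^ 2 ≠ ⊥ := pow_ne_zero 2 hL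
  have h4K : ((4 * r : ℤ) : 𝓞 K) ≠ 0 := by exact_mod_cast h4r
  set J : FI K := toFI (span {z}) (span_ne_bot hz) * (toFI L hL)⁻¹ with hJ
  have hJ2 : J ^ 2 = pq K (Units.mk0 ((4 * r : ℤ) : ℚ) (by exact_mod_cast h4r)) := by
    rw [hJ, mul_pow, inv_pow, ← toFI_sq _ _ hz2, ← toFI_sq _ _ hL2, toFI_congr h,
      toFI_mul _ _ (span_ne_bot h4K) hL2, toFI_span_int h4r, mul_inv_cancel_right]
  have h1 := R.G_of hJ2 (by
    intro q hq hh
    rw [Units.val_mk0]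
    exact hev q hq hh)
  rw [hp] at h1
  rw [hJ, map_mul, map_inv, mk_toFI, mk_toFI, cl_span hz, one_mul] at h1
  rw [← inv_inv (cl L hL), h1]
  have := R.G_sq e
  rw [sq] at this
  exact (eq_inv_of_mul_eq_one_left this).symm

theorem rel (hv : V4 σ τ) {D : ℤ} {s : 𝓞 K} (h : Rt σ τ D s) {g hh a b r : ℤ} (hr : r ≠ 0)
    {e : Fin n → ZMod 2} (he : (r : ℚ) = R.ph e) (e1 : g ^ 2 + D * hh ^ 2 = 2 * r * a)
    (e2 : g * hh = r * b) (e3 : a ^ 2 - D * b ^ 2 = 4) : R.G e = 1 := by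
  obtain ⟨γ, h1, h2, h3, h4⟩ := half hv h (m := 1) (by rw [e3]; norm_num)
  have hz := zsq h h1 e1 e2
  have hγ0 : γ ≠ 0 := by
    rintro rfl
    rw [zero_mul] at h4
    simp at h4
  have hz0 : (g : 𝓞 K) + (hh : 𝓞 K) * s ≠ 0 := by
    intro h0
    rw [h0, zero_pow two_ne_zero] at hz
    rcases mul_eq_zero.1 hz.symm with h5 | h5
    · have : (4 * r : ℤ) = 0 := by exact_mod_cast h5
      exact mul_ne_zero four_ne_zero hr this
    · exact hγ0 h5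
  have htop : (⊤ : Ideal (𝓞 K)) ≠ ⊥ := by
    intro h0
    have : (1 : 𝓞 K) ∈ (⊥ : Ideal (𝓞 K)) := by rw [← h0]; trivial
    rw [Ideal.mem_bot] at this
    exact one_ne_zero this
  have h5 := R.G_of_eq hr he hz0 htop (by
    rw [← Ideal.one_eq_top, one_pow, mul_one, Ideal.span_singleton_pow, hz,
      Ideal.span_singleton_eq_span_singleton]
    refine ⟨⟨ra τ γ, γ, by rw [mul_comm]; simpa using h4, by simpa using h4⟩, ?_⟩
    change _ * γ * ra τ γ = _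
    rw [mul_assoc, h4]; simp)
  rw [← h5]
  have h6 : (⊤ : Ideal (𝓞 K)) = span {1} := by rw [Ideal.span_singleton_one]
  rw [cl_congr2 h6 htop (span_ne_bot one_ne_zero)]
  exact cl_span one_ne_zero _

theorem rel_s (hv : V4 σ τ) {D : ℤ} {s : 𝓞 K} (h : Rt σ τ D s)
    {e : Fin n → ZMod 2} (he : (D : ℚ) = R.ph e) : R.G e = 1 := by
  have htop : (⊤ : Ideal (𝓞 K)) ≠ ⊥ := by
    intro h0
    have : (1 : 𝓞 K) ∈ (⊥ : Ideal (𝓞 K)) := by rw [← h0]; trivial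
    rw [Ideal.mem_bot] at this
    exact one_ne_zero this
  have h2s : (2 : 𝓞 K) * s ≠ 0 := mul_ne_zero two_ne_zero h.s_ne_zero
  have h5 := R.G_of_eq h.D_ne_zero he h2s htop (by
    rw [← Ideal.one_eq_top, one_pow, mul_one, Ideal.span_singleton_pow]
    congr 2
    push_cast
    rw [← h.sq]; ring)
  rw [← h5]
  have h6 : (⊤ : Ideal (𝓞 K)) = span {1} := by rw [Ideal.span_singleton_one]
  rw [cl_congr2 h6 htop (span_ne_bot one_ne_zero)]
  exact cl_span one_ne_zero _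

end Ram

/-! ### split primes -/

theorem ia_prime (g : K ≃ₐ[ℚ] K) {P : Ideal (𝓞 K)} (hP : P.IsPrime) : (ia g P).IsPrime :=
  Ideal.map_isPrime_of_equiv (ra g)

theorem coprime_of_ne {P Q : Ideal (𝓞 K)} (hP : P.IsPrime) (hQ : Q.IsPrime) (hP0 : P ≠ ⊥)
    (hQ0 : Q ≠ ⊥) (h : P ≠ Q) : IsCoprime P Q := by
  rw [Ideal.isCoprime_iff_sup_eq]
  exact (hP.isMaximal hP0).coprime_of_ne (hQ.isMaximal hQ0) h

theorem int_mem {P : Ideal (𝓞 K)} (hP : P.IsPrime) {l : ℕ} (hl : l.Prime)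
    (hlP : (l : 𝓞 K) ∈ P) {m : ℤ} (hm : (m : 𝓞 K) ∈ P) : (l : ℤ) ∣ m := by
  by_contra h
  have hc : IsCoprime (l : ℤ) m := (Nat.prime_iff_prime_int.1 hl).coprime_iff_not_dvd.2 h
  obtain ⟨u, v, huv⟩ := hc
  apply hP.ne_top
  rw [Ideal.eq_top_iff_one]
  have : (1 : 𝓞 K) = (u : 𝓞 K) * (l : 𝓞 K) + (v : 𝓞 K) * (m : 𝓞 K) := by
    exact_mod_cast congrArg (fun z : ℤ => (z : 𝓞 K)) huv.symm
  rw [this]
  exact P.add_mem (P.mul_mem_left _ hlP) (P.mul_mem_left _ hm)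

/-- a prime containing `l` is not fixed by `τ` when `D` has a root mod `l`. -/
theorem not_fixed {D : ℤ} {s : 𝓞 K} (h : Rt σ τ D s) {g : K ≃ₐ[ℚ] K} (hg : ra g s = -s)
    {P : Ideal (𝓞 K)} (hP : P.IsPrime) {l : ℕ} (hl : l.Prime) (hl2 : l ≠ 2)
    (hlP : (l : 𝓞 K) ∈ P) {a b : ℤ} (hab : a ^ 2 - D * b ^ 2 = 4 * (l : ℤ) ^ 2) (ha : ¬ (l : ℤ) ∣ a) :
    ia g P ≠ P := by
  intro hfix
  have h1 : ((a : 𝓞 K) + (b : 𝓞 K) * s) * ((a : 𝓞 K) - (b : 𝓞 K) * s) ∈ P := by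
    have e1 : ((a : 𝓞 K) + (b : 𝓞 K) * s) * ((a : 𝓞 K) - (b : 𝓞 K) * s) = 4 * (l : 𝓞 K) * (l : 𝓞 K) := by
      have e2 : (a : 𝓞 K) ^ 2 - ((D : ℤ) : 𝓞 K) * (b : 𝓞 K) ^ 2 = 4 * (l : 𝓞 K) ^ 2 := by
        exact_mod_cast congrArg (fun z : ℤ => (z : 𝓞 K)) hab
      linear_combination e2 - (b : 𝓞 K) ^ 2 * h.sq
    rw [e1]
    exact P.mul_mem_left _ hlP
  have key : ((2 * a : ℤ) : 𝓞 K) ∈ P := by
    rcases hP.mem_or_mem h1 with h2 | h2
    · have h3 := ra_mem_ia g h2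
      rw [hfix, map_add, map_mul, map_intCast, map_intCast, hg] at h3
      have := P.add_mem h2 h3
      have e : (a : 𝓞 K) + (b : 𝓞 K) * s + ((a : 𝓞 K) + (b : 𝓞 K) * -s) = ((2 * a : ℤ) : 𝓞 K) := by
        push_cast; ring
      rwa [e] at this
    · have h3 := ra_mem_ia g h2
      rw [hfix, map_sub, map_mul, map_intCast, map_intCast, hg] at h3
      have := P.add_mem h2 h3
      have e : (a : 𝓞 K) - (b : 𝓞 K) * s + ((a : 𝓞 K) - (b : 𝓞 K) * -s) = ((2 * a : ℤ) : 𝓞 K) := by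
        push_cast; ring
      rwa [e] at this
  have h4 := int_mem hP hl hlP key
  have hlI := Nat.prime_iff_prime_int.1 hl
  rcases hlI.dvd_or_dvd h4 with h5 | h5
  · have : l ∣ 2 := by exact_mod_cast h5
    exact hl2 ((Nat.prime_dvd_prime_iff_eq hl Nat.prime_two).1 this)
  · exact ha h5

/-- four distinct conjugates: the norm is `l`. -/
theorem norm_of_nonfixed (hv : V4 σ τ) {P : Ideal (𝓞 K)} (hP : P.IsPrime) {l : ℕ} (hl : l.Prime)
    (hlP : (l : 𝓞 K) ∈ P) (h1 : ia σ P ≠ P) (h2 : ia τ P ≠ P) (h3 : ia (σ * τ) P ≠ P) :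
    absNorm P = l := by
  have hl0 : (l : 𝓞 K) ≠ 0 := by exact_mod_cast hl.ne_zero
  have hP0 : P ≠ ⊥ := by
    rintro rfl
    rw [Ideal.mem_bot] at hlP
    exact hl0 hlP
  have hdvd : ∀ g : K ≃ₐ[ℚ] K, ia g P ∣ span {(l : 𝓞 K)} := by
    intro g
    rw [Ideal.dvd_iff_le, Ideal.span_singleton_le_iff_mem]
    have := ra_mem_ia g hlP
    rwa [map_natCast] at this
  have hinj : ∀ g h : K ≃ₐ[ℚ] K, ia (g⁻¹ * h) P ≠ P → ia g P ≠ ia h P := by
    intro g h h4 h5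
    apply h4
    rw [← ia_ia, ← h5, ia_ia, inv_mul_cancel, ia_one]
  have cop : ∀ g h : K ≃ₐ[ℚ] K, ia (g⁻¹ * h) P ≠ P → IsCoprime (ia g P) (ia h P) := by
    intro g h h4
    exact coprime_of_ne (ia_prime g hP) (ia_prime h hP) (ia_ne_bot g hP0) (ia_ne_bot h hP0)
      (hinj g h h4)
  have is : σ⁻¹ = σ := inv_eq_of_mul_eq_one_left hv.ss
  have it : τ⁻¹ = τ := inv_eq_of_mul_eq_one_left hv.tt
  have c01 : IsCoprime (ia 1 P) (ia σ P) := cop 1 σ (by rw [inv_one, one_mul]; exact h1)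
  have c02 : IsCoprime (ia 1 P) (ia τ P) := cop 1 τ (by rw [inv_one, one_mul]; exact h2)
  have c03 : IsCoprime (ia 1 P) (ia (σ * τ) P) := cop 1 _ (by rw [inv_one, one_mul]; exact h3)
  have c12 : IsCoprime (ia σ P) (ia τ P) := cop σ τ (by rw [is]; exact h3)
  have c13 : IsCoprime (ia σ P) (ia (σ * τ) P) := cop σ _ (by rw [is, hv.sts]; exact h2)
  have c23 : IsCoprime (ia τ P) (ia (σ * τ) P) := cop τ _ (by rw [it, hv.tst]; exact h1)
  rw [ia_one] at c01 c02 c03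
  have d1 : P ∣ span {(l : 𝓞 K)} := by have := hdvd 1; rwa [ia_one] at this
  have d2 := c01.mul_dvd d1 (hdvd σ)
  have d3 := (c02.mul_left c12).mul_dvd d2 (hdvd τ)
  have d4 := ((c03.mul_left c13).mul_left c23).mul_dvd d3 (hdvd (σ * τ))
  rw [hv.norm_ideal] at d4
  have d5 : ((absNorm P : ℕ) : ℤ) ∣ (l : ℤ) := by
    apply span_int_dvd (K := K)
    simpa using d4
  have d6 : absNorm P ∣ l := by exact_mod_cast d5
  rcases (Nat.dvd_prime hl).1 d6 with h7 | h7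
  · exact absurd (Ideal.absNorm_eq_one_iff.1 h7) hP.ne_top
  · exact h7

theorem Ram.split {n : ℕ} (R : Ram K n) (hv : V4 σ τ) {D : ℤ} {s : 𝓞 K} (h : Rt σ τ D s)
    {g hh a b r : ℤ} (hr : r ≠ 0)
    {e : Fin n → ZMod 2} (he : (r : ℚ) = R.ph e) {l : ℕ} (hl : l.Prime)
    (e1 : g ^ 2 + D * hh ^ 2 = 2 * r * a)
    (e2 : g * hh = r * b) (e3 : a ^ 2 - D * b ^ 2 = 4 * (l : ℤ) ^ 2) (ha : ¬ (l : ℤ) ∣ a)
    {P : Ideal (𝓞 K)} (hP : P.IsPrime) (hP0 : P ≠ ⊥) (hlP : (l : 𝓞 K) ∈ P) (hn : absNorm P = l)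
    (hσ : ia σ P ≠ P) : cl P hP0 * ca σ (cl P hP0) = R.G e := by
  obtain ⟨γ, h1, h2, h3, h4⟩ := half hv h (m := (l : ℤ) ^ 2) e3
  have hz := zsq h h1 e1 e2
  have hl0 : (l : 𝓞 K) ≠ 0 := by exact_mod_cast hl.ne_zero
  -- general claim for γ' and z'
  have main : ∀ γ' z' : 𝓞 K, ra σ γ' = γ' → γ' * ra τ γ' = ((l : ℤ) ^ 2 : ℤ) →
      z' ^ 2 = ((4 * r : ℤ) : 𝓞 K) * γ' → ra τ γ' ∉ P → cl P hP0 * ca σ (cl P hP0) = R.G e := by
    intro γ' z' g1 g2 g3 g4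
    have hγ0 : γ' ≠ 0 := by
      rintro rfl
      rw [map_zero] at g4
      exact g4 P.zero_mem
    have hz0 : z' ≠ 0 := by
      rintro rfl
      rw [zero_pow two_ne_zero] at g3
      rcases mul_eq_zero.1 g3.symm with h5 | h5
      · have : (4 * r : ℤ) = 0 := by exact_mod_cast h5
        exact mul_ne_zero four_ne_zero hr this
      · exact hγ0 h5
    have hnorm := hv.norm_ideal P
    rw [hn] at hnorm
    have hprod : span {γ'} * span {ra τ γ'} = (P * ia σ P * ia τ P * ia (σ * τ) P) ^ 2 := by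
      rw [hnorm, Ideal.span_singleton_mul_span_singleton, g2, Ideal.span_singleton_pow]
      push_cast; rfl
    have hcopP : IsCoprime P (span {ra τ γ'}) := by
      rw [Ideal.isCoprime_iff_sup_eq]
      by_contra hne
      have hmax := hP.isMaximal hP0
      have : P ⊔ span {ra τ γ'} = P := by
        rcases hmax.eq_of_le hne le_sup_left with h5
        exact h5.symm
      apply g4
      rw [← this]
      exact Ideal.mem_sup_right (Ideal.mem_span_singleton_self _)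
    have hP2 : P ^ 2 ∣ span {γ'} := by
      have h5 : P ^ 2 ∣ span {γ'} * span {ra τ γ'} := by
        rw [hprod]
        exact pow_dvd_pow_of_dvd ⟨ia σ P * ia τ P * ia (σ * τ) P, by ring⟩ 2
      exact (hcopP.pow_left).dvd_of_dvd_mul_right h5
    have hσP2 : (ia σ P) ^ 2 ∣ span {γ'} := by
      obtain ⟨C, hC⟩ := hP2
      refine ⟨ia σ C, ?_⟩
      rw [← ia_pow, ← ia_mul, ← hC, ia_span, g1]
    have hcop : IsCoprime P (ia σ P) := coprime_of_ne hP (ia_prime σ hP) hP0 (ia_ne_bot σ hP0)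
      (fun h => hσ h.symm)
    obtain ⟨C, hC⟩ := (hcop.pow (m := 2) (n := 2)).mul_dvd hP2 hσP2
    have hC1 : C = ⊤ := by
      have hτ : span {ra τ γ'} = (ia τ P) ^ 2 * (ia (σ * τ) P) ^ 2 * ia τ C := by
        rw [← ia_span, hC, ia_mul, ia_mul, ia_pow, ia_pow, ia_ia, ← hv.comm]
      rw [hC, hτ] at hprod
      have hne : (P * ia σ P * ia τ P * ia (σ * τ) P) ^ 2 ≠ ⊥ := by
        apply pow_ne_zero
        rw [hnorm]
        exact span_ne_bot (by exact_mod_cast hl.ne_zero)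
      have h6 : (P * ia σ P * ia τ P * ia (σ * τ) P) ^ 2 * (C * ia τ C) =
          (P * ia σ P * ia τ P * ia (σ * τ) P) ^ 2 * 1 := by
        rw [mul_one]
        calc _ = P ^ 2 * (ia σ P) ^ 2 * C * ((ia τ P) ^ 2 * (ia (σ * τ) P) ^ 2 * ia τ C) := by ring
          _ = _ := hprod
      have h7 := mul_left_cancel₀ hne h6
      have h8 : C ∣ 1 := ⟨_, h7.symm⟩
      rw [Ideal.dvd_iff_le, Ideal.one_eq_top] at h8
      exact top_le_iff.1 h8
    rw [hC1, Ideal.mul_top, ← mul_pow] at hC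
    have hL0 : P * ia σ P ≠ ⊥ := mul_ne_zero hP0 (ia_ne_bot σ hP0)
    rw [ca_cl, ← cl_mul _ _ hP0 (ia_ne_bot σ hP0)]
    apply R.G_of_eq hr he hz0 hL0
    rw [Ideal.span_singleton_pow, g3, ← Ideal.span_singleton_mul_span_singleton, hC]
  have hsum : ¬ (γ ∈ P ∧ ra τ γ ∈ P) := by
    rintro ⟨h5, h6⟩
    have := P.add_mem h5 h6
    rw [h3] at this
    exact ha (int_mem hP hl hlP this)
  by_cases h5 : ra τ γ ∈ P
  · have h6 : γ ∉ P := fun h => hsum ⟨h, h5⟩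
    have hττ : ra τ (ra τ γ) = γ := by rw [← ra_mul, hv.tt, ra_one]
    apply main (ra τ γ) (ra τ ((g : 𝓞 K) + (hh : 𝓞 K) * s))
    · rw [← ra_mul, hv.comm, ra_mul, h2]
    · rw [hττ, mul_comm]; exact h4
    · rw [← map_pow, hz, map_mul, map_intCast]
    · rw [hττ]; exact h6
  · exact main γ _ h2 h4 hz h5

end Pool.Agent.H471R2
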